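import Pool.Agent.Work.MP_547619_s4.Defs
import Pool.Agent.Work.MP_547619_kz.B_LOW
import Pool.Agent.Work.MP_547619_co_helper96.Upper

/-!
# MP_547619_co, THEOREM S4: assembly from the last blocks
-/

set_option autoImplicit false

namespace Frag.S4

open SimpleGraph Frag.Kz

/-- The class of the graphs of maximum degree at most `d` without induced `K_(1,4)`. -/
def maxSF (d : ℕ) : GraphClass := fun n G => maxDegClass d n G ∧ K14F n G

/-- The class of the graphs of average degree at most `d` without induced `K_(1,4)`. -/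
def avgSF (d : ℕ) : GraphClass := fun n G => avgDegClass d n G ∧ K14F n G

/-- The upper bound in terms of the number of edges. -/
theorem upper (hUPP : S_UPP) (ε : ℝ) (hε : 0 < ε) : ∃ k : ℕ, ∀ (n : ℕ) (G : SimpleGraph (Fin n)),
    K14F n G → ∃ S : Finset (Fin n), (S.card : ℝ) ≤ (G.edgeSet.ncard : ℝ) / 6 + ε * n ∧
      TreeWidthLE (G.induce {v | v ∉ S}) k := by
  obtain ⟨L, hL⟩ := exists_nat_gt (2 / ε)
  have hLpos : (0 : ℝ) < L := lt_trans (by positivity) hL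
  have hL1 : 1 ≤ L := by exact_mod_cast hLpos
  refine ⟨10 * L + 19, fun n G hG => ?_⟩
  obtain ⟨S, hS, ht⟩ := hUPP L hL1 n G hG
  refine ⟨S, hS.trans ?_, ht⟩
  have h4 : 2 / (L : ℝ) ≤ ε := by
    rw [div_le_iff₀ hLpos]
    rw [div_lt_iff₀ hε] at hL
    linarith
  have hn : (0 : ℝ) ≤ n := Nat.cast_nonneg n
  have := mul_le_mul_of_nonneg_right h4 hn
  linarith

/-- The values of `lam` coming from the upper bound. -/
theorem mem_of (hUPP : S_UPP) (d : ℕ) (ε : ℝ) (hε : 0 < ε) : ((d : ℝ) / 12 + ε : ℝ) ∈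
    {lam : ℝ | 0 ≤ lam ∧ ∃ k : ℕ, ∀ (n : ℕ) (G : SimpleGraph (Fin n)), avgSF d n G →
      ∃ S : Finset (Fin n), (S.card : ℝ) ≤ lam * (n : ℝ) ∧
        TreeWidthLE (G.induce {v | v ∉ S}) k} := by
  refine ⟨by positivity, ?_⟩
  obtain ⟨k, hk⟩ := upper hUPP ε hε
  refine ⟨k, fun n G hG => ?_⟩
  obtain ⟨S, hS, ht⟩ := hk n G hG.2
  refine ⟨S, hS.trans ?_, ht⟩
  have h1 : (2 : ℝ) * (G.edgeSet.ncard : ℝ) ≤ d * n := by
    exact_mod_cast hG.1
  linarith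

theorem avg_le (hUPP : S_UPP) (d : ℕ) : fragCoeff (avgSF d) ≤ (d : ℝ) / 12 := by
  refine le_of_forall_pos_le_add fun ε hε => ?_
  exact csInf_le ⟨0, fun x hx => hx.1⟩ (mem_of hUPP d ε hε)

theorem max_le_avg (hUPP : S_UPP) (d : ℕ) : fragCoeff (maxSF d) ≤ fragCoeff (avgSF d) :=
  fragCoeff_mono fun n G h => ⟨maxDeg_sub_avgDeg d n G h.1, h.2⟩

theorem le_max (hUPP : S_UPP) (hLOK : S_LOK) (d a b : ℕ) (ha : 2 ≤ a) (hb : 2 ≤ b)
    (hab : a + b - 2 = d) : 1 - 1 / (a : ℝ) - 1 / (b : ℝ) ≤ fragCoeff (maxSF d) := by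
  obtain ⟨h0, k, hk⟩ := mem_of hUPP d 1 one_pos
  have hne : {lam : ℝ | 0 ≤ lam ∧ ∃ k : ℕ, ∀ (n : ℕ) (G : SimpleGraph (Fin n)), maxSF d n G →
        ∃ S : Finset (Fin n), (S.card : ℝ) ≤ lam * (n : ℝ) ∧
          TreeWidthLE (G.induce {v | v ∉ S}) k}.Nonempty :=
    ⟨_, h0, k, fun n G hG => hk n G ⟨maxDeg_sub_avgDeg d n G hG.1, hG.2⟩⟩
  refine le_csInf hne ?_
  rintro lam ⟨_, k', hk'⟩
  exact p_LOW a b ha hb (maxSF d) (fun n G h => by rw [hab] at h; exact ⟨h.1, hLOK n G h.2⟩) lam k'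
    hk'

/-- Both coefficients for `d = 4, 5, 6`. -/
theorem both (hUPP : S_UPP) (hLOK : S_LOK) (d a b : ℕ) (ha : 2 ≤ a) (hb : 2 ≤ b)
    (hab : a + b - 2 = d) (h1 : 1 - 1 / (a : ℝ) - 1 / (b : ℝ) = (d : ℝ) / 12) :
    fragCoeff (maxSF d) = (d : ℝ) / 12 ∧ fragCoeff (avgSF d) = (d : ℝ) / 12 := by
  have e1 := le_max hUPP hLOK d a b ha hb hab
  have e2 := max_le_avg hUPP d
  have e3 := avg_le hUPP d
  rw [h1] at e1
  exact ⟨le_antisymm (e2.trans e3) e1, le_antisymm e3 (e1.trans e2)⟩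

theorem values (hUPP : S_UPP) (hLOK : S_LOK) (d : ℕ) (hd : d = 4 ∨ d = 5 ∨ d = 6) :
    fragCoeff (maxSF d) = (d : ℝ) / 12 ∧ fragCoeff (avgSF d) = (d : ℝ) / 12 := by
  rcases hd with rfl | rfl | rfl
  · exact both hUPP hLOK 4 3 3 (by norm_num) (by norm_num) rfl (by norm_num)
  · exact both hUPP hLOK 5 3 4 (by norm_num) (by norm_num) rfl (by norm_num)
  · exact both hUPP hLOK 6 4 4 (by norm_num) (by norm_num) rfl (by norm_num)

end Frag.S4
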