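import Pool.Agent.Work.MP_547619_s4.Defs

set_option autoImplicit false

namespace Frag.S4

open SimpleGraph Frag.Kz

lemma AL2_M : ∀ I : Finset (Fin 5), I.card = 3 → ((1 ∉ I ∧ 2 ∉ I) ∨ (3 ∉ I ∧ 4 ∉ I) ∨ 0 ∉ I) →
    ∃ i ∈ I, ∃ j ∈ I, mM i j := by decide

lemma AL2_P : ∀ I : Finset (Fin 5), I.card = 3 →
    ((0 ∉ I ∧ 1 ∉ I) ∨ (0 ∉ I ∧ 2 ∉ I) ∨ (3 ∉ I ∧ 4 ∉ I)) →
    ∃ i ∈ I, ∃ j ∈ I, mP i j := by decide

/-- The set of indices of `s`. -/
lemma AL2_I {n : ℕ} {m : Fin 5 → Fin 5 → Prop} {G : SimpleGraph (Fin n)} {W s : Finset (Fin n)} {x : Fin n}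
    {f : Fin 5 → Fin n} (hT : Ty m G W x f) (hs : s ⊆ W) (hc : s.card = 3) (ha : ∀ y ∈ s, G.Adj x y) :
    ∃ I : Finset (Fin 5), I.card = 3 ∧ ∀ i ∈ I, f i ∈ s := by
  classical
  refine ⟨Finset.univ.filter (fun i => f i ∈ s), ?_, fun i hi => (Finset.mem_filter.mp hi).2⟩
  have himg : (Finset.univ.filter (fun i => f i ∈ s)).image f = s := by
    ext y
    rw [Finset.mem_image]
    constructor
    · rintro ⟨i, hi, rfl⟩
      exact (Finset.mem_filter.mp hi).2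
    · intro hy
      obtain ⟨i, hi⟩ := (hT.nbr y (hs hy)).mp (ha y hy)
      exact ⟨i, Finset.mem_filter.mpr ⟨Finset.mem_univ _, by rw [hi]; exact hy⟩, hi⟩
  rw [← hc, ← himg, Finset.card_image_of_injective _ (fun i j h => hT.inj i j h), himg]

theorem p_AL2 (h1 : S_PTC) (h2 : S_NBT) : S_AL2 := by
  intro n G W PS nb FS LF hS C hpv x hx s hs hc ha
  have P := h1 n G W PS nb FS LF hS
  obtain ⟨N1, N2, _, _, _, _⟩ := h2 n G W PS nb FS LF hS C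
  obtain ⟨hloc, htri, hcov⟩ := hS
  have hxZ := (Finset.mem_sdiff.mp hx).1
  have hx' := Finset.mem_filter.mp hxZ
  obtain ⟨p, hp⟩ := hx'.2
  obtain ⟨hpx, hpC⟩ := Finset.mem_inter.mp hp
  have hxF := hx'.1
  have hxW : x ∈ W := (Finset.mem_sdiff.mp hxF).1
  have hsW : s ⊆ W := hs.trans Finset.sdiff_subset
  have hsn : ∀ y ∈ s, y ∉ TT W PS nb FS LF C ∪ XX W PS nb FS LF C :=
    fun y hy => (Finset.mem_sdiff.mp (hs hy)).2
  have hP4 := (P x hxF).2.2.2.1 p hpx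
  by_cases hP : x ∈ PS
  · have hT := hloc.tyP x hP
    obtain ⟨I, hI3, hI⟩ := AL2_I hT hsW hc ha
    have hno : ∀ τ ∈ trs PS nb x, lb nb FS LF τ ∈ C → ∀ i, nb x i ∈ τ → i ∉ I := by
      intro τ hτ hl i hi hiI
      exact hsn _ (hI i hiI) (N1 x hxW τ hτ hl _ hi)
    have hcase : (0 ∉ I ∧ 1 ∉ I) ∨ (0 ∉ I ∧ 2 ∉ I) ∨ (3 ∉ I ∧ 4 ∉ I) := by
      rcases hP4 with ⟨τ, hτ, hpt⟩ | ⟨h, _⟩ | ⟨h, _⟩
      · rw [hpt] at hpC
        have hτ' := hτ
        rw [trs, if_pos hP] at hτ'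
        simp only [Finset.mem_insert, Finset.mem_singleton] at hτ'
        rcases hτ' with rfl | rfl | rfl
        · exact Or.inl ⟨hno _ hτ hpC 0 (by simp [ta]), hno _ hτ hpC 1 (by simp [ta])⟩
        · exact Or.inr (Or.inl ⟨hno _ hτ hpC 0 (by simp [tb]), hno _ hτ hpC 2 (by simp [tb])⟩)
        · exact Or.inr (Or.inr ⟨hno _ hτ hpC 3 (by simp [ct]), hno _ hτ hpC 4 (by simp [ct])⟩)
      · exact absurd hP h
      · exact absurd hP h
    obtain ⟨i, hi, j, hj, hm⟩ := AL2_P I hI3 hcase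
    exact ⟨_, hI i hi, _, hI j hj, (hT.adj i j).mpr hm⟩
  · have hT := hloc.tyM x hxW hP
    obtain ⟨I, hI3, hI⟩ := AL2_I hT hsW hc ha
    have hno : ∀ τ ∈ trs PS nb x, lb nb FS LF τ ∈ C → ∀ i, nb x i ∈ τ → i ∉ I := by
      intro τ hτ hl i hi hiI
      exact hsn _ (hI i hiI) (N1 x hxW τ hτ hl _ hi)
    have hcase : (1 ∉ I ∧ 2 ∉ I) ∨ (3 ∉ I ∧ 4 ∉ I) ∨ 0 ∉ I := by
      rcases hP4 with ⟨τ, hτ, hpt⟩ | ⟨_, h⟩ | ⟨_, h, _⟩
      · rw [hpt] at hpC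
        have hτ' := hτ
        rw [trs, if_neg hP] at hτ'
        simp only [Finset.mem_insert, Finset.mem_singleton] at hτ'
        rcases hτ' with rfl | rfl
        · exact Or.inl ⟨hno _ hτ hpC 1 (by simp [t1]), hno _ hτ hpC 2 (by simp [t1])⟩
        · exact Or.inr (Or.inl ⟨hno _ hτ hpC 3 (by simp [ct]), hno _ hτ hpC 4 (by simp [ct])⟩)
      · rw [h] at hpC
        exact Or.inr (Or.inr fun h0 => hsn _ (hI 0 h0) (N2 x hxW hP hpC).2)
      · rw [h] at hpC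
        exfalso
        have : enc {x} ∈ C.filter (fun p => (dec n p).card = 1) := by
          rw [Finset.mem_filter]
          refine ⟨hpC, ?_⟩
          rw [dec_enc, Finset.card_singleton]
        unfold pv at hpv
        rw [Finset.card_eq_zero] at hpv
        rw [hpv] at this
        exact absurd this (Finset.notMem_empty _)
    obtain ⟨i, hi, j, hj, hm⟩ := AL2_M I hI3 hcase
    exact ⟨_, hI i hi, _, hI j hj, (hT.adj i j).mpr hm⟩

end Frag.S4
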