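import Pool.Agent.Work.MP_547619_s4.Defs

set_option autoImplicit false

namespace Frag.S4

open SimpleGraph Frag.Kz

theorem p_ARI : S_ARI := by
  intro m11 m10 m02 m01 p20 p11 p10 p01 tM tP t1 s X hX h5 hw hs hp he1 he2 ht hn hf
  obtain ⟨a, ha⟩ := he1
  obtain ⟨b, hb⟩ := he2
  have b1 : m01 ≤ 1 := by omega
  have b2 : p01 ≤ 1 := by omega
  have b3 : m10 ≤ 1 := by omega
  have b4 : m02 ≤ 1 := by omega
  have b5 : p10 ≤ 2 := by omega
  have b6 : p11 ≤ 2 := by omega
  have b7 : m11 ≤ 3 := by omega
  have b8 : p20 ≤ 11 := by omega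
  interval_cases m01 <;> interval_cases p01 <;> (try omega) <;>
    interval_cases m10 <;> (try omega) <;> interval_cases m02 <;> (try omega) <;>
    interval_cases p10 <;> (try omega) <;> interval_cases p11 <;> (try omega) <;>
    interval_cases m11 <;> (try omega) <;> interval_cases p20 <;> (try omega) <;>
    (subst hX; omega)

end Frag.S4
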