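import Pool.Agent.Work.MP_547619_s4.Defs

/-! # Block AVG (S4) -/

set_option autoImplicit false

namespace Frag.S4

open SimpleGraph Frag.Kz

theorem p_AVG : S_AVG := by
  classical
  intro n X f hX
  have hne : (X.powersetCard 5).Nonempty := Finset.powersetCard_nonempty.2 hX
  obtain ⟨R, hR, hmin⟩ := Finset.exists_min_image (X.powersetCard 5) (fun R => ∑ x ∈ R, f x) hne
  rw [Finset.mem_powersetCard] at hR
  obtain ⟨hRX, hRc⟩ := hR
  refine ⟨R, hRX, hRc, ?_⟩
  have hex : ∀ b ∈ X \ R, ∀ a ∈ R, f a ≤ f b := by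
    intro b hb a ha
    rw [Finset.mem_sdiff] at hb
    have hbR : b ∉ R.erase a := fun h => hb.2 (Finset.mem_of_mem_erase h)
    have hm : insert b (R.erase a) ∈ X.powersetCard 5 := by
      rw [Finset.mem_powersetCard]
      refine ⟨?_, ?_⟩
      · intro y hy
        rcases Finset.mem_insert.1 hy with rfl | hy
        · exact hb.1
        · exact hRX (Finset.mem_of_mem_erase hy)
      · rw [Finset.card_insert_of_notMem hbR, Finset.card_erase_of_mem ha, hRc]
    have h1 := hmin _ hm
    rw [Finset.sum_insert hbR] at h1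
    have h2 := Finset.add_sum_erase R f ha
    omega
  have h1 : (X \ R).card * ∑ x ∈ R, f x ≤ 5 * ∑ x ∈ X \ R, f x := by
    rw [← smul_eq_mul, ← Finset.sum_const, Finset.mul_sum]
    refine Finset.sum_le_sum fun b hb => ?_
    calc ∑ a ∈ R, f a ≤ ∑ _a ∈ R, f b := Finset.sum_le_sum fun a ha => hex b hb a ha
      _ = 5 * f b := by rw [Finset.sum_const, hRc, smul_eq_mul]
  have h2 : (X \ R).card + R.card = X.card := Finset.card_sdiff_add_card_eq_card hRX
  have h3 : ∑ x ∈ X \ R, f x + ∑ x ∈ R, f x = ∑ x ∈ X, f x := Finset.sum_sdiff hRX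
  rw [← h2, ← h3, hRc]
  nlinarith

end Frag.S4
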