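import Pool.Agent.Work.MP_547619_s4.Defs

/-!
# MP_547619_co, THEOREM S4: block BAR
-/

set_option autoImplicit false

namespace Frag.S4

open SimpleGraph Frag.Kz

/-- The private points of disjoint subsets of `P`. -/
lemma BAR_pv (n : ℕ) (P : Finset ℕ) (CC : Finset (Finset ℕ)) (hsub : ∀ C ∈ CC, C ⊆ P)
    (hdis : ∀ C ∈ CC, ∀ C' ∈ CC, C ≠ C' → Disjoint C C') :
    ∑ C ∈ CC, pv n C ≤ pv n P := by
  unfold pv
  rw [← Finset.card_biUnion]
  · apply Finset.card_le_card
    intro p hp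
    rw [Finset.mem_biUnion] at hp
    obtain ⟨C, hC, hpC⟩ := hp
    rw [Finset.mem_filter] at hpC ⊢
    exact ⟨hsub C hC hpC.1, hpC.2⟩
  · intro C hC C' hC' hne
    exact (hdis C hC C' hC' hne).mono (Finset.filter_subset _ _) (Finset.filter_subset _ _)

theorem p_BAR (hBUD : S_BUD) (hCLM : S_CLM) : S_BAR := by
  intro n k L G W PS nb FS LF hk hT hS U CC hU hCC hdis
  have hB := hBUD n G W PS nb FS LF hS U hU
  -- the sum of the claim
  have h1 : 12 * CC.card ≤ ∑ C ∈ CC, (∑ x ∈ ZZ W PS nb FS LF C, ow PS nb FS LF C x + 12 * pv n C) := by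
    have : ∑ C ∈ CC, 12 ≤
        ∑ C ∈ CC, (∑ x ∈ ZZ W PS nb FS LF C, ow PS nb FS LF C x + 12 * pv n C) := by
      apply Finset.sum_le_sum
      intro C hC
      obtain ⟨hC1, _, _, hC4, hC5⟩ := hCC C hC
      refine hCLM n k L G W PS nb FS LF hk hT hS C hC1 ?_ hC5
      rw [← Finset.card_pos]
      exact hC4.pos
    rw [Finset.sum_const, smul_eq_mul] at this
    omega
  rw [Finset.sum_add_distrib, ← Finset.mul_sum] at h1
  have h2 := BAR_pv n (PW (W \ FS) (pts PS nb FS LF)) CC (fun C hC => (hCC C hC).1) hdis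
  -- the weights outside
  set g : Fin n → ℕ := fun x => ∑ p ∈ (pts PS nb FS LF x).filter (fun p => p ∈ U), wt PS FS p x
    with hg
  have h3 : ∑ C ∈ CC, ∑ x ∈ ZZ W PS nb FS LF C, ow PS nb FS LF C x ≤
      ∑ C ∈ CC, ∑ x ∈ ZZ W PS nb FS LF C, g x := by
    apply Finset.sum_le_sum
    intro C hC
    apply Finset.sum_le_sum
    intro x hx
    obtain ⟨_, _, hC3, _, _⟩ := hCC C hC
    unfold ZZ at hx
    rw [Finset.mem_filter] at hx
    obtain ⟨hxV, q, hq⟩ := hx
    rw [Finset.mem_inter] at hq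
    unfold ow
    rw [hg]
    apply Finset.sum_le_sum_of_subset
    intro p hp
    rw [Finset.mem_sdiff] at hp
    rw [Finset.mem_filter]
    refine ⟨hp.1, ?_⟩
    rcases hC3 x hxV ⟨q, hq.1, hq.2⟩ p hp.1 with h | h
    · exact absurd h hp.2
    · exact h
  have h4 : ∑ C ∈ CC, ∑ x ∈ ZZ W PS nb FS LF C, g x ≤ ∑ x ∈ W \ FS, g x := by
    rw [← Finset.sum_biUnion]
    · apply Finset.sum_le_sum_of_subset
      intro x hx
      rw [Finset.mem_biUnion] at hx
      obtain ⟨C, _, hxC⟩ := hx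
      unfold ZZ at hxC
      exact (Finset.mem_filter.1 hxC).1
    · intro C hC C' hC' hne
      rw [Function.onFun, Finset.disjoint_left]
      intro x hx hx'
      unfold ZZ at hx hx'
      rw [Finset.mem_filter] at hx hx'
      obtain ⟨hxV, q, hq⟩ := hx
      obtain ⟨_, q', hq'⟩ := hx'
      rw [Finset.mem_inter] at hq hq'
      obtain ⟨_, _, hC3, _, _⟩ := hCC C hC
      obtain ⟨_, hC2', _, _, _⟩ := hCC C' hC'
      rcases hC3 x hxV ⟨q, hq.1, hq.2⟩ q' hq'.1 with h | h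
      · exact (Finset.disjoint_left.1 (hdis C hC C' hC' hne) h) hq'.2
      · exact (Finset.disjoint_left.1 hC2' hq'.2) h
  have h5 : ∑ x ∈ W \ FS, g x =
      ∑ p ∈ U, ∑ x ∈ (W \ FS).filter (fun x => p ∈ pts PS nb FS LF x), wt PS FS p x := by
    rw [hg]
    apply Finset.sum_comm'
    intro x p
    rw [Finset.mem_filter, Finset.mem_filter]
    tauto
  rw [← h5] at hB
  omega

end Frag.S4
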