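import Pool.Agent.Work.MP_547619_s4.Defs

/-!
# MP_547619_co, THEOREM S4: block BUD
-/

set_option autoImplicit false

namespace Frag.S4

open SimpleGraph Frag.Kz

lemma BUD_inc {n : ℕ} (PS : Finset (Fin n)) (nb : Fin n → Fin 5 → Fin n)
    (FS LF A B S : Finset (Fin n)) (hB : B ⊆ A)
    (h : ∀ x ∈ B, ∃ τ ∈ trs PS nb x, lbs nb FS LF τ = S) :
    B.card ≤ inc PS nb FS LF A S := by
  unfold inc
  refine le_trans ?_ (Finset.sum_le_sum_of_subset hB)
  rw [Finset.card_eq_sum_ones]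
  refine Finset.sum_le_sum fun x hx => ?_
  obtain ⟨τ, h1, h2⟩ := h x hx
  exact Finset.card_pos.2 ⟨τ, Finset.mem_filter.2 ⟨h1, h2⟩⟩

lemma BUD_cls (hL : S_LBL) (hP : S_PTC) {n : ℕ} {G : SimpleGraph (Fin n)} {W PS : Finset (Fin n)}
    {nb : Fin n → Fin 5 → Fin n} {FS LF : Finset (Fin n)} (h : Str G W PS nb FS LF) {x : Fin n}
    {p : ℕ} (hx : x ∈ W \ FS) (hp : p ∈ pts PS nb FS LF x) :
    enc (dec n p) = p ∧
    (((dec n p).card = 3 ∧ ∃ τ ∈ trs PS nb x, lbs nb FS LF τ = dec n p) ∨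
      ((dec n p).card = 2 ∧ x ∈ dec n p) ∨ dec n p = {x}) := by
  obtain ⟨-, -, -, h4, -⟩ := hP n G W PS nb FS LF h x hx
  obtain ⟨-, -, -, l4, -⟩ := hL n G W PS nb FS LF h
  have hxW : x ∈ W := (Finset.mem_sdiff.1 hx).1
  rcases h4 p hp with ⟨τ, hτ, rfl⟩ | ⟨hxP, rfl⟩ | ⟨hxP, rfl, -⟩
  · refine ⟨by unfold lb; rw [dec_enc], Or.inl ⟨?_, τ, hτ, ?_⟩⟩
    · unfold lb; rw [dec_enc]; exact l4 x hxW τ hτ
    · unfold lb; rw [dec_enc]
  · refine ⟨by unfold ee; rw [dec_enc], Or.inr (Or.inl ⟨?_, ?_⟩)⟩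
    · unfold ee; rw [dec_enc]
      refine Finset.card_pair fun he => ?_
      have h5 := h.loc.tyM x hxW hxP
      have h6 : G.Adj x (nb x 0) := (h5.nbr _ (h5.mem 0)).2 ⟨0, rfl⟩
      exact h6.ne he
    · unfold ee; rw [dec_enc]; simp
  · refine ⟨by rw [dec_enc], Or.inr (Or.inr ?_)⟩
    rw [dec_enc]

/-- The bounds for one point. -/
lemma BUD_pt (hL : S_LBL) (hP : S_PTC) (hI : S_INC) {n : ℕ} {G : SimpleGraph (Fin n)}
    {W PS : Finset (Fin n)} {nb : Fin n → Fin 5 → Fin n} {FS LF : Finset (Fin n)}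
    (h : Str G W PS nb FS LF) (p : ℕ) :
    (¬ ((dec n p).card = 3 ∧ 1 ≤ (dec n p ∩ FS).card) →
      ∑ x ∈ (W \ FS).filter (fun x => p ∈ pts PS nb FS LF x), wt PS FS p x ≤ 12) ∧
    (((dec n p).card = 3 ∧ 1 ≤ (dec n p ∩ FS).card) →
      ∑ x ∈ (W \ FS).filter (fun x => p ∈ pts PS nb FS LF x), wt PS FS p x +
        2 * ((PS \ FS).filter (fun x => p ∈ pts PS nb FS LF x)).card ≤
        12 + 4 * zc nb FS LF (dec n p) ∧
      2 * ((PS \ FS).filter (fun x => p ∈ pts PS nb FS LF x)).card ≤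
        4 * zc nb FS LF (dec n p)) := by
  set V : Finset (Fin n) := (W \ FS).filter (fun x => p ∈ pts PS nb FS LF x) with hV
  set Y : Finset (Fin n) := (PS \ FS).filter (fun x => p ∈ pts PS nb FS LF x) with hY
  have hcls := fun x (hx : x ∈ V) => BUD_cls hL hP h (Finset.mem_filter.1 hx).1 (Finset.mem_filter.1 hx).2
  have hPW : PS ⊆ W := h.loc.sub
  have hYV : Y ⊆ V := by
    intro x hx
    obtain ⟨h1, h2⟩ := Finset.mem_filter.1 hx
    obtain ⟨h3, h4⟩ := Finset.mem_sdiff.1 h1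
    exact Finset.mem_filter.2 ⟨Finset.mem_sdiff.2 ⟨hPW h3, h4⟩, h2⟩
  rcases V.eq_empty_or_nonempty with hVe | ⟨x₀, hx₀⟩
  · have hYe : Y = ∅ := Finset.subset_empty.1 (hVe ▸ hYV)
    rw [hVe, hYe]
    simp
  -- the trichotomy
  by_cases h1 : (dec n p).card = 1
  · refine ⟨fun _ => ?_, fun h3 => by omega⟩
    have hc : V.card ≤ 1 := by
      refine Finset.card_le_one.2 fun x hx y hy => ?_
      have e : ∀ z ∈ V, dec n p = {z} := by
        intro z hz
        rcases (hcls z hz).2 with ⟨h2, -⟩ | ⟨h2, -⟩ | h2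
        · omega
        · omega
        · exact h2
      have := (e x hx).symm.trans (e y hy)
      exact Finset.singleton_injective this
    calc ∑ x ∈ V, wt PS FS p x ≤ ∑ x ∈ V, 12 := by
          refine Finset.sum_le_sum fun x _ => ?_
          unfold wt; rw [if_pos h1]
      _ = V.card * 12 := by rw [Finset.sum_const, smul_eq_mul]
      _ ≤ 12 := by omega
  by_cases h2 : (dec n p).card = 2
  · refine ⟨fun _ => ?_, fun h3 => by omega⟩
    have hc : V ⊆ dec n p := by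
      intro x hx
      rcases (hcls x hx).2 with ⟨h3, -⟩ | ⟨-, h3⟩ | h3
      · omega
      · exact h3
      · rw [h3]; simp
    have hc' := Finset.card_le_card hc
    calc ∑ x ∈ V, wt PS FS p x ≤ ∑ x ∈ V, 6 := by
          refine Finset.sum_le_sum fun x _ => ?_
          unfold wt; rw [if_neg h1, if_pos h2]
      _ = V.card * 6 := by rw [Finset.sum_const, smul_eq_mul]
      _ ≤ 12 := by omega
  have hτ : ∀ x ∈ V, (dec n p).card = 3 ∧ ∃ τ ∈ trs PS nb x, lbs nb FS LF τ = dec n p := by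
    intro x hx
    rcases (hcls x hx).2 with h3 | ⟨h3, -⟩ | h3
    · exact h3
    · exact absurd h3 h2
    · exact absurd (by rw [h3]; simp) h1
  have h3 : (dec n p).card = 3 := (hτ x₀ hx₀).1
  obtain ⟨i1, i2, -, i4⟩ := hI n G W PS nb FS LF h (dec n p) h3
  have c1 : V.card ≤ 3 * (dec n p ∩ FS).card + 3 :=
    (BUD_inc PS nb FS LF (W \ FS) V (dec n p) (Finset.filter_subset _ _)
      fun x hx => (hτ x hx).2).trans i1
  have c2 : Y.card ≤ (dec n p ∩ FS).card + 3 :=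
    (BUD_inc PS nb FS LF (PS \ FS) Y (dec n p) (Finset.filter_subset _ _)
      fun x hx => (hτ x (hYV hx)).2).trans i2
  have c3 : (dec n p ∩ FS).card ≤ 3 := by
    rw [← h3]; exact Finset.card_le_card Finset.inter_subset_left
  have c4 : 2 * (dec n p ∩ FS).card ≤ zc nb FS LF (dec n p) := by
    obtain ⟨τ, hτ1, hτ2⟩ := (hτ x₀ hx₀).2
    exact i4 ⟨x₀, (Finset.mem_sdiff.1 (Finset.mem_filter.1 hx₀).1).1, τ, hτ1, hτ2⟩
  constructor
  · intro hn
    have hk : (dec n p ∩ FS).card = 0 := by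
      by_contra hk
      exact hn ⟨h3, by omega⟩
    have hno : ¬ ∃ u ∈ dec n p, u ∈ FS := by
      rintro ⟨u, hu1, hu2⟩
      have : u ∈ dec n p ∩ FS := Finset.mem_inter.2 ⟨hu1, hu2⟩
      rw [Finset.card_eq_zero.1 hk] at this
      simp at this
    calc ∑ x ∈ V, wt PS FS p x ≤ ∑ x ∈ V, 4 := by
          refine Finset.sum_le_sum fun x _ => ?_
          unfold wt; rw [if_neg h1, if_neg h2, if_neg hno]
      _ = V.card * 4 := by rw [Finset.sum_const, smul_eq_mul]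
      _ ≤ 12 := by omega
  · rintro ⟨-, hk⟩
    have hyes : ∃ u ∈ dec n p, u ∈ FS := by
      obtain ⟨u, hu⟩ := Finset.card_pos.1 (lt_of_lt_of_le one_pos hk)
      exact ⟨u, (Finset.mem_inter.1 hu).1, (Finset.mem_inter.1 hu).2⟩
    have hYeq : Y = V.filter (fun x => x ∈ PS) := by
      ext x
      simp only [hY, hV, Finset.mem_filter, Finset.mem_sdiff]
      constructor
      · rintro ⟨⟨h5, h6⟩, h7⟩
        exact ⟨⟨⟨hPW h5, h6⟩, h7⟩, h5⟩
      · rintro ⟨⟨⟨_, h6⟩, h7⟩, h5⟩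
        exact ⟨⟨h5, h6⟩, h7⟩
    have hs : ∑ x ∈ V, wt PS FS p x + 2 * Y.card = V.card * 3 := by
      have e1 : 2 * Y.card = ∑ x ∈ V, (if x ∈ PS then 2 else 0) := by
        rw [hYeq, Finset.card_filter, Finset.mul_sum]
        refine Finset.sum_congr rfl fun x _ => ?_
        split_ifs <;> rfl
      rw [e1, ← Finset.sum_add_distrib, ← smul_eq_mul, ← Finset.sum_const]
      refine Finset.sum_congr rfl fun x _ => ?_
      unfold wt
      rw [if_neg h1, if_neg h2, if_pos hyes]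
      split_ifs <;> rfl
    constructor
    · rw [hs]; omega
    · omega

theorem p_BUD (hL : S_LBL) (hP : S_PTC) (hI : S_INC) : S_BUD := by
  classical
  intro n G W PS nb FS LF h U hU
  set P : Finset ℕ := PW (W \ FS) (pts PS nb FS LF) with hPdef
  set Q : Finset ℕ := P.filter (fun p => (dec n p).card = 3 ∧ 1 ≤ (dec n p ∩ FS).card) with hQ
  set ws : ℕ → ℕ := fun p =>
    ∑ x ∈ (W \ FS).filter (fun x => p ∈ pts PS nb FS LF x), wt PS FS p x with hws
  set yy : ℕ → Finset (Fin n) := fun p => (PS \ FS).filter (fun x => p ∈ pts PS nb FS LF x) with hyy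
  set a : ℕ → ℕ := fun p => if p ∈ Q then 2 * (yy p).card else 0 with ha
  set z : ℕ → ℕ := fun p => if p ∈ Q then 4 * zc nb FS LF (dec n p) else 0 with hz
  have hPmem : ∀ p ∈ P, enc (dec n p) = p := by
    intro p hp
    obtain ⟨x, hx, hpx⟩ := Finset.mem_biUnion.1 hp
    exact (BUD_cls hL hP h hx hpx).1
  have k1 : ∀ p ∈ P, ws p + a p ≤ 12 + z p := by
    intro p hp
    obtain ⟨b1, b2⟩ := BUD_pt hL hP hI h p
    by_cases hq : (dec n p).card = 3 ∧ 1 ≤ (dec n p ∩ FS).card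
    · have hpQ : p ∈ Q := Finset.mem_filter.2 ⟨hp, hq⟩
      simp only [ha, hz, if_pos hpQ]
      exact (b2 hq).1
    · have hpQ : p ∉ Q := fun h' => hq (Finset.mem_filter.1 h').2
      simp only [ha, hz, if_neg hpQ]
      exact (b1 hq)
  have k2 : ∀ p ∈ P, a p ≤ z p := by
    intro p hp
    obtain ⟨b1, b2⟩ := BUD_pt hL hP hI h p
    by_cases hq : (dec n p).card = 3 ∧ 1 ≤ (dec n p ∩ FS).card
    · have hpQ : p ∈ Q := Finset.mem_filter.2 ⟨hp, hq⟩
      simp only [ha, hz, if_pos hpQ]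
      exact (b2 hq).2
    · have hpQ : p ∉ Q := fun h' => hq (Finset.mem_filter.1 h').2
      simp only [ha, hz, if_neg hpQ]
      exact le_rfl
  have k3 : ∑ p ∈ U, ws p + ∑ p ∈ P, a p ≤ 12 * U.card + ∑ p ∈ P, z p := by
    rw [← Finset.sum_sdiff hU, ← Finset.sum_sdiff hU (f := z)]
    have e1 : ∑ p ∈ U, ws p + ∑ p ∈ U, a p ≤ 12 * U.card + ∑ p ∈ U, z p := by
      rw [← Finset.sum_add_distrib]
      calc ∑ p ∈ U, (ws p + a p) ≤ ∑ p ∈ U, (12 + z p) :=
            Finset.sum_le_sum fun p hp => k1 p (hU hp)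
        _ = 12 * U.card + ∑ p ∈ U, z p := by
            rw [Finset.sum_add_distrib, Finset.sum_const, smul_eq_mul, mul_comm]
    have e2 : ∑ p ∈ P \ U, a p ≤ ∑ p ∈ P \ U, z p :=
      Finset.sum_le_sum fun p hp => k2 p (Finset.mem_sdiff.1 hp).1
    omega
  have k4 : 2 * (PS \ FS).card ≤ ∑ p ∈ P, a p := by
    have e1 : ∑ p ∈ P, a p = ∑ p ∈ Q, 2 * (yy p).card := by
      rw [hQ, Finset.sum_filter]
      refine Finset.sum_congr rfl fun p hp => ?_
      simp only [ha, hQ, Finset.mem_filter, hp, true_and]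
    rw [e1, ← Finset.mul_sum]
    refine Nat.mul_le_mul_left 2 ?_
    refine le_trans (Finset.card_le_card ?_) Finset.card_biUnion_le
    intro x hx
    obtain ⟨hxP, hxF⟩ := Finset.mem_sdiff.1 hx
    have hxW : x ∈ W \ FS := Finset.mem_sdiff.2 ⟨h.loc.sub hxP, hxF⟩
    obtain ⟨-, p2, -, -, p5⟩ := hP n G W PS nb FS LF h x hxW
    obtain ⟨-, -, -, -, u, -, hu, hlb⟩ := p5 hxP
    have hct : ct nb x ∈ trs PS nb x := by
      unfold trs; rw [if_pos hxP]; simp
    have hp : lb nb FS LF (ct nb x) ∈ pts PS nb FS LF x := p2 _ hct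
    obtain ⟨-, -, l3, l4, -⟩ := hL n G W PS nb FS LF h
    have hd : dec n (lb nb FS LF (ct nb x)) = lbs nb FS LF (ct nb x) := by
      unfold lb; rw [dec_enc]
    refine Finset.mem_biUnion.2 ⟨lb nb FS LF (ct nb x), ?_, ?_⟩
    · refine Finset.mem_filter.2 ⟨Finset.mem_biUnion.2 ⟨x, hxW, hp⟩, ?_, ?_⟩
      · rw [hd]; exact l4 x (Finset.mem_sdiff.1 hxW).1 _ hct
      · rw [hd, hlb]
        obtain ⟨w, hw, -, hzs, -⟩ := l3 u hu
        rw [hzs]
        refine Finset.card_pos.2 ⟨w, Finset.mem_inter.2 ⟨?_, hw⟩⟩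
        unfold ct; simp
    · exact Finset.mem_filter.2 ⟨hx, hp⟩
  have k5 : ∑ p ∈ P, z p ≤ 4 * FS.card := by
    have e1 : ∑ p ∈ P, z p = ∑ p ∈ Q, 4 * zc nb FS LF (dec n p) := by
      rw [hQ, Finset.sum_filter]
      refine Finset.sum_congr rfl fun p hp => ?_
      simp only [hz, hQ, Finset.mem_filter, hp, true_and]
    rw [e1, ← Finset.mul_sum]
    refine Nat.mul_le_mul_left 4 ?_
    have e2 : ∑ p ∈ Q, zc nb FS LF (dec n p) =
        (Q.biUnion (fun p => FS.filter (fun u => zs nb LF u = dec n p))).card := by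
      rw [Finset.card_biUnion]
      · rfl
      · intro p hp q hq hpq
        refine Finset.disjoint_left.2 ?_
        intro u hu hu'
        have h1 := (Finset.mem_filter.1 hu).2
        have h2 := (Finset.mem_filter.1 hu').2
        apply hpq
        rw [← hPmem p (Finset.mem_filter.1 hp).1, ← hPmem q (Finset.mem_filter.1 hq).1, ← h1, h2]
    rw [e2]
    refine Finset.card_le_card ?_
    intro u hu
    obtain ⟨p, -, hp⟩ := Finset.mem_biUnion.1 hu
    exact (Finset.mem_filter.1 hp).1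
  show ∑ p ∈ U, ws p + 2 * (PS \ FS).card ≤ 12 * U.card + 4 * FS.card
  omega

end Frag.S4
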