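import Pool.Agent.Work.MP_547619_s4.Defs

set_option autoImplicit false

namespace Frag.S4

open SimpleGraph Frag.Kz

lemma CLM_card {n : ℕ} (W PS : Finset (Fin n)) (nb : Fin n → Fin 5 → Fin n)
    (FS LF : Finset (Fin n)) (C : Finset ℕ) :
    (TT W PS nb FS LF C).card = (T0 W PS nb FS LF C).card + (T1 nb FS LF C).card := by
  rw [TT]
  apply Finset.card_union_of_disjoint
  rw [Finset.disjoint_left]
  intro x hx hx1
  rw [T0, Finset.mem_filter, Finset.mem_sdiff] at hx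
  rw [T1, Finset.mem_filter] at hx1
  exact hx.1.2 hx1.1

theorem p_CLM (hST4 : S_ST4) (hSZE : S_SZE) (hNBT : S_NBT) (hAL2 : S_AL2) (hWGT : S_WGT)
    (hPRT : S_PRT) (hEMP : S_EMP) (hARI : S_ARI) (hTE4 : S_TE4) (hTER : S_TER) (hAVG : S_AVG) :
    S_CLM := by
  intro n k L G W PS nb FS LF hk hTrm hStr C hC hCne hCL
  by_contra hlt
  have hpv : pv n C = 0 := by omega
  have hsum : ∑ x ∈ ZZ W PS nb FS LF C, ow PS nb FS LF C x + 12 * pv n C ≤ 11 := by omega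
  have hdeg : ∀ v ∈ W, dg G W v = 5 := hST4 n k G W (by omega) hTrm
  have hTne : (TT W PS nb FS LF C).Nonempty := by
    by_contra h
    rw [Finset.not_nonempty_iff_eq_empty] at h
    exact hlt (hEMP n G W PS nb FS LF hStr C hC hCne h)
  have hTc := (hSZE n G W PS nb FS LF hStr).2.2 C
  obtain ⟨_, _, n3, n4, n5, n6⟩ := hNBT n G W PS nb FS LF hStr C
  have hal := hAL2 n G W PS nb FS LF hStr C hpv
  obtain ⟨w1, w2, w3, w4⟩ := hWGT n G W PS nb FS LF hStr C hsum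
  obtain ⟨q1, q2, q3, q4⟩ := hPRT n G W PS nb FS LF hStr C
  have hcard := CLM_card W PS nb FS LF C
  obtain ⟨T, hT⟩ : ∃ T, T = TT W PS nb FS LF C := ⟨_, rfl⟩
  obtain ⟨X, hX⟩ : ∃ X, X = XX W PS nb FS LF C := ⟨_, rfl⟩
  rw [← hT] at hTne hTc n3 n4 n6 hal w4 hcard
  rw [← hX] at n3 n5 n6 hal w2 w4
  have hTk : T.card + 5 ≤ k := by omega
  have h5 : 5 ≤ X.card := hTE4 n k G W T X hTrm hdeg n4 n5 n6 hTne hTk n3
  obtain ⟨R, hR, hRc, hRs⟩ := hAVG n X (fun x => dg G (W \ (T ∪ X)) x) h5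
  have hter := hTER n k G W T X R hTrm hdeg n4 n5 n6 hTne hTk n3 hal hR hRc
  obtain ⟨s, hs⟩ : ∃ s, s = ∑ x ∈ X, dg G (W \ (T ∪ X)) x := ⟨_, rfl⟩
  obtain ⟨r, hr⟩ : ∃ r, r = ∑ x ∈ R, dg G (W \ (T ∪ X)) x := ⟨_, rfl⟩
  have hRs' : X.card * r ≤ 5 * s := by rw [hr, hs]; exact hRs
  rw [← hs] at hter w4
  rw [← hr] at hter
  have hTpos : 1 ≤ T.card := Finset.card_pos.2 hTne
  refine hARI (mc W PS nb FS LF C 1 1) (mc W PS nb FS LF C 1 0) (mc W PS nb FS LF C 0 2)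
    (mc W PS nb FS LF C 0 1) (pc PS nb FS LF C 2 0) (pc PS nb FS LF C 1 1)
    (pc PS nb FS LF C 1 0) (pc PS nb FS LF C 0 1) (mc W PS nb FS LF C 1 2)
    (pc PS nb FS LF C 2 1) (T1 nb FS LF C).card s X.card w2 h5 w3 w4 q1 q2 q3 q4 (by omega) ?_
  have e : mc W PS nb FS LF C 1 2 + pc PS nb FS LF C 2 1 + (T1 nb FS LF C).card = T.card := by
    omega
  rw [e]
  have hXpos : 0 < X.card := by omega
  have h6 : X.card * (5 * T.card + s + 40) < X.card * (7 * X.card + 2 * r) :=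
    Nat.mul_lt_mul_of_pos_left hter hXpos
  nlinarith [h6, hRs']

end Frag.S4
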