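import Pool.Agent.Work.MP_547619_s4.Defs

/-!
# MP_547619_co, THEOREM S4: block CNT
-/

set_option autoImplicit false

namespace Frag.S4

open SimpleGraph Frag.Kz

section CNT

variable {n : ℕ} {G : SimpleGraph (Fin n)} {W PS : Finset (Fin n)}
  {nb : Fin n → Fin 5 → Fin n} {FS LF : Finset (Fin n)}

lemma CNT_ne (hL : Loc G W PS nb) {x : Fin n} (hx : x ∈ W) (hxP : x ∉ PS) : x ≠ nb x 0 := by
  have ht := hL.tyM x hx hxP
  have ha : G.Adj x (nb x 0) := (ht.nbr _ (ht.mem 0)).2 ⟨0, rfl⟩
  exact ha.ne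

lemma CNT_A2 (hS : Str G W PS nb FS LF) (hp : ∀ x ∈ W \ PS, ee nb x ∈ pts PS nb FS LF x) :
    (W \ PS).card ≤ 2 * ((PW (W \ FS) (pts PS nb FS LF)).filter
      (fun p => (dec n p).card = 2)).card := by
  classical
  have h1 : (W \ PS).card ≤ 2 * ((W \ PS).image (ee nb)).card := by
    apply Finset.card_le_mul_card_image
    intro b hb
    obtain ⟨x, hx, rfl⟩ := Finset.mem_image.1 hb
    have hsub : (W \ PS).filter (fun y => ee nb y = ee nb x) ⊆ {x, nb x 0} := by
      intro y hy
      rw [Finset.mem_filter] at hy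
      have he := enc_inj hy.2
      rw [← he]
      exact Finset.mem_insert_self _ _
    exact (Finset.card_le_card hsub).trans Finset.card_le_two
  have h2 : (W \ PS).image (ee nb) ⊆ (PW (W \ FS) (pts PS nb FS LF)).filter
      (fun p => (dec n p).card = 2) := by
    intro p hpp
    obtain ⟨x, hx, rfl⟩ := Finset.mem_image.1 hpp
    have hx' := Finset.mem_sdiff.1 hx
    rw [Finset.mem_filter]
    refine ⟨Finset.mem_biUnion.2 ⟨x, Finset.mem_sdiff.2 ⟨hx'.1, fun h => hx'.2 (hS.cov.sub h)⟩,
      hp x hx⟩, ?_⟩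
    unfold ee
    rw [dec_enc]
    exact Finset.card_pair (CNT_ne hS.loc hx'.1 hx'.2)
  have h3 := Finset.card_le_card h2
  omega

lemma CNT_split (P : Finset ℕ) :
    (P.filter (fun p => (dec n p).card = 1)).card + (P.filter (fun p => (dec n p).card = 2)).card +
      (P.filter (fun p => (dec n p).card = 3)).card ≤ P.card := by
  classical
  have d1 : Disjoint (P.filter (fun p => (dec n p).card = 1))
      (P.filter (fun p => (dec n p).card = 2)) := by
    rw [Finset.disjoint_left]
    intro p h1 h2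
    have a := (Finset.mem_filter.1 h1).2
    have b := (Finset.mem_filter.1 h2).2
    omega
  have d2 : Disjoint (P.filter (fun p => (dec n p).card = 1) ∪
      P.filter (fun p => (dec n p).card = 2)) (P.filter (fun p => (dec n p).card = 3)) := by
    rw [Finset.disjoint_left]
    intro p h1 h2
    have b := (Finset.mem_filter.1 h2).2
    rcases Finset.mem_union.1 h1 with h | h
    · have a := (Finset.mem_filter.1 h).2
      omega
    · have a := (Finset.mem_filter.1 h).2
      omega
  rw [← Finset.card_union_of_disjoint d1, ← Finset.card_union_of_disjoint d2]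
  apply Finset.card_le_card
  intro p hp
  rcases Finset.mem_union.1 hp with h | h
  · rcases Finset.mem_union.1 h with h | h
    · exact (Finset.mem_filter.1 h).1
    · exact (Finset.mem_filter.1 h).1
  · exact (Finset.mem_filter.1 h).1

lemma CNT_trs (hS : Str G W PS nb FS LF) :
    ∑ x ∈ W \ FS, (trs PS nb x).card = 2 * (W \ PS).card + 3 * (PS \ FS).card := by
  classical
  have hV : W \ FS = (W \ PS) ∪ (PS \ FS) := by
    ext x
    simp only [Finset.mem_sdiff, Finset.mem_union]
    constructor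
    · rintro ⟨h1, h2⟩
      by_cases h : x ∈ PS
      · exact Or.inr ⟨h, h2⟩
      · exact Or.inl ⟨h1, h⟩
    · rintro (⟨h1, h2⟩ | ⟨h1, h2⟩)
      · exact ⟨h1, fun h => h2 (hS.cov.sub h)⟩
      · exact ⟨hS.loc.sub h1, h2⟩
  have hd : Disjoint (W \ PS) (PS \ FS) := by
    rw [Finset.disjoint_left]
    intro x h1 h2
    exact (Finset.mem_sdiff.1 h1).2 (Finset.mem_sdiff.1 h2).1
  rw [hV, Finset.sum_union hd]
  have h1 : ∑ x ∈ W \ PS, (trs PS nb x).card = ∑ x ∈ W \ PS, 2 := by
    apply Finset.sum_congr rfl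
    intro x hx
    have hx' := Finset.mem_sdiff.1 hx
    unfold trs
    rw [if_neg hx'.2]
    exact Finset.card_pair (hS.tri.neM x hx'.1 hx'.2)
  have h2 : ∑ x ∈ PS \ FS, (trs PS nb x).card = ∑ x ∈ PS \ FS, 3 := by
    apply Finset.sum_congr rfl
    intro x hx
    have hx' := Finset.mem_sdiff.1 hx
    have hne := hS.tri.neP x hx'.1
    unfold trs
    rw [if_pos hx'.1]
    exact Finset.card_eq_three.2 ⟨_, _, _, hne.1, hne.2.1, hne.2.2, rfl⟩
  rw [h1, h2, Finset.sum_const, Finset.sum_const, smul_eq_mul, smul_eq_mul]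
  ring

end CNT

theorem p_CNT (h1 : S_LBL) (h2 : S_PTC) (h3 : S_INC) : S_CNT := by
  classical
  intro n G W PS nb FS LF hS
  have hl := h1 n G W PS nb FS LF hS
  have hp := h2 n G W PS nb FS LF hS
  have hi := h3 n G W PS nb FS LF hS
  set P := PW (W \ FS) (pts PS nb FS LF) with hP
  set A := P.filter (fun p => (dec n p).card = 3) with hA
  have c2 : (W \ PS).card ≤ 2 * (P.filter (fun p => (dec n p).card = 2)).card := by
    apply CNT_A2 hS
    intro x hx
    have hx' := Finset.mem_sdiff.1 hx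
    exact (hp x (Finset.mem_sdiff.2 ⟨hx'.1, fun h => hx'.2 (hS.cov.sub h)⟩)).2.2.1 hx'.2
  have cs := CNT_split (n := n) P
  have ct' := CNT_trs hS
  -- the points of `A`
  have hAl : ∀ p ∈ A, ∃ v ∈ W, ∃ τ ∈ trs PS nb v, p = lb nb FS LF τ := by
    intro p hpA
    have hpA' := Finset.mem_filter.1 hpA
    obtain ⟨x, hx, hpx⟩ := Finset.mem_biUnion.1 hpA'.1
    have hx' := Finset.mem_sdiff.1 hx
    rcases (hp x hx).2.2.2.1 p hpx with ⟨τ, hτ, h⟩ | ⟨hxP, h⟩ | ⟨hxP, h, _⟩
    · exact ⟨x, hx'.1, τ, hτ, h⟩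
    · exfalso
      have h4 := hpA'.2
      rw [h] at h4
      unfold ee at h4
      rw [dec_enc] at h4
      have h5 : ({x, nb x 0} : Finset (Fin n)).card ≤ 2 := Finset.card_le_two
      omega
    · exfalso
      have h4 := hpA'.2
      rw [h, dec_enc, Finset.card_singleton] at h4
      omega
  have hAe : ∀ p ∈ A, enc (dec n p) = p := by
    intro p hpA
    obtain ⟨v, _, τ, _, rfl⟩ := hAl p hpA
    unfold lb
    rw [dec_enc]
  -- the sum over the vertices
  have hsum : ∑ x ∈ W \ FS, (trs PS nb x).card ≤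
      ∑ p ∈ A, inc PS nb FS LF (W \ FS) (dec n p) := by
    have h4 : ∀ x ∈ W \ FS, (trs PS nb x).card ≤
        ∑ p ∈ A, ((trs PS nb x).filter (fun τ => lbs nb FS LF τ = dec n p)).card := by
      intro x hx
      have hx' := Finset.mem_sdiff.1 hx
      have hm : ∀ τ ∈ trs PS nb x, lb nb FS LF τ ∈ A := by
        intro τ hτ
        refine Finset.mem_filter.2 ⟨Finset.mem_biUnion.2 ⟨x, hx, (hp x hx).2.1 τ hτ⟩, ?_⟩
        unfold lb
        rw [dec_enc]
        exact hl.2.2.2.1 x hx'.1 τ hτ
      rw [Finset.card_eq_sum_card_fiberwise (f := lb nb FS LF) (t := A) hm]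
      apply Finset.sum_le_sum
      intro p _
      apply Finset.card_le_card
      intro τ hτ
      rw [Finset.mem_filter] at hτ ⊢
      refine ⟨hτ.1, ?_⟩
      rw [← hτ.2]
      unfold lb
      rw [dec_enc]
    refine (Finset.sum_le_sum h4).trans ?_
    rw [Finset.sum_comm]
    apply Finset.sum_le_sum
    intro p _
    unfold inc
    apply Finset.sum_le_sum
    intro x _
    apply Finset.card_le_card
    intro τ hτ
    rw [Finset.mem_filter] at hτ ⊢
    exact hτ
  have hz : ∑ p ∈ A, zc nb FS LF (dec n p) ≤ FS.card := by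
    have h4 : ∀ p ∈ A, zc nb FS LF (dec n p) =
        ((FS.filter (fun u => enc (zs nb LF u) ∈ A)).filter
          (fun u => enc (zs nb LF u) = p)).card := by
      intro p hpA
      unfold zc
      apply congrArg
      ext u
      simp only [Finset.mem_filter]
      constructor
      · rintro ⟨hu, he⟩
        have h5 : enc (zs nb LF u) = p := by rw [he, hAe p hpA]
        exact ⟨⟨hu, by rw [h5]; exact hpA⟩, h5⟩
      · rintro ⟨⟨hu, _⟩, he⟩
        exact ⟨hu, by rw [← he, dec_enc]⟩
    rw [Finset.sum_congr rfl h4]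
    have h5 : (FS.filter (fun u => enc (zs nb LF u) ∈ A)).card =
        ∑ p ∈ A, ((FS.filter (fun u => enc (zs nb LF u) ∈ A)).filter
          (fun u => enc (zs nb LF u) = p)).card :=
      Finset.card_eq_sum_card_fiberwise (fun u hu => (Finset.mem_filter.1 hu).2)
    exact (le_of_eq h5.symm).trans (Finset.card_filter_le _ _)
  have hterm : ∀ p ∈ A, 2 * inc PS nb FS LF (W \ FS) (dec n p) ≤
      3 * zc nb FS LF (dec n p) + 6 := by
    intro p hpA
    have hi' := hi (dec n p) (Finset.mem_filter.1 hpA).2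
    obtain ⟨v, hv, τ, hτ, he⟩ := hAl p hpA
    have h4 : lbs nb FS LF τ = dec n p := by
      rw [he]
      unfold lb
      rw [dec_enc]
    have h5 := hi'.2.2.2 ⟨v, hv, τ, hτ, h4⟩
    have h6 := hi'.1
    omega
  have hfin : 2 * ∑ p ∈ A, inc PS nb FS LF (W \ FS) (dec n p) ≤ 3 * FS.card + 6 * A.card := by
    rw [Finset.mul_sum]
    refine (Finset.sum_le_sum hterm).trans ?_
    rw [Finset.sum_add_distrib, ← Finset.mul_sum, Finset.sum_const, smul_eq_mul]
    have := hz
    omega
  unfold pv
  rw [← hA] at cs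
  omega

end Frag.S4
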