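import Pool.Agent.Work.MP_547619_s4.Defs

/-!
# MP_547619_co, THEOREM S4: block CVR, the star cover
-/

set_option autoImplicit false

namespace Frag.S4

open SimpleGraph Frag.Kz

theorem p_CVR : S_CVR := by
  intro n G W PS nb hL hT
  classical
  have hne : ∀ v ∈ PS, nb v 0 ≠ v := by
    intro v hv h
    have t := hL.tyP v hv
    have h1 : G.Adj v (nb v 0) := (t.nbr _ (t.mem 0)).2 ⟨0, rfl⟩
    rw [h] at h1
    exact G.irrefl h1
  have hself : ∀ v, v ∈ ct nb v := fun v => by simp [ct]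
  obtain ⟨FS, hFS, hmin⟩ : ∃ FS : Finset (Fin n),
      (FS ⊆ PS ∧ (∀ v ∈ FS, nb v 0 ∈ FS) ∧ (∀ v ∈ PS, ∃ u ∈ ct nb v, u ∈ FS)) ∧
      ∀ FS' : Finset (Fin n), (FS' ⊆ PS ∧ (∀ v ∈ FS', nb v 0 ∈ FS') ∧
        (∀ v ∈ PS, ∃ u ∈ ct nb v, u ∈ FS')) → FS.card ≤ FS'.card := by
    have hN : ((Finset.univ : Finset (Finset (Fin n))).filter (fun FS =>
        FS ⊆ PS ∧ (∀ v ∈ FS, nb v 0 ∈ FS) ∧ (∀ v ∈ PS, ∃ u ∈ ct nb v, u ∈ FS))).Nonempty :=
      ⟨PS, by
        simp only [Finset.mem_filter, Finset.mem_univ, true_and]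
        exact ⟨subset_rfl, fun v hv => (hL.mate v hv).1, fun v hv => ⟨v, hself v, hv⟩⟩⟩
    obtain ⟨FS, h1, h2⟩ := Finset.exists_min_image _ Finset.card hN
    refine ⟨FS, (Finset.mem_filter.1 h1).2, fun FS' h => h2 FS' ?_⟩
    exact Finset.mem_filter.2 ⟨Finset.mem_univ _, h⟩
  obtain ⟨hs, hm, hc⟩ := hFS
  have key : ∀ v ∈ FS, (∀ u ∈ ct nb v, u ∈ FS → u = v) ∨
      (∀ u ∈ ct nb (nb v 0), u ∈ FS → u = nb v 0) := by
    intro v hv
    have hvP := hs hv
    obtain ⟨m1, m2, -, -⟩ := hL.mate v hvP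
    have hnot : ¬ (∀ w ∈ PS, ∃ u ∈ ct nb w, u ∈ (FS.erase v).erase (nb v 0)) := by
      intro hc'
      have h1 := hmin ((FS.erase v).erase (nb v 0)) ⟨?_, ?_, hc'⟩
      · have h2 : ((FS.erase v).erase (nb v 0)).card < FS.card :=
          lt_of_le_of_lt (Finset.card_le_card (Finset.erase_subset _ _))
            (Finset.card_erase_lt_of_mem hv)
        omega
      · exact (Finset.erase_subset _ _).trans ((Finset.erase_subset _ _).trans hs)
      · intro x hx
        simp only [Finset.mem_erase] at hx ⊢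
        obtain ⟨x1, x2, x3⟩ := hx
        obtain ⟨-, q2, -, -⟩ := hL.mate x (hs x3)
        refine ⟨?_, ?_, hm x x3⟩
        · intro h
          apply x2
          rw [← q2, h, m2]
        · intro h
          apply x1
          rw [← q2, h]
    push Not at hnot
    obtain ⟨w, hw, hw2⟩ := hnot
    obtain ⟨v', hv'1, hv'2⟩ := hc w hw
    have hall : ∀ u ∈ ct nb w, u ∈ FS → u = v ∨ u = nb v 0 := by
      intro u hu huF
      by_contra hcon
      push Not at hcon
      exact hw2 u hu (Finset.mem_erase.2 ⟨hcon.2, Finset.mem_erase.2 ⟨hcon.1, huF⟩⟩)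
    have hv'P := hs hv'2
    have e := hT.ctc w hw v' hv'1 hv'P
    have hnct := hT.nct v' hv'P
    rcases hall v' hv'1 hv'2 with h | h
    · left
      intro u hu huF
      rw [← h, e] at hu
      rcases hall u hu huF with h3 | h3
      · exact h3
      · exfalso
        apply hnct
        rw [e, h, ← h3]
        exact hu
    · right
      intro u hu huF
      rw [← h, e] at hu
      rcases hall u hu huF with h3 | h3
      · exfalso
        apply hnct
        rw [e, h, m2, ← h3]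
        exact hu
      · exact h3
  refine ⟨FS, FS.filter (fun v => (∀ u ∈ ct nb v, u ∈ FS → u = v) ∧
    (¬ (∀ u ∈ ct nb (nb v 0), u ∈ FS → u = nb v 0) ∨ v < nb v 0)), ?_⟩
  refine ⟨hs, Finset.filter_subset _ _, hm, hc, ?_, ?_⟩
  · intro v hv
    exact (Finset.mem_filter.1 hv).2.1
  · intro v hv
    have hvP := hs hv
    obtain ⟨m1, m2, -, -⟩ := hL.mate v hvP
    have hmv := hm v hv
    have k := key v hv
    have hne' := hne v hvP
    rw [Finset.mem_filter, Finset.mem_filter, m2]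
    generalize hA : (∀ u ∈ ct nb v, u ∈ FS → u = v) = A at k ⊢
    generalize hB : (∀ u ∈ ct nb (nb v 0), u ∈ FS → u = nb v 0) = B at k ⊢
    have tri : v < nb v 0 ∨ nb v 0 < v := by
      rcases lt_trichotomy v (nb v 0) with h | h | h
      · exact Or.inl h
      · exact absurd h.symm hne'
      · exact Or.inr h
    have as : ¬ (v < nb v 0 ∧ nb v 0 < v) := fun h => lt_asymm h.1 h.2
    tauto

end Frag.S4
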