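import Pool.Agent.Work.MP_547619_s4.Defs

/-!
# MP_547619_co, THEOREM S4, block EDR: the number of edges after completing `R`
-/

set_option autoImplicit false

namespace Frag.S4

open SimpleGraph Frag.Kz

lemma EDR_one {n : ℕ} (G : SimpleGraph (Fin n)) (W R : Finset (Fin n)) (hR : R ⊆ W) (v : Fin n) :
    dg (cl G R) W v + (if v ∈ R then dg G R v else 0) =
      dg G W v + (if v ∈ R then R.card - 1 else 0) := by
  classical
  by_cases hv : v ∈ R
  · simp only [hv, if_true]
    have h1 : nh (cl G R) W v = nh G W v ∪ R.erase v := by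
      ext u
      simp only [mem_nh, Finset.mem_union, Finset.mem_erase, cl]
      constructor
      · rintro ⟨hu, h | ⟨h1, h2, h3⟩⟩
        · exact Or.inl ⟨hu, h⟩
        · exact Or.inr ⟨fun h => h1 h.symm, h3⟩
      · rintro (⟨hu, h⟩ | ⟨h1, h2⟩)
        · exact ⟨hu, Or.inl h⟩
        · exact ⟨hR h2, Or.inr ⟨fun h => h1 h.symm, hv, h2⟩⟩
    have h2 : nh G R v = nh G W v ∩ R.erase v := by
      ext u
      simp only [mem_nh, Finset.mem_inter, Finset.mem_erase]
      constructor
      · rintro ⟨hu, h⟩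
        exact ⟨⟨hR hu, h⟩, fun h' => G.irrefl (h' ▸ h), hu⟩
      · rintro ⟨⟨_, h⟩, _, hu⟩
        exact ⟨hu, h⟩
    have h3 := Finset.card_union_add_card_inter (nh G W v) (R.erase v)
    rw [← h1, ← h2, Finset.card_erase_of_mem hv, card_nh, card_nh, card_nh] at h3
    exact h3
  · simp only [hv, if_false, add_zero]
    have h1 : nh (cl G R) W v = nh G W v := by
      ext u
      simp only [mem_nh, cl]
      constructor
      · rintro ⟨hu, h | ⟨_, h2, _⟩⟩
        · exact ⟨hu, h⟩
        · exact absurd h2 hv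
      · rintro ⟨hu, h⟩
        exact ⟨hu, Or.inl h⟩
    rw [← card_nh, ← card_nh, h1]

/-- Block EDR. -/
theorem p_EDR : S_EDR := by
  classical
  intro n G W R hR
  have hs := Finset.sum_congr (rfl : W = W) (fun v _ => EDR_one G W R hR v)
  rw [Finset.sum_add_distrib, Finset.sum_add_distrib] at hs
  have h1 : ∑ v ∈ W, (if v ∈ R then dg G R v else 0) = ed2 G R := by
    rw [← Finset.sum_filter, ed2]
    apply Finset.sum_congr _ (fun _ _ => rfl)
    ext u
    simp only [Finset.mem_filter]
    exact ⟨fun h => h.2, fun h => ⟨hR h, h⟩⟩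
  have h2 : ∑ v ∈ W, (if v ∈ R then R.card - 1 else 0) = R.card * (R.card - 1) := by
    rw [← Finset.sum_filter]
    have : W.filter (fun v => v ∈ R) = R := by
      ext u
      simp only [Finset.mem_filter]
      exact ⟨fun h => h.2, fun h => ⟨hR h, h⟩⟩
    rw [this, Finset.sum_const, smul_eq_mul]
  rw [h1, h2] at hs
  exact hs

end Frag.S4
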