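import Pool.Agent.Work.MP_547619_s4.Defs

/-!
# MP_547619_co, THEOREM S4, block EMP
-/

set_option autoImplicit false

namespace Frag.S4

open SimpleGraph Frag.Kz

lemma EMP_wt1 {n : ℕ} {PS FS : Finset (Fin n)} (p : ℕ) (x : Fin n) : 1 ≤ wt PS FS p x := by
  unfold wt
  split_ifs <;> norm_num

lemma EMP_wt3 {n : ℕ} {PS FS : Finset (Fin n)} (p : ℕ) (x : Fin n) (hx : x ∉ PS) : 3 ≤ wt PS FS p x := by
  unfold wt
  split_ifs <;> norm_num

lemma EMP_one {n : ℕ} {PS : Finset (Fin n)} {nb : Fin n → Fin 5 → Fin n} {FS LF : Finset (Fin n)} {C : Finset ℕ} {x : Fin n} {q : ℕ}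
    (hq : q ∈ pts PS nb FS LF x) (hC : q ∉ C) : wt PS FS q x ≤ ow PS nb FS LF C x := by
  unfold ow
  exact Finset.single_le_sum (f := fun p => wt PS FS p x) (fun _ _ => Nat.zero_le _) (Finset.mem_sdiff.2 ⟨hq, hC⟩)

lemma EMP_two {n : ℕ} {PS : Finset (Fin n)} {nb : Fin n → Fin 5 → Fin n} {FS LF : Finset (Fin n)} {C : Finset ℕ} {x : Fin n} {q q' : ℕ}
    (hq : q ∈ pts PS nb FS LF x) (hC : q ∉ C) (hq' : q' ∈ pts PS nb FS LF x) (hC' : q' ∉ C) (h : q ≠ q') :
    wt PS FS q x + wt PS FS q' x ≤ ow PS nb FS LF C x := by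
  unfold ow
  have h1 : ({q, q'} : Finset ℕ) ⊆ pts PS nb FS LF x \ C := by
    intro z hz
    rw [Finset.mem_insert, Finset.mem_singleton] at hz
    rcases hz with rfl | rfl
    · exact Finset.mem_sdiff.2 ⟨hq, hC⟩
    · exact Finset.mem_sdiff.2 ⟨hq', hC'⟩
  have h2 := Finset.sum_le_sum_of_subset (f := fun p => wt PS FS p x) h1
  rwa [Finset.sum_pair h] at h2

theorem p_EMP (hLBL : S_LBL) (hPTC : S_PTC) : S_EMP := by
  intro n G W PS nb FS LF hS C hC hne hT
  obtain ⟨L1, L2, L3, L4, L5⟩ := hLBL n G W PS nb FS LF hS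
  have P := hPTC n G W PS nb FS LF hS
  have hloc := hS.loc
  have htri := hS.tri
  have hcov := hS.cov
  by_contra hlt
  push Not at hlt
  have hpv : pv n C = 0 := by omega
  have hsum : ∑ x ∈ ZZ W PS nb FS LF C, ow PS nb FS LF C x < 12 := by omega
  have hA : ∀ A ⊆ ZZ W PS nb FS LF C, ∑ x ∈ A, ow PS nb FS LF C x < 12 :=
    fun A hA => lt_of_le_of_lt (Finset.sum_le_sum_of_subset hA) hsum
  have hFP : ∀ u, u ∉ PS → u ∉ FS := fun u hu h => hu (hcov.sub h)
  have hpriv : ∀ p ∈ C, (dec n p).card ≠ 1 := by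
    intro p hp h1
    unfold pv at hpv
    rw [Finset.card_eq_zero, Finset.filter_eq_empty_iff] at hpv
    exact hpv hp h1
  have hT1 : ∀ u ∈ FS, enc (zs nb LF u) ∉ C := by
    intro u hu h
    have : u ∈ TT W PS nb FS LF C := Finset.mem_union_right _ (Finset.mem_filter.2 ⟨hu, h⟩)
    rw [hT] at this
    exact absurd this (Finset.notMem_empty _)
  have hT0 : ∀ x ∈ W \ FS, ∃ q ∈ pts PS nb FS LF x, q ∉ C := by
    intro x hx
    by_contra h
    push Not at h
    have : x ∈ TT W PS nb FS LF C := Finset.mem_union_left _ (Finset.mem_filter.2 ⟨hx, h⟩)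
    rw [hT] at this
    exact absurd this (Finset.notMem_empty _)
  have hZm : ∀ x ∈ W \ FS, ∀ q ∈ pts PS nb FS LF x, q ∈ C → x ∈ ZZ W PS nb FS LF C := by
    intro x hx q hq hqC
    exact Finset.mem_filter.2 ⟨hx, ⟨q, Finset.mem_inter.2 ⟨hq, hqC⟩⟩⟩
  have h2 : ∀ x ∈ W, ∀ τ ∈ trs PS nb x, lb nb FS LF τ ∈ C → ∀ u ∈ τ, u ∉ FS := by
    intro x hx τ hτ hl u hu hF
    have h := L1 x hx τ hτ u hu hF
    apply hT1 u hF
    unfold lb at hl
    rwa [h] at hl
  have h3 : ∀ x ∈ W \ FS, x ∉ PS → 3 ≤ ow PS nb FS LF C x := by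
    intro x hx hP
    obtain ⟨q, hq, hqC⟩ := hT0 x hx
    exact (EMP_wt3 q x hP).trans (EMP_one hq hqC)
  have hadj0 : ∀ x ∈ W, x ∉ PS → nb x 0 ≠ x := by
    intro x hx hP h
    have hty := hloc.tyM x hx hP
    have := (hty.nbr (nb x 0) (hty.mem 0)).2 ⟨0, rfl⟩
    rw [h] at this
    exact G.irrefl this
  have h6 : ∀ x ∈ W \ FS, x ∉ PS → ee nb x ∉ C → 6 ≤ ow PS nb FS LF C x := by
    intro x hx hP he
    have hw := (Finset.mem_sdiff.1 hx).1
    refine le_trans ?_ (EMP_one ((P x hx).2.2.1 hP) he)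
    unfold wt ee
    rw [dec_enc, Finset.card_pair (hadj0 x hw hP).symm]
    norm_num
  have hp : ∀ x ∈ W \ FS, x ∉ PS → nb x 0 ∈ W \ FS ∧ nb x 0 ∉ PS ∧ ee nb (nb x 0) = ee nb x := by
    intro x hx hP
    have hw := (Finset.mem_sdiff.1 hx).1
    have h0 := hloc.par x hw hP
    refine ⟨Finset.mem_sdiff.2 ⟨(hloc.tyM x hw hP).mem 0, hFP _ h0.1⟩, h0.1, ?_⟩
    unfold ee
    rw [h0.2, Finset.pair_comm]
  have hpZ : ∀ x ∈ W \ FS, x ∉ PS → ee nb x ∈ C → nb x 0 ∈ ZZ W PS nb FS LF C := by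
    intro x hx hP he
    obtain ⟨a1, a2, a3⟩ := hp x hx hP
    exact hZm _ a1 _ ((P _ a1).2.2.1 a2) (by rw [a3]; exact he)
  have hAx : ∀ x ∈ ZZ W PS nb FS LF C, x ∉ PS → ∃ A ⊆ ZZ W PS nb FS LF C, A ⊆ {x, nb x 0} ∧ 6 ≤ ∑ y ∈ A, ow PS nb FS LF C y := by
    intro x hx hP
    have hxV := (Finset.mem_filter.1 hx).1
    have hw := (Finset.mem_sdiff.1 hxV).1
    by_cases he : ee nb x ∈ C
    · refine ⟨{x, nb x 0}, ?_, Finset.Subset.refl _, ?_⟩
      · intro z hz
        rw [Finset.mem_insert, Finset.mem_singleton] at hz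
        rcases hz with rfl | rfl
        · exact hx
        · exact hpZ x hxV hP he
      · rw [Finset.sum_pair (hadj0 x hw hP).symm]
        have b1 := h3 x hxV hP
        obtain ⟨a1, a2, a3⟩ := hp x hxV hP
        have b2 := h3 _ a1 a2
        omega
    · refine ⟨{x}, Finset.singleton_subset_iff.2 hx, ?_, ?_⟩
      · intro z hz
        rw [Finset.mem_singleton] at hz
        exact Finset.mem_insert.2 (Or.inl hz)
      · rw [Finset.sum_singleton]
        exact h6 x hxV hP he
  -- two disjoint sets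
  have hdis : ∀ A ⊆ ZZ W PS nb FS LF C, ∀ B ⊆ ZZ W PS nb FS LF C, Disjoint A B → 6 ≤ ∑ y ∈ A, ow PS nb FS LF C y →
      6 ≤ ∑ y ∈ B, ow PS nb FS LF C y → False := by
    intro A hA1 B hB1 hd hA2 hB2
    have := hA (A ∪ B) (Finset.union_subset hA1 hB1)
    rw [Finset.sum_union hd] at this
    omega
  -- triangles
  have hlbw : ∀ x ∈ W, ∀ τ ∈ trs PS nb x, (dec n (lb nb FS LF τ)).card = 3 := by
    intro x hx τ hτ
    unfold lb
    rw [dec_enc]
    exact L4 x hx τ hτ
  have hmemZ : ∀ x ∈ W, ∀ τ ∈ trs PS nb x, lb nb FS LF τ ∈ C → ∀ y ∈ τ, y ∈ W \ FS ∧ y ∈ ZZ W PS nb FS LF C ∧ τ ∈ trs PS nb y := by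
    intro x hx τ hτ hl y hy
    have hyW := htri.sub x hx τ hτ hy
    have hyF := h2 x hx τ hτ hl y hy
    have hyV := Finset.mem_sdiff.2 ⟨hyW, hyF⟩
    have hs := htri.sym x hx τ hτ y hy
    exact ⟨hyV, hZm y hyV _ ((P y hyV).2.1 τ hs) hl, hs⟩
  -- case (v): a triangle with a vertex of PS
  have h5 : ∀ v ∈ PS, v ∉ FS → (lb nb FS LF (ta nb v) ∉ C ∨ lb nb FS LF (tb nb v) ∉ C) → 5 ≤ ow PS nb FS LF C v := by
    intro v hv hvF hor
    have hvW := hloc.sub hv
    have hvV := Finset.mem_sdiff.2 ⟨hvW, hvF⟩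
    obtain ⟨c1, c2, c3, c4, u, hu, huF, c5⟩ := (P v hvV).2.2.2.2 hv
    have hct : lb nb FS LF (ct nb v) ∉ C := by
      unfold lb
      rw [c5]
      exact hT1 u huF
    obtain ⟨w, hw, hwL, hzw, -⟩ := L3 u huF
    have hmem : w ∈ lbs nb FS LF (ct nb v) := by
      rw [c5, hzw]
      exact Finset.mem_insert_self _ _
    have hta : ta nb v ∈ trs PS nb v := by
      unfold trs
      rw [if_pos hv]
      exact Finset.mem_insert_self _ _
    have htb : tb nb v ∈ trs PS nb v := by
      unfold trs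
      rw [if_pos hv]
      exact Finset.mem_insert_of_mem (Finset.mem_insert_self _ _)
    have htc : ct nb v ∈ trs PS nb v := by
      unfold trs
      rw [if_pos hv]
      exact Finset.mem_insert_of_mem (Finset.mem_insert_of_mem (Finset.mem_singleton_self _))
    have key : ∀ τ ∈ trs PS nb v, lbs nb FS LF τ = τ → (∀ u ∈ τ, u ∉ FS) → lb nb FS LF τ ∉ C → 5 ≤ ow PS nb FS LF C v := by
      intro τ hτ e1 e2 e3
      have hne' : lb nb FS LF τ ≠ lb nb FS LF (ct nb v) := by
        intro h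
        have h' := enc_inj h
        rw [e1] at h'
        rw [← h'] at hmem
        exact e2 w hmem hw
      have hw4 : wt PS FS (lb nb FS LF τ) v = 4 := by
        unfold wt
        rw [hlbw v hvW τ hτ, if_neg (by norm_num), if_neg (by norm_num), if_neg]
        rintro ⟨z, hz, hzF⟩
        unfold lb at hz
        rw [dec_enc, e1] at hz
        exact e2 z hz hzF
      have := EMP_two ((P v hvV).2.1 τ hτ) e3 ((P v hvV).2.1 _ htc) hct hne'
      have h1 := EMP_wt1 (PS := PS) (FS := FS) (lb nb FS LF (ct nb v)) v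
      omega
    rcases hor with h | h
    · exact key _ hta c1 c3 h
    · exact key _ htb c2 c4 h
  have hv : ∀ x ∈ W, ∀ τ ∈ trs PS nb x, lb nb FS LF τ ∈ C → ∀ v ∈ τ, v ∈ PS → False := by
    intro x hx τ hτ hl v hvτ hvP
    obtain ⟨hvV, hvZ, hτv⟩ := hmemZ x hx τ hτ hl v hvτ
    have hvW := (Finset.mem_sdiff.1 hvV).1
    have hvF := (Finset.mem_sdiff.1 hvV).2
    have hty := hloc.tyP v hvP
    have hnc : τ ≠ ct nb v := by
      rintro rfl
      obtain ⟨u, hu, huF⟩ := hcov.cov v hvP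
      exact h2 x hx _ hτ hl u hu huF
    have hor : τ = ta nb v ∨ τ = tb nb v := by
      unfold trs at hτv
      rw [if_pos hvP, Finset.mem_insert, Finset.mem_insert, Finset.mem_singleton] at hτv
      rcases hτv with h | h | h
      · exact Or.inl h
      · exact Or.inr h
      · exact absurd h hnc
    have h0τ : nb v 0 ∈ τ := by
      rcases hor with rfl | rfl
      · exact Finset.mem_insert_of_mem (Finset.mem_insert_self _ _)
      · exact Finset.mem_insert_of_mem (Finset.mem_insert_self _ _)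
    obtain ⟨h0V, h0Z, -⟩ := hmemZ x hx τ hτ hl _ h0τ
    have h0F := (Finset.mem_sdiff.1 h0V).2
    have h0P := (hloc.mate v hvP).1
    have hne0 : v ≠ nb v 0 := by
      intro h
      have := (hty.nbr (nb v 0) (hty.mem 0)).2 ⟨0, rfl⟩
      rw [← h] at this
      exact G.irrefl this
    obtain ⟨ho1, ho2⟩ := hloc.out v hvP
    have hta : ta nb v ∈ trs PS nb v := by
      unfold trs
      rw [if_pos hvP]
      exact Finset.mem_insert_self _ _
    have htb : tb nb v ∈ trs PS nb v := by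
      unfold trs
      rw [if_pos hvP]
      exact Finset.mem_insert_of_mem (Finset.mem_insert_self _ _)
    have m1 : nb v 1 ∈ ta nb v := by simp [ta]
    have m2 : nb v 2 ∈ tb nb v := by simp [tb]
    by_cases hboth : lb nb FS LF (ta nb v) ∈ C ∧ lb nb FS LF (tb nb v) ∈ C
    · obtain ⟨o1V, o1Z, -⟩ := hmemZ v hvW _ hta hboth.1 _ m1
      obtain ⟨o2V, o2Z, -⟩ := hmemZ v hvW _ htb hboth.2 _ m2
      obtain ⟨A, hA1, hA2, hA3⟩ := hAx _ o1Z ho1
      obtain ⟨B, hB1, hB2, hB3⟩ := hAx _ o2Z ho2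
      have o1W := (Finset.mem_sdiff.1 o1V).1
      have o2W := (Finset.mem_sdiff.1 o2V).1
      have hne12 : nb v 1 ≠ nb v 2 := fun h => absurd (hty.inj 1 2 h) (by decide)
      have hna : ¬ G.Adj (nb v 1) (nb v 2) := by
        rw [hty.adj 1 2]
        decide
      have ty1 := hloc.tyM _ o1W ho1
      have ty2 := hloc.tyM _ o2W ho2
      have k1 : G.Adj (nb v 1) (nb (nb v 1) 0) := (ty1.nbr _ (ty1.mem 0)).2 ⟨0, rfl⟩
      have k2 : G.Adj (nb v 2) (nb (nb v 2) 0) := (ty2.nbr _ (ty2.mem 0)).2 ⟨0, rfl⟩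
      refine hdis A hA1 B hB1 (Finset.disjoint_left.2 fun z hzA hzB => ?_) hA3 hB3
      have z1 := hA2 hzA
      have z2 := hB2 hzB
      rw [Finset.mem_insert, Finset.mem_singleton] at z1 z2
      rcases z1 with z1 | z1 <;> rcases z2 with z2 | z2
      · exact hne12 (z1.symm.trans z2)
      · apply hna
        rw [← z1, z2] at *
        exact k2.symm
      · apply hna
        have : nb v 2 = nb (nb v 1) 0 := z2.symm.trans z1
        rw [this]
        exact k1
      · apply hne12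
        have e1 := (hloc.par _ o1W ho1).2
        have e2 := (hloc.par _ o2W ho2).2
        rw [← e1, ← e2, ← z1, ← z2]
    · have hor' : lb nb FS LF (ta nb v) ∉ C ∨ lb nb FS LF (tb nb v) ∉ C := by
        by_contra h
        push Not at h
        exact hboth h
      have w1 := h5 v hvP hvF hor'
      obtain ⟨mt1, mt2⟩ := htri.mat v hvP
      have w2 := h5 (nb v 0) h0P h0F (by rw [mt1, mt2]; exact hor')
      have : ∃ o ∈ τ, o ∉ PS := by
        rcases hor with rfl | rfl
        · exact ⟨_, m1, ho1⟩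
        · exact ⟨_, m2, ho2⟩
      obtain ⟨o, hoτ, hoP⟩ := this
      obtain ⟨oV, oZ, -⟩ := hmemZ x hx τ hτ hl o hoτ
      have w3 := h3 o oV hoP
      have n1 : v ≠ o := fun h => hoP (h ▸ hvP)
      have n2 : nb v 0 ≠ o := fun h => hoP (h ▸ h0P)
      have hs := hA {v, nb v 0, o} (by
        intro z hz
        rw [Finset.mem_insert, Finset.mem_insert, Finset.mem_singleton] at hz
        rcases hz with rfl | rfl | rfl
        · exact hvZ
        · exact h0Z
        · exact oZ)
      rw [Finset.sum_insert (by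
        rw [Finset.mem_insert, Finset.mem_singleton]
        push Not
        exact ⟨hne0, n1⟩), Finset.sum_pair n2] at hs
      omega
  -- case (iv)
  have h4 : ∀ x ∈ W, ∀ τ ∈ trs PS nb x, lb nb FS LF τ ∉ C := by
    intro x hx τ hτ hl
    have hnP : ∀ y ∈ τ, y ∉ PS := fun y hy hyP => hv x hx τ hτ hl y hy hyP
    have hτZ : τ ⊆ ZZ W PS nb FS LF C := fun y hy => (hmemZ x hx τ hτ hl y hy).2.1
    have hc3 := htri.card x hx τ hτ
    by_cases hee : ∃ y ∈ τ, ee nb y ∈ C
    · obtain ⟨y, hy, he⟩ := hee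
      obtain ⟨yV, yZ, hτy⟩ := hmemZ x hx τ hτ hl y hy
      have yP := hnP y hy
      have yW := (Finset.mem_sdiff.1 yV).1
      have hyZ := hpZ y yV yP he
      have hty := hloc.tyM y yW yP
      have hnot : nb y 0 ∉ τ := by
        intro h
        unfold trs at hτy
        rw [if_neg yP, Finset.mem_insert, Finset.mem_singleton] at hτy
        rcases hτy with rfl | rfl
        · unfold t1 at h
          rw [Finset.mem_insert, Finset.mem_insert, Finset.mem_singleton] at h
          rcases h with h | h | h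
          · exact hadj0 y yW yP h
          · exact absurd (hty.inj 0 1 h) (by decide)
          · exact absurd (hty.inj 0 2 h) (by decide)
        · unfold ct at h
          rw [Finset.mem_insert, Finset.mem_insert, Finset.mem_singleton] at h
          rcases h with h | h | h
          · exact hadj0 y yW yP h
          · exact absurd (hty.inj 0 3 h) (by decide)
          · exact absurd (hty.inj 0 4 h) (by decide)
      have hs := hA (insert (nb y 0) τ) (Finset.insert_subset hyZ hτZ)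
      rw [Finset.sum_insert hnot] at hs
      obtain ⟨a1, a2, -⟩ := hp y yV yP
      have b1 := h3 _ a1 a2
      have b2 : ∑ _z ∈ τ, 3 ≤ ∑ z ∈ τ, ow PS nb FS LF C z :=
        Finset.sum_le_sum fun z hz => h3 z (hmemZ x hx τ hτ hl z hz).1 (hnP z hz)
      rw [Finset.sum_const, hc3, smul_eq_mul] at b2
      omega
    · push Not at hee
      have hs := hA τ hτZ
      have b2 : ∑ _z ∈ τ, 6 ≤ ∑ z ∈ τ, ow PS nb FS LF C z :=
        Finset.sum_le_sum fun z hz => h6 z (hmemZ x hx τ hτ hl z hz).1 (hnP z hz) (hee z hz)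
      rw [Finset.sum_const, hc3, smul_eq_mul] at b2
      omega
  -- the point
  obtain ⟨p, hpC⟩ := hne
  have hpPW := hC hpC
  unfold PW at hpPW
  rw [Finset.mem_biUnion] at hpPW
  obtain ⟨x, hxV, hpx⟩ := hpPW
  have hxW := (Finset.mem_sdiff.1 hxV).1
  rcases (P x hxV).2.2.2.1 p hpx with ⟨τ, hτ, rfl⟩ | ⟨hxP, rfl⟩ | ⟨hxP, rfl, -⟩
  · exact h4 x hxW τ hτ hpC
  · -- case (vi)
    have h66 : ∀ y ∈ ZZ W PS nb FS LF C, y ∈ W \ FS → y ∉ PS → 6 ≤ ow PS nb FS LF C y := by
      intro y yZ yV yP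
      have yW := (Finset.mem_sdiff.1 yV).1
      have ht1 : t1 nb y ∈ trs PS nb y := by
        unfold trs
        rw [if_neg yP]
        exact Finset.mem_insert_self _ _
      have htc : ct nb y ∈ trs PS nb y := by
        unfold trs
        rw [if_neg yP]
        exact Finset.mem_insert_of_mem (Finset.mem_singleton_self _)
      have hne' : lb nb FS LF (t1 nb y) ≠ lb nb FS LF (ct nb y) := by
        intro h
        have hmem : enc ({y} : Finset (Fin n)) ∈ pts PS nb FS LF y := by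
          unfold pts
          rw [if_neg yP, if_pos h]
          exact Finset.mem_insert_of_mem (Finset.mem_insert_of_mem (Finset.mem_singleton_self _))
        have hnC : enc ({y} : Finset (Fin n)) ∉ C := by
          intro hc
          apply hpriv _ hc
          rw [dec_enc, Finset.card_singleton]
        have h12 := EMP_one hmem hnC
        have hwt : wt PS FS (enc ({y} : Finset (Fin n))) y = 12 := by
          unfold wt
          rw [dec_enc, Finset.card_singleton, if_pos rfl]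
        rw [hwt] at h12
        have hs := hA {y} (Finset.singleton_subset_iff.2 yZ)
        rw [Finset.sum_singleton] at hs
        omega
      have h := EMP_two ((P y yV).2.1 _ ht1) (h4 y yW _ ht1) ((P y yV).2.1 _ htc) (h4 y yW _ htc) hne'
      have b1 := EMP_wt3 (PS := PS) (FS := FS) (lb nb FS LF (t1 nb y)) y yP
      have b2 := EMP_wt3 (PS := PS) (FS := FS) (lb nb FS LF (ct nb y)) y yP
      omega
    have hxZ := hZm x hxV _ hpx hpC
    have hyZ := hpZ x hxV hxP hpC
    obtain ⟨a1, a2, -⟩ := hp x hxV hxP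
    have b1 := h66 x hxZ hxV hxP
    have b2 := h66 _ hyZ a1 a2
    have hs := hA {x, nb x 0} (by
      intro z hz
      rw [Finset.mem_insert, Finset.mem_singleton] at hz
      rcases hz with rfl | rfl
      · exact hxZ
      · exact hyZ)
    rw [Finset.sum_pair (hadj0 x hxW hxP).symm] at hs
    omega
  · apply hpriv _ hpC
    rw [dec_enc, Finset.card_singleton]

end Frag.S4
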