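import Pool.Agent.Work.MP_547619_s4.Defs

/-!
# MP_547619_co, THEOREM S4: block INC (incidences with a given label)
-/

set_option autoImplicit false

namespace Frag.S4

open SimpleGraph Frag.Kz

/-- The four exceptional pairs of `w`, with `u = nb w 0`. -/
def INC_g {n : ℕ} (nb : Fin n → Fin 5 → Fin n) (w : Fin n) :
    Finset (Σ _ : Fin n, Finset (Fin n)) :=
  {⟨nb (nb w 0) 1, ta nb (nb w 0)⟩, ⟨nb (nb w 0) 2, tb nb (nb w 0)⟩,
    ⟨nb (nb w 0) 3, ct nb (nb w 0)⟩, ⟨nb (nb w 0) 4, ct nb (nb w 0)⟩}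

/-- The two exceptional pairs with first element in `PS`. -/
def INC_f {n : ℕ} (nb : Fin n → Fin 5 → Fin n) (w : Fin n) :
    Finset (Σ _ : Fin n, Finset (Fin n)) :=
  {⟨nb (nb w 0) 3, ct nb (nb w 0)⟩, ⟨nb (nb w 0) 4, ct nb (nb w 0)⟩}

lemma INC_self {n : ℕ} (nb : Fin n → Fin 5 → Fin n) (w : Fin n) : w ∈ ct nb w := by
  simp [ct]

lemma INC_sub {n : ℕ} {G : SimpleGraph (Fin n)} {W PS : Finset (Fin n)}
    {nb : Fin n → Fin 5 → Fin n} {FS LF : Finset (Fin n)} (h : Str G W PS nb FS LF)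
    (S τ : Finset (Fin n)) (u x : Fin n) (hu : u ∈ FS) (hL : u ∈ LF) (hz : zs nb LF u = S)
    (hτ : τ = ta nb u ∨ τ = tb nb u ∨ τ = ct nb u) (hx : x ∈ τ) (hxF : x ∉ FS) :
    ∃ w ∈ S ∩ FS, (⟨x, τ⟩ : Σ _ : Fin n, Finset (Fin n)) ∈ INC_g nb w := by
  have hw : nb u 0 ∈ FS := h.cov.mate u hu
  have hww : nb (nb u 0) 0 = u := (h.loc.mate u (h.cov.sub hu)).2.1
  rw [zs, if_pos hL] at hz
  refine ⟨nb u 0, Finset.mem_inter.2 ⟨?_, hw⟩, ?_⟩
  · rw [← hz]
    exact INC_self nb _
  have hxu : x ≠ u := fun h1 => hxF (h1 ▸ hu)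
  have hxw : x ≠ nb u 0 := fun h1 => hxF (h1 ▸ hw)
  simp only [INC_g, hww, Finset.mem_insert, Finset.mem_singleton]
  rcases hτ with rfl | rfl | rfl
  · simp only [ta, Finset.mem_insert, Finset.mem_singleton] at hx
    rcases hx with h1 | h1 | h1
    · exact absurd h1 hxu
    · exact absurd h1 hxw
    · subst h1
      exact Or.inl rfl
  · simp only [tb, Finset.mem_insert, Finset.mem_singleton] at hx
    rcases hx with h1 | h1 | h1
    · exact absurd h1 hxu
    · exact absurd h1 hxw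
    · subst h1
      exact Or.inr (Or.inl rfl)
  · simp only [ct, Finset.mem_insert, Finset.mem_singleton] at hx
    rcases hx with h1 | h1 | h1
    · exact absurd h1 hxu
    · subst h1
      exact Or.inr (Or.inr (Or.inl rfl))
    · subst h1
      exact Or.inr (Or.inr (Or.inr rfl))

lemma INC_case (hLBL : S_LBL) {n : ℕ} {G : SimpleGraph (Fin n)} {W PS : Finset (Fin n)}
    {nb : Fin n → Fin 5 → Fin n} {FS LF : Finset (Fin n)} (h : Str G W PS nb FS LF)
    (S τ : Finset (Fin n)) (x : Fin n) (hxW : x ∈ W) (hxF : x ∉ FS) (hτ : τ ∈ trs PS nb x)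
    (hS : lbs nb FS LF τ = S) :
    (τ = S ∧ x ∈ S \ FS) ∨
      ∃ w ∈ S ∩ FS, (⟨x, τ⟩ : Σ _ : Fin n, Finset (Fin n)) ∈ INC_g nb w := by
  obtain ⟨L1, L2, L3, L4, L5⟩ := hLBL n G W PS nb FS LF h
  have hxτ : x ∈ τ := h.tri.self x hxW τ hτ
  by_cases h1 : ∃ u ∈ τ, u ∈ FS
  · obtain ⟨u, hu, huF⟩ := h1
    have hz : zs nb LF u = S := by rw [← L1 x hxW τ hτ u hu huF, hS]
    have huP : u ∈ PS := h.cov.sub huF
    have h2 := h.tri.sym x hxW τ hτ u hu
    rw [trs, if_pos huP] at h2
    simp only [Finset.mem_insert, Finset.mem_singleton] at h2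
    by_cases hL : u ∈ LF
    · exact Or.inr (INC_sub h S τ u x huF hL hz h2 hxτ hxF)
    · have hL' : nb u 0 ∈ LF := by
        by_contra h3
        exact hL ((h.cov.alt u huF).2 h3)
      have hm := h.tri.mat u huP
      have hz' : zs nb LF (nb u 0) = S := by rw [L5 u huF, hz]
      rcases h2 with h2 | h2 | h2
      · refine Or.inr (INC_sub h S τ (nb u 0) x (h.cov.mate u huF) hL' hz' (Or.inl ?_) hxτ hxF)
        rw [hm.1, h2]
      · refine Or.inr (INC_sub h S τ (nb u 0) x (h.cov.mate u huF) hL' hz'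
          (Or.inr (Or.inl ?_)) hxτ hxF)
        rw [hm.2, h2]
      · left
        rw [zs, if_neg hL, ← h2] at hz
        refine ⟨hz, Finset.mem_sdiff.2 ⟨?_, hxF⟩⟩
        rw [← hz]
        exact hxτ
  · left
    have h2 : lbs nb FS LF τ = τ := L2 τ (fun u hu huF => h1 ⟨u, hu, huF⟩)
    rw [h2] at hS
    refine ⟨hS, Finset.mem_sdiff.2 ⟨?_, hxF⟩⟩
    rw [← hS]
    exact hxτ

open Classical in
/-- The incidences as a finset of pairs. -/
lemma INC_card {n : ℕ} (PS : Finset (Fin n)) (nb : Fin n → Fin 5 → Fin n)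
    (FS LF A S : Finset (Fin n)) : inc PS nb FS LF A S =
      (A.sigma (fun x => (trs PS nb x).filter (fun τ => lbs nb FS LF τ = S))).card := by
  rw [Finset.card_sigma, inc]

lemma INC_bound {n : ℕ} (PS : Finset (Fin n)) (nb : Fin n → Fin 5 → Fin n)
    (FS LF A S : Finset (Fin n)) (m : ℕ) (hS : S.card = 3)
    (g : Fin n → Finset (Σ _ : Fin n, Finset (Fin n))) (hg : ∀ w, (g w).card ≤ m + 1)
    (hc : ∀ x ∈ A, ∀ τ ∈ trs PS nb x, lbs nb FS LF τ = S →
      (τ = S ∧ x ∈ S \ FS) ∨ ∃ w ∈ S ∩ FS, (⟨x, τ⟩ : Σ _ : Fin n, Finset (Fin n)) ∈ g w) :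
    inc PS nb FS LF A S ≤ m * (S ∩ FS).card + 3 := by
  classical
  rw [INC_card]
  have hsub : A.sigma (fun x => (trs PS nb x).filter (fun τ => lbs nb FS LF τ = S)) ⊆
      (S \ FS).image (fun x => (⟨x, S⟩ : Σ _ : Fin n, Finset (Fin n))) ∪
        (S ∩ FS).biUnion g := by
    rintro ⟨x, τ⟩ hp
    simp only [Finset.mem_sigma, Finset.mem_filter] at hp
    rw [Finset.mem_union]
    rcases hc x hp.1 τ hp.2.1 hp.2.2 with ⟨h1, h2⟩ | ⟨w, hw, h1⟩
    · left
      rw [Finset.mem_image]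
      exact ⟨x, h2, by rw [h1]⟩
    · right
      rw [Finset.mem_biUnion]
      exact ⟨w, hw, h1⟩
  have h1 := (Finset.card_le_card hsub).trans (Finset.card_union_le _ _)
  have h2 : ((S \ FS).image (fun x => (⟨x, S⟩ : Σ _ : Fin n, Finset (Fin n)))).card ≤
      (S \ FS).card := Finset.card_image_le
  have h3 : ((S ∩ FS).biUnion g).card ≤ (S ∩ FS).card * (m + 1) :=
    Finset.card_biUnion_le_card_mul _ _ _ (fun w _ => hg w)
  have h4 : (S \ FS).card + (S ∩ FS).card = 3 := by
    rw [← hS]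
    exact Finset.card_sdiff_add_card_inter S FS
  have h5 : (S ∩ FS).card * (m + 1) = m * (S ∩ FS).card + (S ∩ FS).card := by ring
  omega

theorem p_INC (hLBL : S_LBL) : S_INC := by
  classical
  intro n G W PS nb FS LF h S hS
  obtain ⟨L1, L2, L3, L4, L5⟩ := hLBL n G W PS nb FS LF h
  refine ⟨?_, ?_, ?_, ?_⟩
  · apply INC_bound PS nb FS LF (W \ FS) S 3 hS (INC_g nb)
    · intro w
      exact Finset.card_le_four
    · intro x hx τ hτ hl
      rw [Finset.mem_sdiff] at hx
      exact INC_case hLBL h S τ x hx.1 hx.2 hτ hl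
  · have h1 : inc PS nb FS LF (PS \ FS) S ≤ 1 * (S ∩ FS).card + 3 := by
      apply INC_bound PS nb FS LF (PS \ FS) S 1 hS (INC_f nb)
      · intro w
        exact Finset.card_le_two
      · intro x hx τ hτ hl
        rw [Finset.mem_sdiff] at hx
        rcases INC_case hLBL h S τ x (h.loc.sub hx.1) hx.2 hτ hl with h2 | ⟨w, hw, h2⟩
        · exact Or.inl h2
        · refine Or.inr ⟨w, hw, ?_⟩
          have hwP : w ∈ PS := h.cov.sub (Finset.mem_inter.1 hw).2
          have huP : nb w 0 ∈ PS := (h.loc.mate w hwP).1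
          have ho := h.loc.out (nb w 0) huP
          simp only [INC_g, Finset.mem_insert, Finset.mem_singleton] at h2
          simp only [INC_f, Finset.mem_insert, Finset.mem_singleton]
          rcases h2 with h2 | h2 | h2 | h2
          · exfalso
            have h3 : x = nb (nb w 0) 1 := congrArg Sigma.fst h2
            exact ho.1 (h3 ▸ hx.1)
          · exfalso
            have h3 : x = nb (nb w 0) 2 := congrArg Sigma.fst h2
            exact ho.2 (h3 ▸ hx.1)
          · exact Or.inl h2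
          · exact Or.inr h2
    omega
  · have hsub : FS.filter (fun u => zs nb LF u = S) ⊆
        (S ∩ FS) ∪ (S ∩ FS).image (fun w => nb w 0) := by
      intro u hu
      rw [Finset.mem_filter] at hu
      obtain ⟨huF, hz⟩ := hu
      rw [Finset.mem_union]
      by_cases hL : u ∈ LF
      · right
        rw [zs, if_pos hL] at hz
        rw [Finset.mem_image]
        refine ⟨nb u 0, Finset.mem_inter.2 ⟨?_, h.cov.mate u huF⟩,
          (h.loc.mate u (h.cov.sub huF)).2.1⟩
        rw [← hz]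
        exact INC_self nb _
      · left
        rw [zs, if_neg hL] at hz
        refine Finset.mem_inter.2 ⟨?_, huF⟩
        rw [← hz]
        exact INC_self nb _
    have h1 := (Finset.card_le_card hsub).trans (Finset.card_union_le _ _)
    have h2 : ((S ∩ FS).image (fun w => nb w 0)).card ≤ (S ∩ FS).card := Finset.card_image_le
    rw [zc]
    omega
  · rintro ⟨v, hv, τ, hτ, hl⟩
    rcases Nat.eq_zero_or_pos (S ∩ FS).card with h0 | h0
    · rw [h0]
      exact Nat.zero_le _
    obtain ⟨w1, hw1⟩ := Finset.card_pos.1 h0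
    rw [Finset.mem_inter] at hw1
    have h1 : ∃ u ∈ τ, u ∈ FS := by
      by_contra hcon
      have h2 : lbs nb FS LF τ = τ := L2 τ (fun u hu huF => hcon ⟨u, hu, huF⟩)
      rw [h2] at hl
      exact hcon ⟨w1, hl ▸ hw1.1, hw1.2⟩
    obtain ⟨u, hu, huF⟩ := h1
    obtain ⟨w0, hw0, hw0L, hzu, _⟩ := L3 u huF
    have hSct : S = ct nb w0 := by rw [← hl, L1 v hv τ hτ u hu huF, hzu]
    have hw0P : w0 ∈ PS := h.cov.sub hw0
    have key : ∀ w ∈ S ∩ FS, w ∉ LF ∧ zs nb LF w = S := by
      intro w hw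
      rw [Finset.mem_inter] at hw
      have hwP : w ∈ PS := h.cov.sub hw.2
      have h2 : ct nb w = ct nb w0 := h.tri.ctc w0 hw0P w (hSct ▸ hw.1) hwP
      have h3 : w ∉ LF := by
        intro hL
        have h4 : w0 ∈ ct nb w := by
          rw [h2]
          exact INC_self nb w0
        have h5 := h.cov.one w hL w0 h4 hw0
        exact hw0L (h5 ▸ hL)
      exact ⟨h3, by rw [zs, if_neg h3, h2, hSct]⟩
    have hdisj : Disjoint (S ∩ FS) ((S ∩ FS).image (fun w => nb w 0)) := by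
      rw [Finset.disjoint_left]
      intro a ha hb
      rw [Finset.mem_image] at hb
      obtain ⟨w, hw, rfl⟩ := hb
      have h2 := (key w hw).1
      have h3 : nb w 0 ∈ LF := by
        by_contra h4
        exact h2 ((h.cov.alt w (Finset.mem_inter.1 hw).2).2 h4)
      exact (key _ ha).1 h3
    have hinj : ((S ∩ FS).image (fun w => nb w 0)).card = (S ∩ FS).card := by
      apply Finset.card_image_of_injOn
      intro a ha b hb hab
      have ha' : a ∈ S ∩ FS := ha
      have hb' : b ∈ S ∩ FS := hb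
      have h2 := (h.loc.mate a (h.cov.sub (Finset.mem_inter.1 ha').2)).2.1
      have h3 := (h.loc.mate b (h.cov.sub (Finset.mem_inter.1 hb').2)).2.1
      have hab' : nb a 0 = nb b 0 := hab
      rw [← h2, ← h3, hab']
    have hsub : (S ∩ FS) ∪ (S ∩ FS).image (fun w => nb w 0) ⊆
        FS.filter (fun u => zs nb LF u = S) := by
      intro a ha
      rw [Finset.mem_union] at ha
      rw [Finset.mem_filter]
      rcases ha with ha | ha
      · exact ⟨(Finset.mem_inter.1 ha).2, (key a ha).2⟩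
      · rw [Finset.mem_image] at ha
        obtain ⟨w, hw, rfl⟩ := ha
        have hwF := (Finset.mem_inter.1 hw).2
        exact ⟨h.cov.mate w hwF, by rw [L5 w hwF, (key w hw).2]⟩
    have h5 := Finset.card_le_card hsub
    rw [Finset.card_union_of_disjoint hdisj, hinj] at h5
    rw [zc]
    omega

end Frag.S4
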