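import Pool.Agent.Work.MP_547619_s4.Defs

/-! # Block IND (S4) -/

set_option autoImplicit false

namespace Frag.S4

open SimpleGraph Frag.Kz

theorem p_IND (hKSM : S_KSM) (hTRM : S_TRM) : S_IND := by
  intro L n W
  induction hN : W.card using Nat.strong_induction_on generalizing W with
  | _ N ih =>
  intro G hL hG
  subst hN
  by_cases hsmall : W.card ≤ 10 * L + 20
  · refine ⟨W, subset_rfl, hKSM n (10 * L + 19) G W (by omega), ?_⟩
    calc L * (12 * W.card) ≤ L * (12 * W.card + ed2 G W) := Nat.mul_le_mul_left _ (Nat.le_add_right _ _)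
      _ ≤ _ := Nat.le_add_right _ _
  push Not at hsmall
  by_cases hT : Trm (10 * L + 19) G W
  · exact hTRM n (10 * L + 19) L G W hL le_rfl (by omega) hT
  · have hex : ∃ (G' : SimpleGraph (Fin n)) (W' : Finset (Fin n)) (t : ℕ),
        Rdc (10 * L + 19) G G' W W' t ∧ W'.card < W.card ∧
        12 * W.card + ed2 G' W' ≤ 12 * W'.card + 12 * t + ed2 G W := by
      by_contra hcon
      apply hT
      refine ⟨hG, fun G' W' t hR hlt => ?_⟩
      by_contra hle
      exact hcon ⟨G', W', t, hR, hlt, by omega⟩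
    obtain ⟨G', W', t, hR, hlt, hle⟩ := hex
    obtain ⟨F', hF', hK', hin⟩ := ih W'.card hlt W' rfl G' hL hR.sf
    obtain ⟨F, hF, hK, hc⟩ := hR.2.2 F' hF' hK'
    refine ⟨F, hF, hK, ?_⟩
    have h1 : L * (12 * W.card + ed2 G' W') ≤ L * (12 * W'.card + 12 * t + ed2 G W) :=
      Nat.mul_le_mul_left _ hle
    have h2 : L * (F'.card + t) ≤ L * F.card := Nat.mul_le_mul_left _ hc
    have h3 : 24 * W'.card ≤ 24 * W.card := by omega
    nlinarith

end Frag.S4
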