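import Pool.Agent.Work.MP_547619_s4.Defs

set_option autoImplicit false

namespace Frag.S4

open SimpleGraph Frag.Kz

theorem p_KPT (h1 : S_KPF) (h2 : S_LBL) (h3 : S_PTC) (h4 : S_SZE) : S_KPT := by
  classical
  intro n G W PS nb FS LF hS F own h hFW hpts hdis
  obtain ⟨l1, -, -, -, -⟩ := h2 n G W PS nb FS LF hS
  have hP := h3 n G W PS nb FS LF hS
  obtain ⟨s1, s2, -⟩ := h4 n G W PS nb FS LF hS
  have hFSW : FS ⊆ W := hS.cov.sub.trans hS.loc.sub
  obtain ⟨h', hh'⟩ : ∃ h' : Fin n → ℕ, h' = fun u => if u ∈ FS then enc (zs nb LF u) else h u := ⟨_, rfl⟩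
  obtain ⟨own', hown'⟩ : ∃ own' : Fin n → Finset ℕ, own' = fun u => if u ∈ FS then ∅ else own u := ⟨_, rfl⟩
  have h'1 : ∀ u ∈ FS, h' u = enc (zs nb LF u) := by
    intro u hu
    rw [hh']
    simp [hu]
  have h'2 : ∀ u, u ∉ FS → h' u = h u := by
    intro u hu
    rw [hh']
    simp [hu]
  have o'1 : ∀ u ∈ FS, own' u = ∅ := by
    intro u hu
    rw [hown']
    simp [hu]
  have o'2 : ∀ u, u ∉ FS → own' u = own u := by
    intro u hu
    rw [hown']
    simp [hu]
  have hFn : ∀ u ∈ F, u ∉ FS := fun u hu => (Finset.mem_sdiff.1 (hFW hu)).2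
  have hdis' : ∀ u ∈ F ∪ FS, ∀ v ∈ F ∪ FS, u ≠ v → Disjoint (own' u) (own' v) := by
    intro u hu v hv huv
    by_cases huF : u ∈ FS
    · rw [o'1 u huF]
      exact Finset.disjoint_empty_left _
    · by_cases hvF : v ∈ FS
      · rw [o'1 v hvF]
        exact Finset.disjoint_empty_right _
      · rw [o'2 u huF, o'2 v hvF]
        have hu' : u ∈ F := (Finset.mem_union.1 hu).resolve_right huF
        have hv' : v ∈ F := (Finset.mem_union.1 hv).resolve_right hvF
        exact hdis u hu' v hv' huv
  let G' : SimpleGraph (Fin n) :=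
    { Adj := fun u v => u ≠ v ∧ (h' u = h' v ∨ h' u ∈ own' v ∨ h' v ∈ own' u)
      symm := ⟨by
        intro u v huv
        refine ⟨huv.1.symm, ?_⟩
        rcases huv.2 with h | h | h
        · left
          exact h.symm
        · right
          right
          exact h
        · right
          left
          exact h⟩
      loopless := ⟨by
        intro u hu
        exact hu.1 rfl⟩ }
  have hK : Keep G' 19 (F ∪ FS) := by
    refine h1 n 18 G' (F ∪ FS) h' own' ?_ hdis' (fun u hu v hv huv => huv.2)
      (fun u hu v hv hne hh => ⟨hne, ?_⟩) ?_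
    · intro v hv
      by_cases hvF : v ∈ FS
      · rw [o'1 v hvF]
        exact Finset.notMem_empty _
      · rw [o'2 v hvF, h'2 v hvF]
        exact (hpts v ((Finset.mem_union.1 hv).resolve_right hvF)).2
    · rcases hh with hh | hh
      · left
        exact hh
      · right
        left
        exact hh
    · intro p
      have hsub : (F ∪ FS).filter (fun v => h' v = p) ⊆
          (W \ FS).filter (fun v => p ∈ pts PS nb FS LF v) ∪ FS.filter (fun u => enc (zs nb LF u) = p) := by
        intro v hv
        rw [Finset.mem_filter] at hv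
        obtain ⟨hv, hvp⟩ := hv
        rw [Finset.mem_union]
        by_cases hvF : v ∈ FS
        · right
          rw [Finset.mem_filter]
          refine ⟨hvF, ?_⟩
          rw [← h'1 v hvF]
          exact hvp
        · left
          have hvF' : v ∈ F := (Finset.mem_union.1 hv).resolve_right hvF
          rw [Finset.mem_filter]
          refine ⟨hFW hvF', ?_⟩
          rw [(hpts v hvF').1, ← hvp, h'2 v hvF]
          exact Finset.mem_insert_self _ _
      refine le_trans (Finset.card_le_card hsub) (le_trans (Finset.card_union_le _ _) ?_)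
      have e1 := s1 p
      have e2 := s2 p
      unfold sz at e1
      calc _ ≤ 12 + 6 := by
            refine Nat.add_le_add ?_ ?_
            · convert e1
            · convert e2
        _ = 18 := rfl
  obtain ⟨H, hH1, hH2, hH3⟩ := hK
  refine ⟨H, ?_, hH2, hH3⟩
  intro u hu v hv huv
  apply hH1 u hu v hv
  refine ⟨huv.ne, ?_⟩
  have huW : u ∈ W := by
    rcases Finset.mem_union.1 hu with h | h
    · exact (Finset.mem_sdiff.1 (hFW h)).1
    · exact hFSW h
  have hvW : v ∈ W := by
    rcases Finset.mem_union.1 hv with h | h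
    · exact (Finset.mem_sdiff.1 (hFW h)).1
    · exact hFSW h
  have key : ∀ w ∈ F ∪ FS, w ∈ W → ∀ τ ∈ trs PS nb w, w ∈ τ → lb nb FS LF τ ∈ insert (h' w) (own' w) := by
    intro w hw hwW τ hτ hwτ
    by_cases hwF : w ∈ FS
    · have := l1 w hwW τ hτ w hwτ hwF
      rw [h'1 w hwF]
      unfold lb
      rw [this]
      exact Finset.mem_insert_self _ _
    · have hwF' : w ∈ F := (Finset.mem_union.1 hw).resolve_right hwF
      rw [h'2 w hwF, o'2 w hwF, ← (hpts w hwF').1]
      exact (hP w (hFW hwF')).2.1 τ hτ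
  obtain ⟨p, hp1, hp2⟩ : ∃ p, p ∈ insert (h' u) (own' u) ∧ p ∈ insert (h' v) (own' v) := by
    rcases hS.tri.cov u huW v hvW huv with ⟨τ, hτ, hvτ⟩ | ⟨huP, hvn⟩
    · refine ⟨lb nb FS LF τ, ?_, ?_⟩
      · exact key u hu huW τ hτ (hS.tri.self u huW τ hτ)
      · exact key v hv hvW τ (hS.tri.sym u huW τ hτ v hvτ) hvτ
    · obtain ⟨q1, q2⟩ := hS.loc.par u huW huP
      have huF : u ∉ FS := fun h => huP (hS.cov.sub h)
      have hvP : v ∉ PS := by
        rw [hvn]
        exact q1
      have hvF : v ∉ FS := fun h => hvP (hS.cov.sub h)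
      have hu' : u ∈ F := (Finset.mem_union.1 hu).resolve_right huF
      have hv' : v ∈ F := (Finset.mem_union.1 hv).resolve_right hvF
      refine ⟨ee nb u, ?_, ?_⟩
      · rw [h'2 u huF, o'2 u huF, ← (hpts u hu').1]
        exact (hP u (hFW hu')).2.2.1 huP
      · have e : ee nb u = ee nb v := by
          unfold ee
          rw [hvn, q2, Finset.pair_comm]
        rw [h'2 v hvF, o'2 v hvF, ← (hpts v hv').1, e]
        exact (hP v (hFW hv')).2.2.1 hvP
  rw [Finset.mem_insert] at hp1 hp2
  rcases hp1 with hp1 | hp1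
  · rcases hp2 with hp2 | hp2
    · left
      rw [← hp1, ← hp2]
    · right
      left
      rw [← hp1]
      exact hp2
  · rcases hp2 with hp2 | hp2
    · right
      right
      rw [← hp2]
      exact hp1
    · exact absurd hp2 (Finset.disjoint_left.1 (hdis' u hu v hv huv.ne) hp1)

end Frag.S4
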