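import Pool.Agent.Work.MP_547619_s4.Defs

set_option autoImplicit false

namespace Frag.S4

open SimpleGraph Frag.Kz

lemma LBL_mate {n : ℕ} {G : SimpleGraph (Fin n)} {W PS : Finset (Fin n)}
    {nb : Fin n → Fin 5 → Fin n} {FS LF : Finset (Fin n)} (h : Str G W PS nb FS LF)
    (u : Fin n) (hu : u ∈ FS) : zs nb LF (nb u 0) = zs nb LF u := by
  have h1 := h.cov.alt u hu
  have h2 := (h.loc.mate u (h.cov.sub hu)).2.1
  by_cases hL : u ∈ LF
  · have h3 := h1.1 hL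
    rw [zs, zs, if_neg h3, if_pos hL]
  · have h3 : nb u 0 ∈ LF := by
      by_contra h4
      exact hL (h1.2 h4)
    rw [zs, zs, if_pos h3, if_neg hL, h2]

lemma LBL_eq {n : ℕ} {G : SimpleGraph (Fin n)} {W PS : Finset (Fin n)}
    {nb : Fin n → Fin 5 → Fin n} {FS LF : Finset (Fin n)} (h : Str G W PS nb FS LF)
    (v : Fin n) (hv : v ∈ W) (τ : Finset (Fin n)) (hτ : τ ∈ trs PS nb v)
    (u u' : Fin n) (hu : u ∈ τ) (hu' : u' ∈ τ) (huF : u ∈ FS) (huF' : u' ∈ FS) :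
    zs nb LF u = zs nb LF u' := by
  by_cases hne : u' = u
  · rw [hne]
  have huP : u ∈ PS := h.cov.sub huF
  have huP' : u' ∈ PS := h.cov.sub huF'
  have h1 := h.tri.sym v hv τ hτ u hu
  rw [trs, if_pos huP] at h1
  simp only [Finset.mem_insert, Finset.mem_singleton] at h1
  have hout := h.loc.out u huP
  have hm := LBL_mate h u huF
  rcases h1 with h1 | h1 | h1
  · rw [h1] at hu'
    simp only [ta, Finset.mem_insert, Finset.mem_singleton] at hu'
    rcases hu' with h2 | h2 | h2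
    · exact absurd h2 hne
    · rw [h2, hm]
    · rw [h2] at huP'
      exact absurd huP' hout.1
  · rw [h1] at hu'
    simp only [tb, Finset.mem_insert, Finset.mem_singleton] at hu'
    rcases hu' with h2 | h2 | h2
    · exact absurd h2 hne
    · rw [h2, hm]
    · rw [h2] at huP'
      exact absurd huP' hout.2
  · rw [h1] at hu' hu
    have h2 := h.tri.ctc u huP u' hu' huP'
    have h3 : u ∉ LF := fun hL => hne (h.cov.one u hL u' hu' huF')
    have h4 : u' ∉ LF := fun hL => hne (h.cov.one u' hL u (by rw [h2]; exact hu) huF).symm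
    rw [zs, zs, if_neg h3, if_neg h4, h2]

lemma LBL_one {n : ℕ} {G : SimpleGraph (Fin n)} {W PS : Finset (Fin n)}
    {nb : Fin n → Fin 5 → Fin n} {FS LF : Finset (Fin n)} (h : Str G W PS nb FS LF)
    (v : Fin n) (hv : v ∈ W) (τ : Finset (Fin n)) (hτ : τ ∈ trs PS nb v)
    (u : Fin n) (hu : u ∈ τ) (huF : u ∈ FS) : lbs nb FS LF τ = zs nb LF u := by
  have h1 : ∃ u ∈ τ, u ∈ FS := ⟨u, hu, huF⟩
  rw [lbs, dif_pos h1]
  exact LBL_eq h v hv τ hτ _ _ h1.choose_spec.1 hu h1.choose_spec.2 huF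

lemma LBL_two {n : ℕ} {nb : Fin n → Fin 5 → Fin n} {FS LF : Finset (Fin n)}
    (τ : Finset (Fin n)) (hτ : ∀ u ∈ τ, u ∉ FS) : lbs nb FS LF τ = τ := by
  rw [lbs, dif_neg]
  rintro ⟨u, hu, huF⟩
  exact hτ u hu huF

lemma LBL_three {n : ℕ} {G : SimpleGraph (Fin n)} {W PS : Finset (Fin n)}
    {nb : Fin n → Fin 5 → Fin n} {FS LF : Finset (Fin n)} (h : Str G W PS nb FS LF)
    (u : Fin n) (hu : u ∈ FS) :
    ∃ w ∈ FS, w ∉ LF ∧ zs nb LF u = ct nb w ∧ (u = w ∨ u = nb w 0) := by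
  by_cases hL : u ∈ LF
  · refine ⟨nb u 0, h.cov.mate u hu, (h.cov.alt u hu).1 hL, ?_, Or.inr ?_⟩
    · rw [zs, if_pos hL]
    · rw [(h.loc.mate u (h.cov.sub hu)).2.1]
  · exact ⟨u, hu, hL, by rw [zs, if_neg hL], Or.inl rfl⟩

theorem p_LBL : S_LBL := by
  intro n G W PS nb FS LF h
  refine ⟨LBL_one h, fun τ hτ => LBL_two τ hτ, LBL_three h, ?_, LBL_mate h⟩
  intro v hv τ hτ
  by_cases h1 : ∃ u ∈ τ, u ∈ FS
  · obtain ⟨u, hu, huF⟩ := h1
    obtain ⟨w, hw, _, hz, _⟩ := LBL_three h u huF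
    rw [LBL_one h v hv τ hτ u hu huF, hz]
    have hwP : w ∈ PS := h.cov.sub hw
    refine h.tri.card w (h.loc.sub hwP) (ct nb w) ?_
    rw [trs, if_pos hwP]
    simp
  · rw [LBL_two τ (fun u hu huF => h1 ⟨u, hu, huF⟩)]
    exact h.tri.card v hv τ hτ

end Frag.S4
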