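import Pool.Agent.Work.MP_547619_s4.Defs

set_option autoImplicit false

namespace Frag.S4

open SimpleGraph Frag.Kz

lemma LCC_swap {n : ℕ} {G : SimpleGraph (Fin n)} {W : Finset (Fin n)} {v : Fin n}
    {f : Fin 5 → Fin n} (h : Ty mP G W v f) :
    Ty mP G W v (fun i => f (Equiv.swap 1 2 i)) := by
  refine ⟨?_, fun i => h.mem _, ?_, ?_⟩
  · intro i j hij
    exact (Equiv.swap 1 2).injective (h.inj _ _ hij)
  · intro u hu
    rw [h.nbr u hu]
    constructor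
    · rintro ⟨i, hi⟩
      exact ⟨Equiv.swap 1 2 i, by rw [Equiv.swap_apply_self]; exact hi⟩
    · rintro ⟨i, hi⟩
      exact ⟨_, hi⟩
  · intro i j
    rw [h.adj]
    revert i j
    decide

lemma LCC_sort {n : ℕ} {G : SimpleGraph (Fin n)} {W : Finset (Fin n)} {v : Fin n}
    (h : ∃ f, Ty mP G W v f) : ∃ f, Ty mP G W v f ∧ f 1 < f 2 := by
  obtain ⟨f, hf⟩ := h
  rcases lt_trichotomy (f 1) (f 2) with h1 | h1 | h1
  · exact ⟨f, hf, h1⟩
  · exact absurd (hf.inj _ _ h1) (by decide)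
  · refine ⟨_, LCC_swap hf, ?_⟩
    have e1 : Equiv.swap (1 : Fin 5) 2 1 = 2 := by decide
    have e2 : Equiv.swap (1 : Fin 5) 2 2 = 1 := by decide
    show f (Equiv.swap 1 2 1) < f (Equiv.swap 1 2 2)
    rw [e1, e2]
    exact h1

lemma LCC_adj {n : ℕ} {m : Fin 5 → Fin 5 → Prop} {G : SimpleGraph (Fin n)}
    {W : Finset (Fin n)} {v : Fin n} {f : Fin 5 → Fin n} (h : Ty m G W v f) (i : Fin 5) :
    G.Adj v (f i) := (h.nbr (f i) (h.mem i)).2 ⟨i, rfl⟩

theorem p_LCC (hTYP : S_TYP) (hST6 : S_ST6) : S_LCC := by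
  classical
  intro n k G W hk hT
  obtain ⟨PS, hPS⟩ : ∃ PS : Finset (Fin n), ∀ v, v ∈ PS ↔ v ∈ W ∧ ∃ f, Ty mP G W v f :=
    ⟨W.filter (fun v => ∃ f, Ty mP G W v f), fun v => Finset.mem_filter⟩
  have hch : ∀ v : Fin n, ∃ f : Fin 5 → Fin n, (v ∈ PS → Ty mP G W v f ∧ f 1 < f 2) ∧
      (v ∈ W → v ∉ PS → Ty mM G W v f) := by
    intro v
    by_cases hv : v ∈ PS
    · obtain ⟨f, hf⟩ := LCC_sort ((hPS v).1 hv).2
      exact ⟨f, fun _ => hf, fun _ h => absurd hv h⟩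
    · by_cases hW : v ∈ W
      · obtain ⟨f, hf | hf⟩ := hTYP n k G W hk hT v hW
        · exact ⟨f, fun h => absurd h hv, fun _ _ => hf⟩
        · exact absurd ((hPS v).2 ⟨hW, f, hf⟩) hv
      · exact ⟨fun _ => v, fun h => absurd h hv, fun h => absurd h hW⟩
  choose nb hnb using hch
  have hP : ∀ v ∈ PS, Ty mP G W v (nb v) := fun v hv => ((hnb v).1 hv).1
  have hlt : ∀ v ∈ PS, nb v 1 < nb v 2 := fun v hv => ((hnb v).1 hv).2
  have hM : ∀ v ∈ W, v ∉ PS → Ty mM G W v (nb v) := fun v => (hnb v).2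
  have hsub : ∀ v ∈ PS, v ∈ W := fun v hv => ((hPS v).1 hv).1
  refine ⟨PS, nb, fun v hv => hsub v hv, hM, hP, ?_, ?_, ?_⟩
  · intro v hv
    have hf := hP v hv
    have hvW := hsub v hv
    have hcW : nb v 0 ∈ W := hf.mem 0
    have hcv : G.Adj (nb v 0) v := (LCC_adj hf 0).symm
    have hca : G.Adj (nb v 0) (nb v 1) := (hf.adj 0 1).2 (by decide)
    have hcb : G.Adj (nb v 0) (nb v 2) := (hf.adj 0 2).2 (by decide)
    have hva : G.Adj v (nb v 1) := LCC_adj hf 1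
    have hvb : G.Adj v (nb v 2) := LCC_adj hf 2
    have hab : nb v 1 ≠ nb v 2 := (hlt v hv).ne
    have key : ∀ (m : Fin 5 → Fin 5 → Prop) (h : Fin 5 → Fin n), Ty m G W (nb v 0) h →
        ∃ i j l, h i = v ∧ h j = nb v 1 ∧ h l = nb v 2 ∧ m i j ∧ m i l ∧ j ≠ l := by
      intro m h hh
      obtain ⟨i, hi⟩ := (hh.nbr v hvW).1 hcv
      obtain ⟨j, hj⟩ := (hh.nbr _ (hf.mem 1)).1 hca
      obtain ⟨l, hl⟩ := (hh.nbr _ (hf.mem 2)).1 hcb
      refine ⟨i, j, l, hi, hj, hl, ?_, ?_, ?_⟩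
      · rw [← hh.adj, hi, hj]
        exact hva
      · rw [← hh.adj, hi, hl]
        exact hvb
      · rintro rfl
        exact hab (hj.symm.trans hl)
    have hcP : nb v 0 ∈ PS := by
      obtain ⟨h, hh | hh⟩ := hTYP n k G W hk hT (nb v 0) hcW
      · obtain ⟨i, j, l, _, _, _, h1, h2, h3⟩ := key mM h hh
        exact absurd h3 (by
          have h4 : ∀ i j l : Fin 5, mM i j → mM i l → j = l := by decide
          exact not_not.2 (h4 i j l h1 h2))
      · exact (hPS _).2 ⟨hcW, h, hh⟩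
    obtain ⟨i, j, l, hi, hj, hl, h1, h2, h3⟩ := key mP (nb (nb v 0)) (hP _ hcP)
    have h4 : ∀ i j l : Fin 5, mP i j → mP i l → j ≠ l →
        i = 0 ∧ (j = 1 ∧ l = 2 ∨ j = 2 ∧ l = 1) := by decide
    obtain ⟨h5, h6⟩ := h4 i j l h1 h2 h3
    subst h5
    refine ⟨hcP, hi, ?_⟩
    rcases h6 with ⟨h6, h7⟩ | ⟨h6, h7⟩
    · subst h6 h7
      exact ⟨hj, hl⟩
    · subst h6 h7
      have h8 := hlt _ hcP
      rw [hj, hl] at h8
      exact absurd (hlt v hv) (not_lt.2 h8.le)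
  · intro v hv
    have hf := hP v hv
    have hvW := hsub v hv
    constructor
    · intro h
      obtain ⟨_, g, hg⟩ := (hPS _).1 h
      exact hST6 n k G W hk hT v hvW (nb v) hf g hg
    · intro h
      obtain ⟨_, g, hg⟩ := (hPS _).1 h
      have h1 := hST6 n k G W hk hT v hvW _ (LCC_swap hf) g
      have e1 : Equiv.swap (1 : Fin 5) 2 1 = 2 := by decide
      have h2 : ¬ Ty mP G W (nb v (Equiv.swap 1 2 1)) g := h1
      rw [e1] at h2
      exact h2 hg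
  · intro v hvW hv
    have hf := hM v hvW hv
    have huW : nb v 0 ∈ W := hf.mem 0
    have huv : G.Adj (nb v 0) v := (LCC_adj hf 0).symm
    have hno : ∀ w ∈ W, G.Adj v w → ¬ G.Adj (nb v 0) w := by
      intro w hw h1 h2
      obtain ⟨j, hj⟩ := (hf.nbr w hw).1 h1
      rw [← hj, hf.adj] at h2
      have h3 : ∀ j : Fin 5, ¬ mM 0 j := by decide
      exact h3 j h2
    have key : ∀ (m : Fin 5 → Fin 5 → Prop), Ty m G W (nb v 0) (nb (nb v 0)) →
        ∃ i, nb (nb v 0) i = v ∧ ∀ j, ¬ m i j := by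
      intro m hm
      obtain ⟨i, hi⟩ := (hm.nbr v hvW).1 huv
      refine ⟨i, hi, fun j hj => ?_⟩
      rw [← hm.adj, hi] at hj
      exact hno _ (hm.mem j) hj (LCC_adj hm j)
    have huP : nb v 0 ∉ PS := by
      intro h
      obtain ⟨i, _, h1⟩ := key mP (hP _ h)
      have h2 : ∀ i : Fin 5, ∃ j, mP i j := by decide
      obtain ⟨j, hj⟩ := h2 i
      exact h1 j hj
    refine ⟨huP, ?_⟩
    obtain ⟨i, hi, h1⟩ := key mM (hM _ huW huP)
    have h2 : ∀ i : Fin 5, i = 0 ∨ ∃ j, mM i j := by decide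
    rcases h2 i with h3 | ⟨j, hj⟩
    · rw [h3] at hi
      exact hi
    · exact absurd hj (h1 j)

end Frag.S4
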