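import Pool.Agent.Work.MP_547619_s4.Defs

/-!
# MP_547619_co, THEOREM S4, block LOK: the Krausz class is contained in the class
-/

set_option autoImplicit false

namespace Frag.S4

open SimpleGraph Frag.Kz

theorem p_LOK : S_LOK := by
  classical
  intro n G hk v s hs hadj
  obtain ⟨Q, hQ1, hQ2, hQ3⟩ := hk
  have hq : ∀ x : Fin n, ∃ q : Finset (Fin n), x ∈ s → q ∈ Q ∧ v ∈ q ∧ x ∈ q := by
    intro x
    by_cases hx : x ∈ s
    · obtain ⟨q, hq, -⟩ := hQ2 v x (hadj x hx)
      exact ⟨q, fun _ => hq⟩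
    · exact ⟨∅, fun h => absurd h hx⟩
  choose q hq using hq
  have hcard : (Q.filter (fun q => v ∈ q)).card < s.card := by
    have := hQ3 v
    omega
  obtain ⟨x, hx, y, hy, hne, hxy⟩ := Finset.exists_ne_map_eq_of_card_lt_of_maps_to hcard
    (f := q) (fun x hx => by
      have := hq x hx
      simp [this.1, this.2.1])
  refine ⟨x, hx, y, hy, hQ1 (q x) (hq x hx).1 x (hq x hx).2.2 y ?_ hne⟩
  rw [hxy]
  exact (hq y hy).2.2

end Frag.S4
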