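import Pool.Agent.Work.MP_547619_s4.Defs

/-! # Block MTG (S4): the matching of the points, abstract form -/

set_option autoImplicit false

namespace Frag.S4

open SimpleGraph Frag.Kz

theorem p_MTG (hTUT : S_TUT) : S_MTG := by
  classical
  intro n L b B W pt hL hBAR
  set A := PW W pt with hA
  have hbB : b ≤ B := by
    have h := hBAR ∅ ∅ (by simp) (by simp) (by simp)
    simpa using h
  obtain ⟨Y, hYe⟩ := Nat.exists_eq_add_of_le hbB
  -- the defect
  have hmain : ∀ (U : Finset ℕ) (CC : Finset (Finset ℕ)), U ⊆ A →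
      (∀ C ∈ CC, C ⊆ A ∧ Disjoint C U ∧ Odd C.card ∧ ∀ x ∈ C, ∀ y ∈ A, x ≠ y →
        (∃ v ∈ W, x ∈ pt v ∧ y ∈ pt v) → y ∈ C ∨ y ∈ U) →
      (∀ C ∈ CC, ∀ C' ∈ CC, C ≠ C' → Disjoint C C') →
      CC.card ≤ U.card + (Y / 12 + A.card / L) := by
    intro U CC hU hCC hdis
    have hsplit := Finset.card_filter_add_card_filter_not (s := CC)
      (fun C : Finset ℕ => C.card ≤ L)
    -- small components
    have hsm : (CC.filter (fun C : Finset ℕ => C.card ≤ L)).card ≤ U.card + Y / 12 := by
      have h := hBAR U (CC.filter (fun C : Finset ℕ => C.card ≤ L)) hU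
        (by
          intro C hC
          rw [Finset.mem_filter] at hC
          obtain ⟨h1, h2, h3, h4⟩ := hCC C hC.1
          refine ⟨h1, h2, ?_, h3, hC.2⟩
          rintro v hv ⟨p, hp, hpC⟩ q hq
          by_cases hpq : p = q
          · left; rw [← hpq]; exact hpC
          · exact h4 p hpC q (Finset.mem_biUnion.2 ⟨v, hv, hq⟩) hpq ⟨v, hv, hp, hq⟩)
        (by
          intro C hC C' hC' hne
          exact hdis C (Finset.mem_filter.1 hC).1 C' (Finset.mem_filter.1 hC').1 hne)
      omega
    -- large components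
    have hlg : (CC.filter (fun C : Finset ℕ => ¬ C.card ≤ L)).card ≤ A.card / L := by
      rw [Nat.le_div_iff_mul_le (by omega)]
      set D := CC.filter (fun C : Finset ℕ => ¬ C.card ≤ L) with hD
      have h1 : (D.biUnion id).card = ∑ C ∈ D, C.card := by
        apply Finset.card_biUnion
        intro C hC C' hC' hne
        exact hdis C (Finset.mem_filter.1 hC).1 C' (Finset.mem_filter.1 hC').1 hne
      have h2 : (D.biUnion id).card ≤ A.card := by
        apply Finset.card_le_card
        intro x hx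
        rw [Finset.mem_biUnion] at hx
        obtain ⟨C, hC, hx⟩ := hx
        exact (hCC C (Finset.mem_filter.1 hC).1).1 hx
      have h3 : D.card * L ≤ ∑ C ∈ D, C.card := by
        rw [← smul_eq_mul]
        apply Finset.card_nsmul_le_sum
        intro C hC
        have h4 := (Finset.mem_filter.1 hC).2
        omega
      omega
    omega
  -- parity
  obtain ⟨k, hk1, hk2, hkev⟩ : ∃ k, Y / 12 + A.card / L ≤ k ∧ k ≤ Y / 12 + A.card / L + 1 ∧
      Even (A.card + k) := by
    by_cases h : Even (A.card + (Y / 12 + A.card / L))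
    · exact ⟨_, le_rfl, Nat.le_succ _, h⟩
    · refine ⟨Y / 12 + A.card / L + 1, Nat.le_succ _, le_rfl, ?_⟩
      rw [Nat.not_even_iff_odd] at h
      have := h.add_one
      rwa [add_assoc] at this
  obtain ⟨f, hf, hfix⟩ := hTUT A (fun x y => ∃ v ∈ W, x ∈ pt v ∧ y ∈ pt v) k
    (by rintro x y ⟨v, hv, hx, hy⟩; exact ⟨v, hv, hy, hx⟩) hkev
    (by
      intro U CC hU hCC hdis
      exact (hmain U CC hU hCC hdis).trans (Nat.add_le_add_left hk1 _))
  refine ⟨f, hf, ?_⟩
  set F := (A.filter (fun x => f x = x)).card with hF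
  have h1 : F ≤ Y / 12 + A.card / L + 1 := hfix.trans hk2
  have h2 : 12 * (Y / 12) ≤ Y := Nat.mul_div_le _ _
  generalize A.card / L = q at h1 ⊢
  omega

end Frag.S4
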