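import Pool.Agent.Work.MP_547619_s4.Defs

set_option autoImplicit false

namespace Frag.S4

open SimpleGraph Frag.Kz

lemma NBT_in {n : ℕ} {W PS : Finset (Fin n)} {nb : Fin n → Fin 5 → Fin n} {FS LF : Finset (Fin n)} {C : Finset ℕ}
    {u : Fin n} {p : ℕ} (hu : u ∈ W \ FS) (hp : p ∈ pts PS nb FS LF u) (hC : p ∈ C) :
    u ∈ TT W PS nb FS LF C ∪ XX W PS nb FS LF C := by
  have hZ : u ∈ ZZ W PS nb FS LF C := by
    unfold ZZ
    rw [Finset.mem_filter]
    exact ⟨hu, p, Finset.mem_inter.mpr ⟨hp, hC⟩⟩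
  by_cases h : u ∈ T0 W PS nb FS LF C
  · exact Finset.mem_union_left _ (Finset.mem_union_left _ h)
  · exact Finset.mem_union_right _ (Finset.mem_sdiff.mpr ⟨hZ, h⟩)

theorem p_NBT (h1 : S_LBL) (h2 : S_PTC) : S_NBT := by
  intro n G W PS nb FS LF hS C
  obtain ⟨L1, L2, L3, L4, L5⟩ := h1 n G W PS nb FS LF hS
  have P := h2 n G W PS nb FS LF hS
  obtain ⟨hloc, htri, hcov⟩ := hS
  have hFW : FS ⊆ W := hcov.sub.trans hloc.sub
  have hT0 : T0 W PS nb FS LF C ⊆ W \ FS := Finset.filter_subset _ _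
  have hT1 : T1 nb FS LF C ⊆ FS := Finset.filter_subset _ _
  have hTW : TT W PS nb FS LF C ⊆ W :=
    Finset.union_subset (hT0.trans Finset.sdiff_subset) (hT1.trans hFW)
  have hXW : XX W PS nb FS LF C ⊆ W \ FS := by
    intro y hy
    have hy' := (Finset.mem_sdiff.mp hy).1
    exact (Finset.mem_filter.mp hy').1
  have A : ∀ v ∈ W, ∀ τ ∈ trs PS nb v, lb nb FS LF τ ∈ C → ∀ u ∈ τ,
      u ∈ TT W PS nb FS LF C ∪ XX W PS nb FS LF C := by
    intro v hv τ hτ hC u hu
    have huW : u ∈ W := htri.sub v hv τ hτ hu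
    by_cases hF : u ∈ FS
    · have hl := L1 v hv τ hτ u hu hF
      refine Finset.mem_union_left _ (Finset.mem_union_right _ ?_)
      unfold T1
      rw [Finset.mem_filter]
      refine ⟨hF, ?_⟩
      rw [← hl]
      exact hC
    · have hu' : u ∈ W \ FS := Finset.mem_sdiff.mpr ⟨huW, hF⟩
      exact NBT_in hu' ((P u hu').2.1 τ (htri.sym v hv τ hτ u hu)) hC
  have B : ∀ v ∈ W, v ∉ PS → ee nb v ∈ C → v ∈ TT W PS nb FS LF C ∪ XX W PS nb FS LF C ∧
      nb v 0 ∈ TT W PS nb FS LF C ∪ XX W PS nb FS LF C := by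
    intro v hv hP hC
    have hv' : v ∈ W \ FS := Finset.mem_sdiff.mpr ⟨hv, fun h => hP (hcov.sub h)⟩
    obtain ⟨q1, q2⟩ := hloc.par v hv hP
    have hw : nb v 0 ∈ W := (hloc.tyM v hv hP).mem 0
    have hw' : nb v 0 ∈ W \ FS := Finset.mem_sdiff.mpr ⟨hw, fun h => q1 (hcov.sub h)⟩
    have he : ee nb (nb v 0) = ee nb v := by
      unfold ee
      rw [q2, Finset.pair_comm]
    refine ⟨NBT_in hv' ((P v hv').2.2.1 hP) hC, NBT_in hw' ((P _ hw').2.2.1 q1) ?_⟩
    rw [he]
    exact hC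
  refine ⟨A, B, ?_, hTW, hXW.trans Finset.sdiff_subset, ?_⟩
  · intro t ht u hu hadj
    have htW := hTW ht
    rcases htri.cov t htW u hu hadj with ⟨τ, hτ, huτ⟩ | ⟨hP, hun⟩
    · refine A t htW τ hτ ?_ u huτ
      rcases Finset.mem_union.mp ht with ht | ht
      · have := Finset.mem_filter.mp ht
        exact this.2 ((P t this.1).2.1 τ hτ)
      · have := Finset.mem_filter.mp ht
        have hl := L1 t htW τ hτ t (htri.self t htW τ hτ) this.1
        unfold lb
        rw [hl]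
        exact this.2
    · rw [hun]
      refine (B t htW hP ?_).2
      rcases Finset.mem_union.mp ht with ht | ht
      · have := Finset.mem_filter.mp ht
        exact this.2 ((P t this.1).2.2.1 hP)
      · exact absurd (hcov.sub (hT1 ht)) hP
  · rw [Finset.disjoint_left]
    intro y hy hy'
    rcases Finset.mem_union.mp hy with h | h
    · exact (Finset.mem_sdiff.mp hy').2 h
    · exact (Finset.mem_sdiff.mp (hXW hy')).2 (hT1 h)

end Frag.S4
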