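import Pool.Agent.Work.MP_547619_s4.Defs

/-!
# Block PRT of THEOREM S4 (MP_547619_co)

Double counting of triangle points at twins and at single vertices, and three parity facts.
-/

set_option autoImplicit false

namespace Frag.S4

open SimpleGraph Frag.Kz

lemma PRT_j0_le {n : ℕ} (nb : Fin n → Fin 5 → Fin n) (FS LF : Finset (Fin n)) (C : Finset ℕ)
    (τ : Finset (Fin n)) : j0 nb FS LF C τ ≤ 1 := by
  unfold j0; split_ifs <;> omega

lemma PRT_e0_le {n : ℕ} (nb : Fin n → Fin 5 → Fin n) (C : Finset ℕ) (x : Fin n) :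
    e0 nb C x ≤ 1 := by
  unfold e0; split_ifs <;> omega

/-- A finite set with an involution without fixed points has an even number of elements. -/
lemma PRT_even {α : Type} [DecidableEq α] (s : Finset α) (g : α → α)
    (h1 : ∀ a ∈ s, g a ∈ s) (h2 : ∀ a ∈ s, g a ≠ a) (h3 : ∀ a ∈ s, g (g a) = a) :
    Even s.card := by
  have h : ∑ _x ∈ s, (1 : ZMod 2) = 0 := by
    apply Finset.sum_involution (fun a _ => g a)
    · intro a _
      decide
    · intro a ha _
      exact h2 a ha
    · intro a ha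
      exact h1 a ha
    · intro a ha
      exact h3 a ha
  rw [Finset.sum_const, nsmul_eq_mul, mul_one] at h
  exact (ZMod.natCast_eq_zero_iff_even).1 h

/-- Sum of `j0` over two triangles as the number of pairs. -/
lemma PRT_cnt {n : ℕ} (A : Finset (Fin n)) (P : Finset (Fin n) → Prop) [DecidablePred P]
    (f g : Fin n → Finset (Fin n)) :
    ((A ×ˢ (Finset.univ : Finset Bool)).filter
      (fun p => P (if p.2 = true then f p.1 else g p.1))).card =
    ∑ x ∈ A, ((if P (f x) then 1 else 0) + (if P (g x) then 1 else 0)) := by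
  rw [Finset.card_filter, Finset.sum_product]
  refine Finset.sum_congr rfl fun x _ => ?_
  rw [Fintype.sum_bool]
  simp

lemma PRT_dbl {n : ℕ} (G : SimpleGraph (Fin n)) (W PS : Finset (Fin n))
    (nb : Fin n → Fin 5 → Fin n) (FS LF : Finset (Fin n)) (hS : Str G W PS nb FS LF)
    (C : Finset ℕ) :
    ∑ x ∈ PS \ FS, (j0 nb FS LF C (ta nb x) + j0 nb FS LF C (tb nb x)) ≤
    2 * ∑ x ∈ W \ PS, (j0 nb FS LF C (t1 nb x) + j0 nb FS LF C (ct nb x)) := by
  classical
  obtain ⟨hL, hT, hC⟩ := hS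
  set P : Finset (Fin n) → Prop := fun τ => lb nb FS LF τ ∈ C with hP
  have e1 := PRT_cnt (PS \ FS) P (ta nb) (tb nb)
  have e2 := PRT_cnt (W \ PS) P (t1 nb) (ct nb)
  set s := (((PS \ FS) ×ˢ (Finset.univ : Finset Bool)).filter
      (fun p => P (if p.2 = true then ta nb p.1 else tb nb p.1))) with hs
  set u := (((W \ PS) ×ˢ (Finset.univ : Finset Bool)).filter
      (fun p => P (if p.2 = true then t1 nb p.1 else ct nb p.1))) with hu
  have e1' : s.card = ∑ x ∈ PS \ FS, (j0 nb FS LF C (ta nb x) + j0 nb FS LF C (tb nb x)) := by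
    rw [e1]
    refine Finset.sum_congr rfl fun x _ => ?_
    unfold j0
    simp only [hP]
  have e2' : u.card = ∑ x ∈ W \ PS, (j0 nb FS LF C (t1 nb x) + j0 nb FS LF C (ct nb x)) := by
    rw [e2]
    refine Finset.sum_congr rfl fun x _ => ?_
    unfold j0
    simp only [hP]
  rw [← e1', ← e2']
  let g : Fin n × Bool → Fin n × Finset (Fin n) := fun p =>
    (p.1, if p.2 = true then t1 nb p.1 else ct nb p.1)
  let f : Fin n × Bool → Fin n × Finset (Fin n) := fun p =>
    (if p.2 = true then nb p.1 1 else nb p.1 2, if p.2 = true then ta nb p.1 else tb nb p.1)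
  have hle : (u.image g).card ≤ u.card := Finset.card_image_le
  refine le_trans ?_ (Nat.mul_le_mul_left 2 hle)
  apply Finset.card_le_mul_card_image_of_maps_to (f := f)
  · -- maps to
    rintro ⟨x, b⟩ hxb
    simp only [hs, Finset.mem_filter, Finset.mem_product, Finset.mem_sdiff, Finset.mem_univ,
      and_true] at hxb
    obtain ⟨⟨hxP, hxF⟩, hx⟩ := hxb
    have hxW : x ∈ W := hL.sub hxP
    have key : ∀ (o : Fin n) (τ : Finset (Fin n)), o ∉ PS → o ∈ W → τ ∈ trs PS nb x → o ∈ τ →
        P τ → (o, τ) ∈ u.image g := by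
      intro o τ ho hoW hτ hoτ hPτ
      have h1 := hT.sym x hxW τ hτ o hoτ
      rw [trs, if_neg ho] at h1
      rw [Finset.mem_image]
      rcases Finset.mem_insert.1 h1 with h2 | h2
      · refine ⟨(o, true), ?_, ?_⟩
        · simp only [hu, Finset.mem_filter, Finset.mem_product, Finset.mem_sdiff,
            Finset.mem_univ, and_true, if_true]
          exact ⟨⟨hoW, ho⟩, h2 ▸ hPτ⟩
        · simp only [g, if_true, h2]
      · rw [Finset.mem_singleton] at h2
        refine ⟨(o, false), ?_, ?_⟩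
        · simp only [hu, Finset.mem_filter, Finset.mem_product, Finset.mem_sdiff,
            Finset.mem_univ, and_true, Bool.false_eq_true, if_false]
          exact ⟨⟨hoW, ho⟩, h2 ▸ hPτ⟩
        · simp only [g, Bool.false_eq_true, if_false, h2]
    have htr : trs PS nb x = {ta nb x, tb nb x, ct nb x} := by rw [trs, if_pos hxP]
    cases b with
    | true =>
      simp only [if_true] at hx
      simp only [f, if_true]
      refine key _ _ (hL.out x hxP).1 ((hL.tyP x hxP).mem 1) ?_ ?_ hx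
      · rw [htr]; simp
      · simp [ta]
    | false =>
      simp only [Bool.false_eq_true, if_false] at hx
      simp only [f, Bool.false_eq_true, if_false]
      refine key _ _ (hL.out x hxP).2 ((hL.tyP x hxP).mem 2) ?_ ?_ hx
      · rw [htr]; simp
      · simp [tb]
  · -- fibres
    rintro ⟨o, τ⟩ hq
    rw [Finset.mem_image] at hq
    obtain ⟨⟨o', b'⟩, hq1, hq2⟩ := hq
    simp only [hu, Finset.mem_filter, Finset.mem_product, Finset.mem_sdiff, Finset.mem_univ,
      and_true] at hq1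
    obtain ⟨⟨hoW, hoP⟩, _⟩ := hq1
    simp only [g, Prod.mk.injEq] at hq2
    obtain ⟨hoo, hττ⟩ := hq2
    subst hoo
    have hτtr : τ ∈ trs PS nb o' := by
      rw [trs, if_neg hoP, ← hττ]
      cases b' <;> simp
    have ho : o' ∈ τ := hT.self o' hoW τ hτtr
    have hc : (τ.erase o').card = 2 := by
      rw [Finset.card_erase_of_mem ho, hT.card o' hoW τ hτtr]
    rw [← hc]
    apply Finset.card_le_card_of_injOn Prod.fst
    · rintro ⟨x, b⟩ hx
      simp only [Finset.coe_filter, Set.mem_setOf_eq, hs, Finset.mem_filter, Finset.mem_product,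
        Finset.mem_sdiff, Finset.mem_univ, and_true, f, Prod.mk.injEq] at hx
      obtain ⟨⟨⟨hxP, _⟩, _⟩, _, hxτ⟩ := hx
      simp only [Finset.coe_erase, Set.mem_diff, Finset.mem_coe, Set.mem_singleton_iff]
      refine ⟨?_, ?_⟩
      · rw [← hxτ]
        cases b <;> simp [ta, tb]
      · rintro rfl
        exact hoP hxP
    · rintro ⟨x, b⟩ hx ⟨y, b2⟩ hy hxy
      simp only at hxy
      subst hxy
      simp only [Finset.coe_filter, Set.mem_setOf_eq, hs, Finset.mem_filter, Finset.mem_product,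
        Finset.mem_sdiff, Finset.mem_univ, and_true, f, Prod.mk.injEq] at hx hy
      obtain ⟨⟨⟨hxP, _⟩, _⟩, _, hxτ⟩ := hx
      obtain ⟨_, _, hyτ⟩ := hy
      have hne := (hT.neP x hxP).1
      cases b <;> cases b2
      · rfl
      · exfalso
        simp only [Bool.false_eq_true, if_false, if_true] at hxτ hyτ
        exact hne (hyτ.trans hxτ.symm)
      · exfalso
        simp only [Bool.false_eq_true, if_false, if_true] at hxτ hyτ
        exact hne (hxτ.trans hyτ.symm)
      · rfl

lemma PRT_sumP {n : ℕ} (PS : Finset (Fin n))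
    (nb : Fin n → Fin 5 → Fin n) (FS LF : Finset (Fin n)) (C : Finset ℕ) :
    2 * (pc PS nb FS LF C 2 1 + pc PS nb FS LF C 2 0) + pc PS nb FS LF C 1 1 +
      pc PS nb FS LF C 1 0 =
    ∑ x ∈ PS \ FS, (j0 nb FS LF C (ta nb x) + j0 nb FS LF C (tb nb x)) := by
  unfold pc
  rw [Finset.card_filter, Finset.card_filter, Finset.card_filter, Finset.card_filter,
    ← Finset.sum_add_distrib, Finset.mul_sum, ← Finset.sum_add_distrib, ← Finset.sum_add_distrib]
  refine Finset.sum_congr rfl fun x _ => ?_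
  have h1 := PRT_j0_le nb FS LF C (ta nb x)
  have h2 := PRT_j0_le nb FS LF C (tb nb x)
  have h3 := PRT_j0_le nb FS LF C (ct nb x)
  generalize j0 nb FS LF C (ta nb x) = a at *
  generalize j0 nb FS LF C (tb nb x) = b at *
  generalize j0 nb FS LF C (ct nb x) = c at *
  interval_cases a <;> interval_cases b <;> interval_cases c <;> simp

lemma PRT_sumM {n : ℕ} (W PS : Finset (Fin n))
    (nb : Fin n → Fin 5 → Fin n) (FS LF : Finset (Fin n)) (C : Finset ℕ) :
    2 * mc W PS nb FS LF C 1 2 + 2 * mc W PS nb FS LF C 0 2 +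
      mc W PS nb FS LF C 1 1 + mc W PS nb FS LF C 0 1 =
    ∑ x ∈ W \ PS, (j0 nb FS LF C (t1 nb x) + j0 nb FS LF C (ct nb x)) := by
  unfold mc
  rw [Finset.card_filter, Finset.card_filter, Finset.card_filter, Finset.card_filter,
    Finset.mul_sum, Finset.mul_sum, ← Finset.sum_add_distrib, ← Finset.sum_add_distrib,
    ← Finset.sum_add_distrib]
  refine Finset.sum_congr rfl fun x _ => ?_
  have h1 := PRT_j0_le nb FS LF C (t1 nb x)
  have h2 := PRT_j0_le nb FS LF C (ct nb x)
  have h3 := PRT_e0_le nb C x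
  generalize j0 nb FS LF C (t1 nb x) = a at *
  generalize j0 nb FS LF C (ct nb x) = b at *
  generalize e0 nb C x = c at *
  interval_cases a <;> interval_cases b <;> interval_cases c <;> simp

lemma PRT_evM {n : ℕ} (G : SimpleGraph (Fin n)) (W PS : Finset (Fin n))
    (nb : Fin n → Fin 5 → Fin n) (FS LF : Finset (Fin n)) (hS : Str G W PS nb FS LF)
    (C : Finset ℕ) :
    Even (mc W PS nb FS LF C 1 2 + mc W PS nb FS LF C 1 1 + mc W PS nb FS LF C 1 0) := by
  classical
  have e : mc W PS nb FS LF C 1 2 + mc W PS nb FS LF C 1 1 + mc W PS nb FS LF C 1 0 =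
      ((W \ PS).filter (fun x => ee nb x ∈ C)).card := by
    unfold mc
    rw [Finset.card_filter, Finset.card_filter, Finset.card_filter, Finset.card_filter,
      ← Finset.sum_add_distrib, ← Finset.sum_add_distrib]
    refine Finset.sum_congr rfl fun x _ => ?_
    have h1 := PRT_j0_le nb FS LF C (t1 nb x)
    have h2 := PRT_j0_le nb FS LF C (ct nb x)
    have h3 : e0 nb C x = if ee nb x ∈ C then 1 else 0 := rfl
    generalize j0 nb FS LF C (t1 nb x) = a at *
    generalize j0 nb FS LF C (ct nb x) = b at *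
    rw [h3]
    by_cases hx : ee nb x ∈ C
    · interval_cases a <;> interval_cases b <;> simp [hx]
    · interval_cases a <;> interval_cases b <;> simp [hx]
  rw [e]
  obtain ⟨hL, hT, hC⟩ := hS
  apply PRT_even _ (fun x => nb x 0)
  · intro x hx
    rw [Finset.mem_filter, Finset.mem_sdiff] at hx ⊢
    obtain ⟨⟨hW, hP⟩, hx⟩ := hx
    obtain ⟨h1, h2⟩ := hL.par x hW hP
    refine ⟨⟨(hL.tyM x hW hP).mem 0, h1⟩, ?_⟩
    unfold ee at hx ⊢
    rw [h2, Finset.pair_comm]
    exact hx
  · intro x hx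
    rw [Finset.mem_filter, Finset.mem_sdiff] at hx
    obtain ⟨⟨hW, hP⟩, hx⟩ := hx
    have hadj : G.Adj x (nb x 0) :=
      ((hL.tyM x hW hP).nbr _ ((hL.tyM x hW hP).mem 0)).2 ⟨0, rfl⟩
    exact hadj.ne'
  · intro x hx
    rw [Finset.mem_filter, Finset.mem_sdiff] at hx
    obtain ⟨⟨hW, hP⟩, hx⟩ := hx
    exact (hL.par x hW hP).2

lemma PRT_evP {n : ℕ} (G : SimpleGraph (Fin n)) (W PS : Finset (Fin n))
    (nb : Fin n → Fin 5 → Fin n) (FS LF : Finset (Fin n)) (hS : Str G W PS nb FS LF)
    (C : Finset ℕ) :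
    Even (pc PS nb FS LF C 2 1 + pc PS nb FS LF C 2 0) := by
  classical
  have e : pc PS nb FS LF C 2 1 + pc PS nb FS LF C 2 0 =
      ((PS \ FS).filter (fun x => lb nb FS LF (ta nb x) ∈ C ∧ lb nb FS LF (tb nb x) ∈ C)).card := by
    unfold pc
    rw [Finset.card_filter, Finset.card_filter, Finset.card_filter, ← Finset.sum_add_distrib]
    refine Finset.sum_congr rfl fun x _ => ?_
    have h3 := PRT_j0_le nb FS LF C (ct nb x)
    have h1 : j0 nb FS LF C (ta nb x) = if lb nb FS LF (ta nb x) ∈ C then 1 else 0 := rfl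
    have h2 : j0 nb FS LF C (tb nb x) = if lb nb FS LF (tb nb x) ∈ C then 1 else 0 := rfl
    generalize j0 nb FS LF C (ct nb x) = c at *
    rw [h1, h2]
    by_cases hx : lb nb FS LF (ta nb x) ∈ C
    · by_cases hy : lb nb FS LF (tb nb x) ∈ C
      · interval_cases c <;> simp [hx, hy]
      · interval_cases c <;> simp [hx, hy]
    · by_cases hy : lb nb FS LF (tb nb x) ∈ C
      · interval_cases c <;> simp [hx, hy]
      · interval_cases c <;> simp [hx, hy]
  rw [e]
  obtain ⟨hL, hT, hC⟩ := hS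
  apply PRT_even _ (fun x => nb x 0)
  · intro x hx
    rw [Finset.mem_filter, Finset.mem_sdiff] at hx ⊢
    obtain ⟨⟨hP, hF⟩, hx⟩ := hx
    obtain ⟨h1, h2, h3, h4⟩ := hL.mate x hP
    obtain ⟨h5, h6⟩ := hT.mat x hP
    refine ⟨⟨h1, ?_⟩, ?_⟩
    · intro h
      apply hF
      have := hC.mate _ h
      rwa [h2] at this
    · rw [h5, h6]
      exact hx
  · intro x hx
    rw [Finset.mem_filter, Finset.mem_sdiff] at hx
    obtain ⟨⟨hP, hF⟩, hx⟩ := hx
    have hadj : G.Adj x (nb x 0) :=
      ((hL.tyP x hP).nbr _ ((hL.tyP x hP).mem 0)).2 ⟨0, rfl⟩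
    exact hadj.ne'
  · intro x hx
    rw [Finset.mem_filter, Finset.mem_sdiff] at hx
    obtain ⟨⟨hP, hF⟩, hx⟩ := hx
    exact (hL.mate x hP).2.1

theorem p_PRT (h1 : S_LBL) (h2 : S_PTC) : S_PRT := by
  intro n G W PS nb FS LF hS C
  refine ⟨?_, PRT_evM G W PS nb FS LF hS C, PRT_evP G W PS nb FS LF hS C, ?_⟩
  · rw [PRT_sumP, PRT_sumM]
    exact PRT_dbl G W PS nb FS LF hS C
  · intro hpc
    classical
    unfold pc at hpc
    obtain ⟨x, hx⟩ := Finset.card_pos.1 hpc
    rw [Finset.mem_filter, Finset.mem_sdiff] at hx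
    obtain ⟨⟨hP, hF⟩, _, hc⟩ := hx
    have hlb : lb nb FS LF (ct nb x) ∈ C := by
      by_contra hcon
      simp [j0, hcon] at hc
    have hW : x ∈ W \ FS := Finset.mem_sdiff.2 ⟨hS.loc.sub hP, hF⟩
    obtain ⟨_, _, _, _, h5⟩ := h2 n G W PS nb FS LF hS x hW
    obtain ⟨_, _, _, _, u, hu1, hu2, hu3⟩ := h5 hP
    have hz : enc (zs nb LF u) ∈ C := by
      have : lb nb FS LF (ct nb x) = enc (zs nb LF u) := by rw [lb, hu3]
      rw [← this]; exact hlb
    have hzz := (h1 n G W PS nb FS LF hS).2.2.2.2 u hu2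
    have hu' : nb u 0 ∈ FS := hS.cov.mate u hu2
    have huP : u ∈ PS := hS.cov.sub hu2
    have hadj : G.Adj u (nb u 0) :=
      ((hS.loc.tyP u huP).nbr _ ((hS.loc.tyP u huP).mem 0)).2 ⟨0, rfl⟩
    have hsub : ({u, nb u 0} : Finset (Fin n)) ⊆ T1 nb FS LF C := by
      intro y hy
      rw [Finset.mem_insert, Finset.mem_singleton] at hy
      rcases hy with rfl | rfl
      · exact Finset.mem_filter.2 ⟨hu2, hz⟩
      · refine Finset.mem_filter.2 ⟨hu', ?_⟩
        rw [hzz]; exact hz
    calc 2 = ({u, nb u 0} : Finset (Fin n)).card := (Finset.card_pair hadj.ne).symm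
      _ ≤ _ := Finset.card_le_card hsub

end Frag.S4
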