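import Pool.Agent.Work.MP_547619_s4.Defs

set_option autoImplicit false

namespace Frag.S4

open SimpleGraph Frag.Kz

lemma PTC_card3 {a b c : ℕ} (h1 : a ≠ b) (h2 : a ≠ c) (h3 : b ≠ c) : ({a, b, c} : Finset ℕ).card = 3 := by
  rw [Finset.card_insert_of_notMem, Finset.card_insert_of_notMem, Finset.card_singleton]
  · simpa using h3
  · simp only [Finset.mem_insert, Finset.mem_singleton, not_or]
    exact ⟨h1, h2⟩

lemma PTC_ne {n : ℕ} {S S' : Finset (Fin n)} (h : S.card ≠ S'.card) : enc S ≠ enc S' := by
  intro he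
  exact h (by rw [enc_inj he])

theorem p_PTC (h1 : S_LBL) : S_PTC := by
  intro n G W PS nb FS LF hS x hx
  obtain ⟨L1, L2, L3, L4, L5⟩ := h1 n G W PS nb FS LF hS
  obtain ⟨hloc, htri, hcov⟩ := hS
  have hxW : x ∈ W := (Finset.mem_sdiff.mp hx).1
  have hxF : x ∉ FS := (Finset.mem_sdiff.mp hx).2
  by_cases hP : x ∈ PS
  · have htrs : trs PS nb x = {ta nb x, tb nb x, ct nb x} := by simp [trs, hP]
    have hpts : pts PS nb FS LF x = {lb nb FS LF (ta nb x), lb nb FS LF (tb nb x), lb nb FS LF (ct nb x)} := by
      simp [pts, hP]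
    have h0 : nb x 0 ∉ FS := by
      intro h
      have h' := hcov.mate _ h
      rw [(hloc.mate x hP).2.1] at h'
      exact hxF h'
    have h1' : nb x 1 ∉ FS := fun h => (hloc.out x hP).1 (hcov.sub h)
    have h2' : nb x 2 ∉ FS := fun h => (hloc.out x hP).2 (hcov.sub h)
    have hta : ∀ u ∈ ta nb x, u ∉ FS := by
      intro u hu
      simp only [ta, Finset.mem_insert, Finset.mem_singleton] at hu
      rcases hu with rfl | rfl | rfl <;> assumption
    have htb : ∀ u ∈ tb nb x, u ∉ FS := by
      intro u hu
      simp only [tb, Finset.mem_insert, Finset.mem_singleton] at hu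
      rcases hu with rfl | rfl | rfl <;> assumption
    have ea := L2 _ hta
    have eb := L2 _ htb
    obtain ⟨u, hu, huF⟩ := hcov.cov x hP
    have hct : ct nb x ∈ trs PS nb x := by rw [htrs]; simp
    have ec := L1 x hxW _ hct u hu huF
    obtain ⟨w, hw, hwL, hwz, _⟩ := L3 u huF
    have hwc : w ∈ lbs nb FS LF (ct nb x) := by
      rw [ec, hwz]
      simp [ct]
    have nab := (htri.neP x hP).1
    have nac : lbs nb FS LF (ta nb x) ≠ lbs nb FS LF (ct nb x) := by
      intro h
      rw [← h, ea] at hwc
      exact hta w hwc hw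
    have nbc : lbs nb FS LF (tb nb x) ≠ lbs nb FS LF (ct nb x) := by
      intro h
      rw [← h, eb] at hwc
      exact htb w hwc hw
    refine ⟨?_, ?_, fun h => absurd hP h, ?_, fun _ => ⟨ea, eb, hta, htb, u, hu, huF, ec⟩⟩
    · rw [hpts]
      refine PTC_card3 ?_ ?_ ?_
      · intro h
        have := enc_inj h
        rw [ea, eb] at this
        exact nab this
      · exact fun h => nac (enc_inj h)
      · exact fun h => nbc (enc_inj h)
    · intro τ hτ
      rw [htrs] at hτ
      rw [hpts]
      simp only [Finset.mem_insert, Finset.mem_singleton] at hτ ⊢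
      rcases hτ with rfl | rfl | rfl
      · exact Or.inl rfl
      · exact Or.inr (Or.inl rfl)
      · exact Or.inr (Or.inr rfl)
    · intro p hp
      rw [hpts] at hp
      left
      rw [htrs]
      simp only [Finset.mem_insert, Finset.mem_singleton] at hp
      rcases hp with rfl | rfl | rfl
      · exact ⟨ta nb x, by simp, rfl⟩
      · exact ⟨tb nb x, by simp, rfl⟩
      · exact ⟨ct nb x, by simp, rfl⟩
  · have htrs : trs PS nb x = {t1 nb x, ct nb x} := by simp [trs, hP]
    have hne : x ≠ nb x 0 := by
      have hT := hloc.tyM x hxW hP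
      have : G.Adj x (nb x 0) := (hT.nbr _ (hT.mem 0)).mpr ⟨0, rfl⟩
      exact this.ne
    have hcE : ({x, nb x 0} : Finset (Fin n)).card = 2 := Finset.card_pair hne
    have c1 := L4 x hxW (t1 nb x) (by rw [htrs]; simp)
    have c2 := L4 x hxW (ct nb x) (by rw [htrs]; simp)
    have n1 : ee nb x ≠ lb nb FS LF (t1 nb x) := PTC_ne (by rw [hcE, c1]; norm_num)
    have n2 : ee nb x ≠ lb nb FS LF (ct nb x) := PTC_ne (by rw [hcE, c2]; norm_num)
    have n3 : ee nb x ≠ enc {x} := PTC_ne (by rw [hcE, Finset.card_singleton]; norm_num)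
    have n4 : lb nb FS LF (ct nb x) ≠ enc {x} := PTC_ne (by rw [c2, Finset.card_singleton]; norm_num)
    by_cases he : lb nb FS LF (t1 nb x) = lb nb FS LF (ct nb x)
    · have hpts : pts PS nb FS LF x = {ee nb x, lb nb FS LF (ct nb x), enc {x}} := by
        simp [pts, hP, he]
      refine ⟨?_, ?_, ?_, ?_, fun h => absurd h hP⟩
      · rw [hpts]
        exact PTC_card3 n2 n3 n4
      · intro τ hτ
        rw [htrs] at hτ
        rw [hpts]
        simp only [Finset.mem_insert, Finset.mem_singleton] at hτ ⊢
        rcases hτ with rfl | rfl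
        · exact Or.inr (Or.inl he)
        · exact Or.inr (Or.inl rfl)
      · intro _
        rw [hpts]
        simp
      · intro p hp
        rw [hpts] at hp
        simp only [Finset.mem_insert, Finset.mem_singleton] at hp
        rcases hp with rfl | rfl | rfl
        · exact Or.inr (Or.inl ⟨hP, rfl⟩)
        · exact Or.inl ⟨ct nb x, by rw [htrs]; simp, rfl⟩
        · exact Or.inr (Or.inr ⟨hP, rfl, he⟩)
    · have hpts : pts PS nb FS LF x = {ee nb x, lb nb FS LF (t1 nb x), lb nb FS LF (ct nb x)} := by
        simp [pts, hP, he]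
      refine ⟨?_, ?_, ?_, ?_, fun h => absurd h hP⟩
      · rw [hpts]
        exact PTC_card3 n1 n2 he
      · intro τ hτ
        rw [htrs] at hτ
        rw [hpts]
        simp only [Finset.mem_insert, Finset.mem_singleton] at hτ ⊢
        rcases hτ with rfl | rfl
        · exact Or.inr (Or.inl rfl)
        · exact Or.inr (Or.inr rfl)
      · intro _
        rw [hpts]
        simp
      · intro p hp
        rw [hpts] at hp
        simp only [Finset.mem_insert, Finset.mem_singleton] at hp
        rcases hp with rfl | rfl | rfl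
        · exact Or.inr (Or.inl ⟨hP, rfl⟩)
        · exact Or.inl ⟨t1 nb x, by rw [htrs]; simp, rfl⟩
        · exact Or.inl ⟨ct nb x, by rw [htrs]; simp, rfl⟩

end Frag.S4
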