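import Pool.Agent.Work.MP_547619_s4.Defs

set_option autoImplicit false

namespace Frag.S4

open SimpleGraph Frag.Kz

lemma REM_sf {n : ℕ} (G : SimpleGraph (Fin n)) (W T D R : Finset (Fin n)) (hSF : SF G W)
    (hT : T ⊆ W)
    (hnb : ∀ t ∈ T, ∀ u ∈ W, G.Adj t u → u ∈ T ∪ D ∪ R)
    (hlast : ∀ r ∈ R, (∃ t ∈ T, G.Adj r t) ∨
      ∀ s ⊆ W \ (T ∪ D ∪ R), s.card = 3 → (∀ x ∈ s, G.Adj r x) → ∃ x ∈ s, ∃ y ∈ s, G.Adj x y) :
    SF (cl G R) (W \ (T ∪ D)) := by
  intro v hv s hs hcard hadj
  by_contra hno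
  push Not at hno
  have hvW : v ∈ W := (Finset.mem_sdiff.1 hv).1
  have hsW : s ⊆ W := fun x hx => (Finset.mem_sdiff.1 (hs hx)).1
  have hR1 : ∀ x ∈ s, ∀ y ∈ s, x ∈ R → y ∈ R → x = y := by
    intro x hx y hy hxR hyR
    by_contra hne
    exact hno x hx y hy (Or.inr ⟨hne, hxR, hyR⟩)
  have hG : ∀ x ∈ s, ∀ y ∈ s, ¬ G.Adj x y := fun x hx y hy h => hno x hx y hy (Or.inl h)
  by_cases hvR : v ∈ R
  · have h1 : (s.filter (fun x => x ∈ R)).card ≤ 1 := by
      rw [Finset.card_le_one]
      intro x hx y hy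
      rw [Finset.mem_filter] at hx hy
      exact hR1 x hx.1 y hy.1 hx.2 hy.2
    have h2 := Finset.card_filter_add_card_filter_not (s := s) (fun x => x ∈ R)
    have h3 : 3 ≤ (s.filter (fun x => ¬ x ∈ R)).card := by omega
    obtain ⟨s', hs', hc'⟩ := Finset.exists_subset_card_eq h3
    have hm : ∀ x ∈ s', x ∈ s ∧ x ∉ R := fun x hx => Finset.mem_filter.1 (hs' hx)
    have hadj' : ∀ x ∈ s', G.Adj v x := by
      intro x hx
      rcases hadj x (hm x hx).1 with h | ⟨_, _, h⟩
      · exact h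
      · exact absurd h (hm x hx).2
    have hsub : s' ⊆ W \ (T ∪ D ∪ R) := by
      intro x hx
      have h4 := Finset.mem_sdiff.1 (hs (hm x hx).1)
      rw [Finset.mem_sdiff]
      refine ⟨h4.1, fun h5 => ?_⟩
      rcases Finset.mem_union.1 h5 with h6 | h6
      · exact h4.2 h6
      · exact (hm x hx).2 h6
    have hG' : ∀ x ∈ s', ∀ y ∈ s', ¬ G.Adj x y :=
      fun x hx y hy => hG x (hm x hx).1 y (hm y hy).1
    rcases hlast v hvR with ⟨t, ht, hvt⟩ | h4
    · have hts : t ∉ s' := by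
        intro h
        have h5 := (Finset.mem_sdiff.1 (hsub h)).2
        exact h5 (Finset.mem_union_left _ (Finset.mem_union_left _ ht))
      have hts2 : ∀ y ∈ s', ¬ G.Adj t y := by
        intro y hy h
        have h5 := Finset.mem_sdiff.1 (hsub hy)
        exact h5.2 (hnb t ht y h5.1 h)
      obtain ⟨x, hx, y, hy, hxy⟩ := hSF v hvW (insert t s')
        (Finset.insert_subset (hT ht) (fun x hx => hsW (hm x hx).1))
        (by rw [Finset.card_insert_of_notMem hts, hc'])
        (by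
          intro x hx
          rcases Finset.mem_insert.1 hx with rfl | hx
          · exact hvt
          · exact hadj' x hx)
      rcases Finset.mem_insert.1 hx with hx1 | hx1
      · rw [hx1] at hxy
        rcases Finset.mem_insert.1 hy with hy1 | hy1
        · rw [hy1] at hxy
          exact G.irrefl hxy
        · exact hts2 y hy1 hxy
      · rcases Finset.mem_insert.1 hy with hy1 | hy1
        · rw [hy1] at hxy
          exact hts2 x hx1 hxy.symm
        · exact hG' x hx1 y hy1 hxy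
    · obtain ⟨x, hx, y, hy, hxy⟩ := h4 s' hsub hc' hadj'
      exact hG' x hx y hy hxy
  · obtain ⟨x, hx, y, hy, hxy⟩ := hSF v hvW s hsW hcard (by
      intro x hx
      rcases hadj x hx with h | ⟨_, h, _⟩
      · exact h
      · exact absurd h hvR)
    exact hG x hx y hy hxy

theorem p_REM (hTOR : S_TOR) : S_REM := by
  intro n k G W T D R hSF hT hD hR hTD hTR hDR hcard hnb hlast
  refine ⟨Finset.sdiff_subset, REM_sf G W T D R hSF hT hnb hlast, ?_⟩
  intro F' hF' hK
  have hdis : Disjoint F' T := by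
    rw [Finset.disjoint_left]
    intro x hx hxT
    exact (Finset.mem_sdiff.1 (hF' hx)).2 (Finset.mem_union_left _ hxT)
  refine ⟨F' ∪ T, Finset.union_subset (hF'.trans Finset.sdiff_subset) hT,
    hTOR n k G R F' T hK hdis hcard ?_, ?_⟩
  · intro t ht u hu htu
    have h1 := Finset.mem_sdiff.1 (hF' hu)
    rcases Finset.mem_union.1 (hnb t ht u h1.1 htu) with h | h
    · exact absurd h h1.2
    · exact h
  · rw [Finset.card_union_of_disjoint hdis]

end Frag.S4
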