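import Pool.Agent.Work.MP_547619_s4.Defs

/-!
# MP_547619_co, THEOREM S4: block SM5, graphs on five vertices
-/

set_option autoImplicit false

namespace Frag.S4

open SimpleGraph Frag.Kz

/-- the adjacency matrix with the given entries -/
def SM5_A (x01 x02 x03 x04 x12 x13 x14 x23 x24 x34 : Bool) (i j : Fin 5) : Bool :=
  match i.val, j.val with
  | 0, 1 => x01
  | 1, 0 => x01
  | 0, 2 => x02
  | 2, 0 => x02
  | 0, 3 => x03
  | 3, 0 => x03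
  | 0, 4 => x04
  | 4, 0 => x04
  | 1, 2 => x12
  | 2, 1 => x12
  | 1, 3 => x13
  | 3, 1 => x13
  | 1, 4 => x14
  | 4, 1 => x14
  | 2, 3 => x23
  | 3, 2 => x23
  | 2, 4 => x24
  | 4, 2 => x24
  | 3, 4 => x34
  | 4, 3 => x34
  | _, _ => false

def SM5_d (A : Fin 5 → Fin 5 → Bool) (i : Fin 5) : ℕ :=
  (A i 0).toNat + (A i 1).toNat + (A i 2).toNat + (A i 3).toNat + (A i 4).toNat

def SM5_e (A : Fin 5 → Fin 5 → Bool) : ℕ :=
  SM5_d A 0 + SM5_d A 1 + SM5_d A 2 + SM5_d A 3 + SM5_d A 4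

def SM5_LM : List (Fin 5 → Fin 5) :=
  [![0, 1, 2, 3, 4], ![0, 1, 3, 2, 4], ![0, 1, 4, 2, 3], ![1, 0, 2, 3, 4], ![1, 0, 3, 2, 4],
   ![1, 0, 4, 2, 3], ![2, 0, 1, 3, 4], ![2, 0, 3, 1, 4], ![2, 0, 4, 1, 3], ![3, 0, 1, 2, 4],
   ![3, 0, 2, 1, 4], ![3, 0, 4, 1, 2], ![4, 0, 1, 2, 3], ![4, 0, 2, 1, 3], ![4, 0, 3, 1, 2]]

def SM5_LP : List (Fin 5 → Fin 5) :=
  [![0, 1, 2, 3, 4], ![0, 1, 3, 2, 4], ![0, 1, 4, 2, 3], ![0, 2, 3, 1, 4], ![0, 2, 4, 1, 3],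
   ![0, 3, 4, 1, 2], ![1, 0, 2, 3, 4], ![1, 0, 3, 2, 4], ![1, 0, 4, 2, 3], ![1, 2, 3, 0, 4],
   ![1, 2, 4, 0, 3], ![1, 3, 4, 0, 2], ![2, 0, 1, 3, 4], ![2, 0, 3, 1, 4], ![2, 0, 4, 1, 3],
   ![2, 1, 3, 0, 4], ![2, 1, 4, 0, 3], ![2, 3, 4, 0, 1], ![3, 0, 1, 2, 4], ![3, 0, 2, 1, 4],
   ![3, 0, 4, 1, 2], ![3, 1, 2, 0, 4], ![3, 1, 4, 0, 2], ![3, 2, 4, 0, 1], ![4, 0, 1, 2, 3],
   ![4, 0, 2, 1, 3], ![4, 0, 3, 1, 2], ![4, 1, 2, 0, 3], ![4, 1, 3, 0, 2], ![4, 2, 3, 0, 1]]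

theorem SM5_bij : (∀ σ ∈ SM5_LM, (∀ i j, σ i = σ j → i = j) ∧ ∀ k, ∃ i, σ i = k) ∧
    (∀ σ ∈ SM5_LP, (∀ i j, σ i = σ j → i = j) ∧ ∀ k, ∃ i, σ i = k) := by decide +kernel

theorem SM5_core : ∀ x01 x02 x03 x04 x12 x13 x14 x23 x24 x34 : Bool,
    (∀ i, SM5_e (SM5_A x01 x02 x03 x04 x12 x13 x14 x23 x24 x34) <
      6 + 2 * SM5_d (SM5_A x01 x02 x03 x04 x12 x13 x14 x23 x24 x34) i) →
    (∀ r : Fin 5, ∃ i j : Fin 5, i ≠ r ∧ j ≠ r ∧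
      SM5_A x01 x02 x03 x04 x12 x13 x14 x23 x24 x34 i j = true) →
    (∃ σ ∈ SM5_LM, ∀ i j,
      (SM5_A x01 x02 x03 x04 x12 x13 x14 x23 x24 x34 (σ i) (σ j) = true ↔ mM i j)) ∨
    (∃ σ ∈ SM5_LP, ∀ i j,
      (SM5_A x01 x02 x03 x04 x12 x13 x14 x23 x24 x34 (σ i) (σ j) = true ↔ mP i j)) := by
  decide +kernel

open Classical in
theorem p_SM5 : S_SM5 := by
  intro n G N hN h4 hdeg
  let e := N.orderEmbOfFin hN
  have heN : ∀ i, e i ∈ N := fun i => N.orderEmbOfFin_mem hN i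
  have hinj : Function.Injective e := e.injective
  have himg : Finset.univ.image e = N := N.image_orderEmbOfFin_univ hN
  let B : Fin 5 → Fin 5 → Bool := fun i j => decide (G.Adj (e i) (e j))
  have hB : ∀ i j, B i j = true ↔ G.Adj (e i) (e j) := fun i j => decide_eq_true_iff
  have hBs : ∀ i j, B i j = B j i := fun i j => by
    show decide (G.Adj (e i) (e j)) = decide (G.Adj (e j) (e i))
    rw [G.adj_comm]
  have hBi : ∀ i, B i i = false := fun i => decide_eq_false (G.irrefl)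
  have hBA : B = SM5_A (B 0 1) (B 0 2) (B 0 3) (B 0 4) (B 1 2) (B 1 3) (B 1 4) (B 2 3) (B 2 4)
      (B 3 4) := by
    funext i j
    fin_cases i <;> fin_cases j <;> first | exact hBi _ | rfl | exact hBs _ _
  have hd : ∀ i, dg G N (e i) = SM5_d B i := by
    intro i
    unfold dg
    conv_lhs => rw [← himg]
    rw [Finset.filter_image, Finset.card_image_of_injective _ hinj, Finset.card_filter,
      Fin.sum_univ_five]
    simp only [SM5_d, B]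
    congr 1 <;> [skip; (split_ifs with h <;> simp [h])]
    congr 1 <;> [skip; (split_ifs with h <;> simp [h])]
    congr 1 <;> [skip; (split_ifs with h <;> simp [h])]
    congr 1 <;> (split_ifs with h <;> simp [h])
  have he : ed2 G N = SM5_e B := by
    unfold ed2
    conv_lhs => rw [← himg]
    rw [Finset.sum_image (fun a _ b _ h => hinj h), Fin.sum_univ_five]
    rw [himg, hd, hd, hd, hd, hd]
    rfl
  have c1 : ∀ i, SM5_e B < 6 + 2 * SM5_d B i := by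
    intro i
    have := hdeg (e i) (heN i)
    rwa [hd, he] at this
  have c2 : ∀ r : Fin 5, ∃ i j : Fin 5, i ≠ r ∧ j ≠ r ∧ B i j = true := by
    intro r
    obtain ⟨x, hx, y, hy, hxy⟩ := h4 (N.erase (e r)) (Finset.erase_subset _ _) (by
      rw [Finset.card_erase_of_mem (heN r), hN])
    rw [Finset.mem_erase] at hx hy
    obtain ⟨hx1, hx2⟩ := hx
    obtain ⟨hy1, hy2⟩ := hy
    rw [← himg, Finset.mem_image] at hx2 hy2
    obtain ⟨i, -, rfl⟩ := hx2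
    obtain ⟨j, -, rfl⟩ := hy2
    exact ⟨i, j, fun h => hx1 (by rw [h]), fun h => hy1 (by rw [h]), (hB i j).2 hxy⟩
  have hcore := SM5_core (B 0 1) (B 0 2) (B 0 3) (B 0 4) (B 1 2) (B 1 3) (B 1 4) (B 2 3) (B 2 4)
      (B 3 4)
  rw [← hBA] at hcore
  have hfin : ∀ σ : Fin 5 → Fin 5, ((∀ i j, σ i = σ j → i = j) ∧ ∀ k, ∃ i, σ i = k) →
      (∀ i j, e (σ i) = e (σ j) → i = j) ∧ (∀ u, u ∈ N ↔ ∃ i, e (σ i) = u) := by
    intro σ hσ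
    refine ⟨fun i j h => hσ.1 i j (hinj h), fun u => ⟨fun hu => ?_, ?_⟩⟩
    · rw [← himg, Finset.mem_image] at hu
      obtain ⟨k, -, rfl⟩ := hu
      obtain ⟨i, rfl⟩ := hσ.2 k
      exact ⟨i, rfl⟩
    · rintro ⟨i, rfl⟩
      exact heN _
  rcases hcore c1 c2 with ⟨σ, hσ, h⟩ | ⟨σ, hσ, h⟩
  · obtain ⟨h1, h2⟩ := hfin σ (SM5_bij.1 σ hσ)
    exact ⟨fun i => e (σ i), h1, h2, Or.inl fun i j => (hB _ _).symm.trans (h i j)⟩
  · obtain ⟨h1, h2⟩ := hfin σ (SM5_bij.2 σ hσ)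
    exact ⟨fun i => e (σ i), h1, h2, Or.inr fun i j => (hB _ _).symm.trans (h i j)⟩

end Frag.S4
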