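import Pool.Agent.Work.MP_547619_s4.Defs

/-!
# MP_547619_co, THEOREM S4: block ST4 (all degrees are five in the terminal situation)
-/

set_option autoImplicit false

namespace Frag.S4

open SimpleGraph Frag.Kz

lemma ST4_nh_erase {n : ℕ} (G : SimpleGraph (Fin n)) (W : Finset (Fin n)) (v x : Fin n) :
    nh G (W.erase x) v = (nh G W v).erase x := by
  ext u
  simp only [mem_nh, Finset.mem_erase]
  tauto

lemma ST4_pairs {n : ℕ} (G : SimpleGraph (Fin n)) (N : Finset (Fin n)) :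
    ∃ P : Finset (Fin n × Fin n), (∀ z w, (z, w) ∈ P ↔ z ∈ N ∧ w ∈ N ∧ G.Adj z w) ∧
      P.card = ed2 G N := by
  classical
  refine ⟨(N ×ˢ N).filter (fun p => G.Adj p.1 p.2), ?_, ?_⟩
  · intro z w
    simp only [Finset.mem_filter, Finset.mem_product]
    exact and_assoc
  · rw [ed2, Finset.card_filter, Finset.sum_product]
    apply Finset.sum_congr rfl
    intro z _
    rw [← Finset.card_filter, ← card_nh]
    congr 1

lemma ST4_mono {n : ℕ} (G G' : SimpleGraph (Fin n)) (N : Finset (Fin n))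
    (h : ∀ x y, G.Adj x y → G'.Adj x y) : ed2 G N ≤ ed2 G' N := by
  rw [ed2, ed2]
  apply Finset.sum_le_sum
  intro z _
  rw [← card_nh, ← card_nh]
  apply Finset.card_le_card
  intro u hu
  rw [mem_nh] at hu ⊢
  exact ⟨hu.1, h _ _ hu.2⟩

lemma ST4_loc {n : ℕ} (G : SimpleGraph (Fin n)) (N : Finset (Fin n)) (x y : Fin n)
    (hx : x ∈ N) (hy : y ∈ N) (hxy : G.Adj x y) (he : ed2 G N ≤ 3) :
    ed2 G N = 2 ∧ ∀ z ∈ N, ∀ w ∈ N, G.Adj z w → (z = x ∧ w = y) ∨ (z = y ∧ w = x) := by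
  classical
  obtain ⟨P, hP, hc⟩ := ST4_pairs G N
  have hne : x ≠ y := hxy.ne
  have h1 : (x, y) ∈ P := (hP x y).2 ⟨hx, hy, hxy⟩
  have h2 : (y, x) ∈ P := (hP y x).2 ⟨hy, hx, hxy.symm⟩
  have key : ∀ z ∈ N, ∀ w ∈ N, G.Adj z w → (z = x ∧ w = y) ∨ (z = y ∧ w = x) := by
    intro z hz w hw hzw
    by_contra hcon
    rw [not_or] at hcon
    obtain ⟨hc1, hc2⟩ := hcon
    have h3 : (z, w) ∈ P := (hP z w).2 ⟨hz, hw, hzw⟩
    have h4 : (w, z) ∈ P := (hP w z).2 ⟨hw, hz, hzw.symm⟩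
    have hsub : ({(x, y), (y, x), (z, w), (w, z)} : Finset (Fin n × Fin n)) ⊆ P := by
      intro p hp
      simp only [Finset.mem_insert, Finset.mem_singleton] at hp
      rcases hp with rfl | rfl | rfl | rfl
      · exact h1
      · exact h2
      · exact h3
      · exact h4
    have hcard : ({(x, y), (y, x), (z, w), (w, z)} : Finset (Fin n × Fin n)).card = 4 := by
      have hzw' : z ≠ w := hzw.ne
      rw [Finset.card_insert_of_notMem, Finset.card_insert_of_notMem,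
        Finset.card_insert_of_notMem, Finset.card_singleton]
      · simp only [Finset.mem_singleton, Prod.mk.injEq]
        rintro ⟨h5, _⟩
        exact hzw' h5
      · simp only [Finset.mem_insert, Finset.mem_singleton, Prod.mk.injEq]
        rintro (⟨h5, h6⟩ | ⟨h5, h6⟩)
        · exact hc2 ⟨h5.symm, h6.symm⟩
        · exact hc1 ⟨h6.symm, h5.symm⟩
      · simp only [Finset.mem_insert, Finset.mem_singleton, Prod.mk.injEq]
        rintro (⟨h5, _⟩ | ⟨h5, h6⟩ | ⟨h5, h6⟩)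
        · exact hne h5
        · exact hc1 ⟨h5.symm, h6.symm⟩
        · exact hc2 ⟨h6.symm, h5.symm⟩
    have h5 := Finset.card_le_card hsub
    omega
  refine ⟨?_, key⟩
  have hPeq : P = {(x, y), (y, x)} := by
    ext ⟨z, w⟩
    rw [hP]
    simp only [Finset.mem_insert, Finset.mem_singleton, Prod.mk.injEq]
    constructor
    · rintro ⟨hz, hw, hzw⟩
      exact key z hz w hw hzw
    · rintro (⟨rfl, rfl⟩ | ⟨rfl, rfl⟩)
      · exact ⟨hx, hy, hxy⟩
      · exact ⟨hy, hx, hxy.symm⟩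
  rw [← hc, hPeq]
  rw [Finset.card_insert_of_notMem, Finset.card_singleton]
  simp only [Finset.mem_singleton, Prod.mk.injEq]
  rintro ⟨h5, _⟩
  exact hne h5

/-- A vertex without neighbours in `N` has degree zero in `N`. -/
lemma ST4_zero {n : ℕ} (G : SimpleGraph (Fin n)) (N : Finset (Fin n)) (r : Fin n)
    (h : ∀ z ∈ N, ¬ G.Adj r z) : dg G N r = 0 := by
  rw [← card_nh, Finset.card_eq_zero]
  ext u
  rw [mem_nh]
  constructor
  · rintro ⟨h1, h2⟩
    exact absurd h2 (h u h1)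
  · intro h1
    exact absurd h1 (Finset.notMem_empty u)

theorem p_ST4 (hTO1 : S_TO1) (hSTA : S_STA) (hED1 : Frag.Kz.S_ED1) : S_ST4 := by
  classical
  intro n k G W hk hT v hv
  have hSF : SF G W := hT.1
  -- every degree is four or five
  have hdeg : ∀ u ∈ W, dg G W u = 4 ∨ dg G W u = 5 := by
    intro u hu
    obtain ⟨h1, h2⟩ := hSTA n k G W hk hT u hu
    by_contra hcon
    have h3 : dg G W u ≤ 3 := by omega
    have h4 : dg G W u * dg G W u ≤ 3 * dg G W u := Nat.mul_le_mul_right _ h3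
    omega
  -- the neighbourhood of a vertex of degree four
  have hloc : ∀ u ∈ W, dg G W u = 4 → ∃ x ∈ nh G W u, ∃ y ∈ nh G W u, G.Adj x y ∧
      ed2 G (nh G W u) = 2 ∧
      ∀ z ∈ nh G W u, ∀ w ∈ nh G W u, G.Adj z w → (z = x ∧ w = y) ∨ (z = y ∧ w = x) := by
    intro u hu hd
    have hcN : (nh G W u).card = 4 := hd
    obtain ⟨x, hx, y, hy, hxy⟩ := hSF u hu (nh G W u)
      (fun z hz => (mem_nh.1 hz).1) hcN (fun z hz => (mem_nh.1 hz).2)
    obtain ⟨_, h2⟩ := hSTA n k G W hk hT u hu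
    rw [hd] at h2
    obtain ⟨h3, h4⟩ := ST4_loc G (nh G W u) x y hx hy hxy (by omega)
    exact ⟨x, hx, y, hy, hxy, h3, h4⟩
  -- removing an isolated vertex of the neighbourhood
  have hiso : ∀ u ∈ W, dg G W u = 4 → ∀ r ∈ nh G W u, (∀ z ∈ nh G W u, ¬ G.Adj r z) →
      ed2 G (nh G (W.erase r) u) = 2 ∧ dg G (W.erase r) u = 3 := by
    intro u hu hd r hr hz
    obtain ⟨_, _, _, _, _, he, _⟩ := hloc u hu hd
    have h1 := hED1 n G (nh G W u) r hr
    rw [ST4_zero G (nh G W u) r hz, he] at h1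
    have hcN : (nh G W u).card = 4 := hd
    rw [← card_nh, ST4_nh_erase, Finset.card_erase_of_mem hr, hcN]
    exact ⟨by omega, rfl⟩
  rcases hdeg v hv with hd | hd
  swap
  · exact hd
  exfalso
  obtain ⟨x, hx, y, hy, hxy, he, honly⟩ := hloc v hv hd
  have hcN : (nh G W v).card = 4 := hd
  have hxyne : x ≠ y := hxy.ne
  -- the two other vertices
  have hrest : (((nh G W v).erase x).erase y).card = 2 := by
    rw [Finset.card_erase_of_mem (Finset.mem_erase.2 ⟨hxyne.symm, hy⟩),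
      Finset.card_erase_of_mem hx, hcN]
  obtain ⟨r, s, hrs, hrset⟩ := Finset.card_eq_two.1 hrest
  have hr0 : r ∈ ((nh G W v).erase x).erase y := by rw [hrset]; simp
  have hs0 : s ∈ ((nh G W v).erase x).erase y := by rw [hrset]; simp
  have hisol : ∀ q ∈ ((nh G W v).erase x).erase y, ∀ z ∈ nh G W v, ¬ G.Adj q z := by
    intro q hq z hz hqz
    simp only [Finset.mem_erase] at hq
    rcases honly q hq.2.2 z hz hqz with ⟨h1, _⟩ | ⟨h1, _⟩
    · exact hq.2.1 h1
    · exact hq.1 h1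
  have hmem : ∀ q ∈ ((nh G W v).erase x).erase y, q ∈ nh G W v := by
    intro q hq
    simp only [Finset.mem_erase] at hq
    exact hq.2.2
  -- (b) a vertex of degree five among them
  have hfour : ∀ q ∈ ((nh G W v).erase x).erase y, dg G W q = 4 := by
    intro q hq
    have hqN := hmem q hq
    obtain ⟨hqW, hvq⟩ := mem_nh.1 hqN
    rcases hdeg q hqW with h1 | h1
    · exact h1
    exfalso
    obtain ⟨h2, h3⟩ := hiso v hv hd q hqN (hisol q hq)
    have h4 := hED1 n G W q hqW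
    have hv1 : v ∈ W.erase q := Finset.mem_erase.2 ⟨hvq.ne, hv⟩
    obtain ⟨h5, h6⟩ := hTO1 n k G (W.erase q) v (hSF.mono (Finset.erase_subset q W)) hv1
      (by omega)
    have h7 := (Rdc.del hSF (Finset.erase_subset q W) : Rdc k G G W (W.erase q) 0).trans h5
    have hc1 : (W.erase q).card + 1 = W.card := Finset.card_erase_add_one hqW
    have hc2 : ((W.erase q).erase v).card + 1 = (W.erase q).card :=
      Finset.card_erase_add_one hv1
    have h8 := hT.2 _ _ _ h7 (by omega)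
    rw [h3, h2] at h6
    omega
  -- (c)
  obtain ⟨hrW, hvr⟩ := mem_nh.1 (hmem r hr0)
  obtain ⟨hsW, hvs⟩ := mem_nh.1 (hmem s hs0)
  have hrs' : ¬ G.Adj r s := hisol r hr0 s (hmem s hs0)
  have hside : ∀ q ∈ ((nh G W v).erase x).erase y,
      ed2 G (nh G (W.erase v) q) = 2 ∧ dg G (W.erase v) q = 3 := by
    intro q hq
    obtain ⟨hqW, hvq⟩ := mem_nh.1 (hmem q hq)
    refine hiso q hqW (hfour q hq) v (mem_nh.2 ⟨hv, hvq.symm⟩) ?_
    intro z hz hvz
    obtain ⟨hzW, hqz⟩ := mem_nh.1 hz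
    exact hisol q hq z (mem_nh.2 ⟨hzW, hvz⟩) hqz
  obtain ⟨hr2, hr3⟩ := hside r hr0
  obtain ⟨hs2, hs3⟩ := hside s hs0
  have h1 := hED1 n G W v hv
  have hr1 : r ∈ W.erase v := Finset.mem_erase.2 ⟨hvr.ne', hrW⟩
  have hs1 : s ∈ (W.erase v).erase r :=
    Finset.mem_erase.2 ⟨hrs.symm, Finset.mem_erase.2 ⟨hvs.ne', hsW⟩⟩
  obtain ⟨h5, h6⟩ := hTO1 n k G (W.erase v) r (hSF.mono (Finset.erase_subset v W)) hr1
    (by omega)
  rw [hr3, hr2] at h6
  have hnh : nh (cl G (nh G (W.erase v) r)) ((W.erase v).erase r) s = nh G (W.erase v) s := by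
    ext u
    simp only [mem_nh, Finset.mem_erase, cl]
    constructor
    · rintro ⟨⟨_, h7, h8⟩, h9 | ⟨_, ⟨_, h10⟩, _⟩⟩
      · exact ⟨⟨h7, h8⟩, h9⟩
      · exact absurd h10 hrs'
    · rintro ⟨⟨h7, h8⟩, h9⟩
      refine ⟨⟨?_, h7, h8⟩, Or.inl h9⟩
      rintro rfl
      exact hrs' h9.symm
  have hds : dg (cl G (nh G (W.erase v) r)) ((W.erase v).erase r) s = 3 := by
    rw [← card_nh, hnh, card_nh, hs3]
  have hes : 2 ≤ ed2 (cl G (nh G (W.erase v) r))
      (nh (cl G (nh G (W.erase v) r)) ((W.erase v).erase r) s) := by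
    rw [hnh]
    calc 2 = ed2 G (nh G (W.erase v) s) := hs2.symm
      _ ≤ _ := ST4_mono _ _ _ (fun a b hab => Or.inl hab)
  obtain ⟨h9, h10⟩ := hTO1 n k (cl G (nh G (W.erase v) r)) ((W.erase v).erase r) s h5.sf hs1
    (by omega)
  rw [hds] at h10
  have h11 := ((Rdc.del hSF (Finset.erase_subset v W) : Rdc k G G W (W.erase v) 0).trans h5).trans h9
  have hc1 : (W.erase v).card + 1 = W.card := Finset.card_erase_add_one hv
  have hc2 : ((W.erase v).erase r).card + 1 = (W.erase v).card := Finset.card_erase_add_one hr1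
  have hc3 : (((W.erase v).erase r).erase s).card + 1 = ((W.erase v).erase r).card :=
    Finset.card_erase_add_one hs1
  have h12 := hT.2 _ _ _ h11 (by omega)
  rw [hd] at h1
  omega

end Frag.S4
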