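import Pool.Agent.Work.MP_547619_s4.Defs

/-!
# MP_547619_co, THEOREM S4: block ST5
-/

set_option autoImplicit false

namespace Frag.S4

open SimpleGraph Frag.Kz

lemma ST5_nh_erase {n : ℕ} (G : SimpleGraph (Fin n)) (W : Finset (Fin n)) (v x : Fin n) :
    nh G (W.erase x) v = (nh G W v).erase x := by
  ext u
  simp only [mem_nh, Finset.mem_erase]
  tauto

theorem p_ST5 (hTO1 : S_TO1) (hED1 : Frag.Kz.S_ED1) (hST4 : S_ST4) : S_ST5 := by
  intro n k G W hk hT v hv x hx
  have hSF : SF G W := hT.1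
  obtain ⟨hxW, hvx⟩ := mem_nh.1 hx
  have hne : v ≠ x := hvx.ne
  have h1 := hED1 n G W x hxW
  have h2 := hST4 n k G W hk hT x hxW
  have h3 := hST4 n k G W hk hT v hv
  have h4 := hED1 n G (nh G W v) x hx
  have hcard : (nh G W v).card = 5 := by rw [card_nh]; exact h3
  have hnh : nh G (W.erase x) v = (nh G W v).erase x := ST5_nh_erase G W v x
  have hd : dg G (W.erase x) v = 4 := by
    rw [← card_nh, hnh, Finset.card_erase_of_mem hx, hcard]
  have hv1 : v ∈ W.erase x := Finset.mem_erase.2 ⟨hne, hv⟩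
  have hdel : Rdc k G G W (W.erase x) 0 := Rdc.del hSF (Finset.erase_subset x W)
  obtain ⟨h5, h6⟩ := hTO1 n k G (W.erase x) v (hSF.mono (Finset.erase_subset x W)) hv1
    (by rw [hd]; omega)
  have h7 := hdel.trans h5
  have hc1 : (W.erase x).card + 1 = W.card := Finset.card_erase_add_one hxW
  have hc2 : ((W.erase x).erase v).card + 1 = (W.erase x).card := Finset.card_erase_add_one hv1
  have h8 := hT.2 _ _ _ h7 (by omega)
  rw [hd] at h6
  rw [hnh] at h6 h8
  omega

end Frag.S4
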