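import Pool.Agent.Work.MP_547619_s4.Defs

/-! # MP_547619_co, THEOREM S4: block ST6 -/

set_option autoImplicit false

namespace Frag.S4

open SimpleGraph Frag.Kz

theorem ST6_dga {n : ℕ} {G : SimpleGraph (Fin n)} {W : Finset (Fin n)} {a c : Fin n}
    (hc : c ∈ W) (h : G.Adj a c) : dg G (W.erase c) a + 1 = dg G W a := by
  rw [← card_nh, ← card_nh]
  have e : nh G (W.erase c) a = (nh G W a).erase c := by
    ext u
    simp only [mem_nh, Finset.mem_erase]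
    tauto
  rw [e, Finset.card_erase_add_one (mem_nh.mpr ⟨hc, h⟩)]

theorem ST6_dgn {n : ℕ} {G : SimpleGraph (Fin n)} {W : Finset (Fin n)} {a c : Fin n}
    (h : ¬ G.Adj a c) : dg G (W.erase c) a = dg G W a := by
  rw [← card_nh, ← card_nh]
  congr 1
  ext u
  simp only [mem_nh, Finset.mem_erase]
  constructor
  · rintro ⟨⟨_, h1⟩, h2⟩
    exact ⟨h1, h2⟩
  · rintro ⟨h1, h2⟩
    exact ⟨⟨fun e => h (e ▸ h2), h1⟩, h2⟩

theorem ST6_d1 {n : ℕ} {G : SimpleGraph (Fin n)} {R : Finset (Fin n)} {p q : Fin n}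
    (hq : q ∈ R) (h : G.Adj p q) : 1 ≤ dg G R p := by
  rw [← card_nh]
  exact Finset.card_pos.mpr ⟨q, mem_nh.mpr ⟨hq, h⟩⟩

theorem ST6_d2 {n : ℕ} {G : SimpleGraph (Fin n)} {R : Finset (Fin n)} {p q r : Fin n}
    (hq : q ∈ R) (hr : r ∈ R) (hqr : q ≠ r) (h : G.Adj p q) (h' : G.Adj p r) :
    2 ≤ dg G R p := by
  rw [← card_nh, ← Finset.card_pair hqr]
  refine Finset.card_le_card ?_
  intro u hu
  rw [Finset.mem_insert, Finset.mem_singleton] at hu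
  rcases hu with rfl | rfl
  · exact mem_nh.mpr ⟨hq, h⟩
  · exact mem_nh.mpr ⟨hr, h'⟩

theorem ST6_e2 {n : ℕ} {G : SimpleGraph (Fin n)} {R : Finset (Fin n)} {p q : Fin n}
    (hp : p ∈ R) (hq : q ∈ R) (h : G.Adj p q) : 2 ≤ ed2 G R := by
  have h1 : ∑ v ∈ ({p, q} : Finset (Fin n)), dg G R v ≤ ed2 G R := by
    refine Finset.sum_le_sum_of_subset ?_
    intro u hu
    rw [Finset.mem_insert, Finset.mem_singleton] at hu
    rcases hu with rfl | rfl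
    · exact hp
    · exact hq
  rw [Finset.sum_pair h.ne] at h1
  have h2 := ST6_d1 hq h
  have h3 := ST6_d1 hp h.symm
  omega

theorem ST6_e4 {n : ℕ} {G : SimpleGraph (Fin n)} {R : Finset (Fin n)} {p q r : Fin n}
    (hp : p ∈ R) (hq : q ∈ R) (hr : r ∈ R) (hqr : q ≠ r) (h : G.Adj p q) (h' : G.Adj p r) :
    4 ≤ ed2 G R := by
  have h1 : ∑ v ∈ ({p, q, r} : Finset (Fin n)), dg G R v ≤ ed2 G R := by
    refine Finset.sum_le_sum_of_subset ?_
    intro u hu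
    rw [Finset.mem_insert, Finset.mem_insert, Finset.mem_singleton] at hu
    rcases hu with rfl | rfl | rfl
    · exact hp
    · exact hq
    · exact hr
  rw [Finset.sum_insert (by
    rw [Finset.mem_insert, Finset.mem_singleton]
    rintro (e | e)
    · exact h.ne e
    · exact h'.ne e), Finset.sum_pair hqr] at h1
  have h2 := ST6_d2 hq hr hqr h h'
  have h3 := ST6_d1 hp h.symm
  have h4 := ST6_d1 hp h'.symm
  omega

theorem ST6_lt : ∀ i : Fin 5, i ∈ ({0, 1, 2} : Finset (Fin 5)) → i < 3 := by decide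

theorem ST6_M1 : ∀ i : Fin 5, mP 1 i → i = 0 := by decide

theorem ST6_M : ∀ i0 i1 i2 : Fin 5, mM i0 i1 → mM i0 i2 → i1 = i2 := by decide

theorem ST6_P : ∀ i0 i1 i2 : Fin 5, mP i0 i1 → mP i0 i2 → i1 ≠ i2 →
    i0 = 0 ∧ (i1 = 1 ∨ i1 = 2) := by decide

theorem ST6_P3 : ∀ i j : Fin 5, (j = 1 ∨ j = 2) → mP i j → i = 0 := by decide

theorem ST6_J : ∀ j0 j1 : Fin 5, mP j0 j1 → (∀ i, mP i j0 → i = j1) → (∀ i, mP i j1 → i = j0) →
    3 ≤ j0 ∧ 3 ≤ j1 := by decide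

theorem ST6_EM : ∀ i j : Fin 5, mM i j →
    ∃ i' j', mM i' j' ∧ i' ≠ i ∧ i' ≠ j ∧ j' ≠ i ∧ j' ≠ j := by decide

theorem ST6_EP : ∀ i j : Fin 5, mP i j →
    ∃ i' j', mP i' j' ∧ i' ≠ i ∧ i' ≠ j ∧ j' ≠ i ∧ j' ≠ j := by decide

/-- The neighbourhood of `u` contains an edge disjoint from the edge `v c`. -/
theorem ST6_edge {n : ℕ} {G : SimpleGraph (Fin n)} {W : Finset (Fin n)} {m : Fin 5 → Fin 5 → Prop}
    {u v c : Fin n} {h : Fin 5 → Fin n}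
    (hm : ∀ i j : Fin 5, m i j → ∃ i' j', m i' j' ∧ i' ≠ i ∧ i' ≠ j ∧ j' ≠ i ∧ j' ≠ j)
    (hh : Ty m G W u h) (hv : v ∈ W) (hc : c ∈ W) (huv : G.Adj u v) (huc : G.Adj u c)
    (hvc : G.Adj v c) : ∃ p ∈ W, ∃ q ∈ W, G.Adj p q ∧ G.Adj u p ∧ G.Adj u q ∧
      p ≠ v ∧ p ≠ c ∧ q ≠ v ∧ q ≠ c := by
  obtain ⟨i, hi⟩ := (hh.nbr v hv).mp huv
  obtain ⟨j, hj⟩ := (hh.nbr c hc).mp huc
  obtain ⟨i', j', h1, h2, h3, h4, h5⟩ := hm i j ((hh.adj i j).mp (by rw [hi, hj]; exact hvc))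
  refine ⟨h i', hh.mem i', h j', hh.mem j', (hh.adj i' j').mpr h1,
    (hh.nbr _ (hh.mem i')).mpr ⟨i', rfl⟩, (hh.nbr _ (hh.mem j')).mpr ⟨j', rfl⟩, ?_, ?_, ?_, ?_⟩
  · intro e
    exact h2 (hh.inj _ _ (e.trans hi.symm))
  · intro e
    exact h3 (hh.inj _ _ (e.trans hj.symm))
  · intro e
    exact h4 (hh.inj _ _ (e.trans hi.symm))
  · intro e
    exact h5 (hh.inj _ _ (e.trans hj.symm))

/-- The common neighbours of the mate and an outer vertex. -/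
theorem ST6_com {n k : ℕ} {G : SimpleGraph (Fin n)} {W : Finset (Fin n)} (hTYP : S_TYP)
    (hk : 5 ≤ k) (hT : Trm k G W) {v : Fin n} (hv : v ∈ W) {f : Fin 5 → Fin n}
    (hf : Ty mP G W v f) : ∀ z ∈ W, G.Adj (f 0) z → G.Adj (f 1) z → z = v := by
  have hfa : ∀ i, G.Adj v (f i) := fun i => (hf.nbr _ (hf.mem i)).mpr ⟨i, rfl⟩
  have hca : G.Adj (f 0) (f 1) := (hf.adj 0 1).mpr (by decide)
  have hcb : G.Adj (f 0) (f 2) := (hf.adj 0 2).mpr (by decide)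
  obtain ⟨h, hh⟩ := hTYP n k G W hk hT (f 0) (hf.mem 0)
  rcases hh with hh | hh
  · exfalso
    obtain ⟨i0, h0⟩ := (hh.nbr v hv).mp (hfa 0).symm
    obtain ⟨i1, h1⟩ := (hh.nbr (f 1) (hf.mem 1)).mp hca
    obtain ⟨i2, h2⟩ := (hh.nbr (f 2) (hf.mem 2)).mp hcb
    have a1 : mM i0 i1 := (hh.adj i0 i1).mp (by rw [h0, h1]; exact hfa 1)
    have a2 : mM i0 i2 := (hh.adj i0 i2).mp (by rw [h0, h2]; exact hfa 2)
    have e := ST6_M i0 i1 i2 a1 a2
    subst e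
    exact absurd (hf.inj 1 2 (h1.symm.trans h2)) (by decide)
  · obtain ⟨i0, h0⟩ := (hh.nbr v hv).mp (hfa 0).symm
    obtain ⟨i1, h1⟩ := (hh.nbr (f 1) (hf.mem 1)).mp hca
    obtain ⟨i2, h2⟩ := (hh.nbr (f 2) (hf.mem 2)).mp hcb
    have a1 : mP i0 i1 := (hh.adj i0 i1).mp (by rw [h0, h1]; exact hfa 1)
    have a2 : mP i0 i2 := (hh.adj i0 i2).mp (by rw [h0, h2]; exact hfa 2)
    have hne : i1 ≠ i2 := by
      intro e
      subst e
      exact absurd (hf.inj 1 2 (h1.symm.trans h2)) (by decide)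
    obtain ⟨j0, j1⟩ := ST6_P i0 i1 i2 a1 a2 hne
    intro z hz hz1 hz2
    obtain ⟨i3, h3⟩ := (hh.nbr z hz).mp hz1
    have a3 : mP i3 i1 := (hh.adj i3 i1).mp (by rw [h1, h3]; exact hz2.symm)
    have e := ST6_P3 i3 i1 j1 a3
    rw [← h3, e, ← j0, h0]

/-- BLOCK ST6. -/
theorem p_ST6 (hTO1 : S_TO1) (hED1 : S_ED1) (hST4 : S_ST4) (hTYP : S_TYP) : S_ST6 := by
  intro n k G W hk hT v hv f hf g hg
  have hSF : SF G W := hT.1
  have hfa : ∀ i, G.Adj v (f i) := fun i => (hf.nbr _ (hf.mem i)).mpr ⟨i, rfl⟩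
  have hga : ∀ i, G.Adj (f 1) (g i) := fun i => (hg.nbr _ (hg.mem i)).mpr ⟨i, rfl⟩
  have hca : G.Adj (f 0) (f 1) := (hf.adj 0 1).mpr (by decide)
  have hcb : G.Adj (f 0) (f 2) := (hf.adj 0 2).mpr (by decide)
  have hcom1 : ∀ z ∈ W, G.Adj v z → G.Adj (f 1) z → z = f 0 := by
    intro z hz h1 h2
    obtain ⟨i, rfl⟩ := (hf.nbr z hz).mp h1
    rw [ST6_M1 i ((hf.adj 1 i).mp h2)]
  have hcom2 := ST6_com hTYP hk hT hv hf
  obtain ⟨j0, e0⟩ := (hg.nbr v hv).mp (hfa 1).symm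
  obtain ⟨j1, e1⟩ := (hg.nbr (f 0) (hf.mem 0)).mp hca.symm
  have m01 : mP j0 j1 := (hg.adj j0 j1).mp (by rw [e0, e1]; exact hfa 0)
  have c1 : ∀ i, mP i j0 → i = j1 := fun i hi => hg.inj i j1 (by
    rw [e1]
    refine hcom1 _ (hg.mem i) ?_ (hga i)
    have h := (hg.adj i j0).mpr hi
    rw [e0] at h
    exact h.symm)
  have c2 : ∀ i, mP i j1 → i = j0 := fun i hi => hg.inj i j0 (by
    rw [e0]
    refine hcom2 _ (hg.mem i) ?_ (hga i)
    have h := (hg.adj i j1).mpr hi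
    rw [e1] at h
    exact h.symm)
  obtain ⟨hj0, hj1⟩ := ST6_J j0 j1 m01 c1 c2
  have gv : ∀ i : Fin 5, i < 3 → g i ≠ v := fun i hi h => by
    have e := hg.inj i j0 (h.trans e0.symm)
    rw [e] at hi
    exact absurd hj0 (not_le.mpr hi)
  have gc : ∀ i : Fin 5, i < 3 → g i ≠ f 0 := fun i hi h => by
    have e := hg.inj i j1 (h.trans e1.symm)
    rw [e] at hi
    exact absurd hj1 (not_le.mpr hi)
  -- the first two steps
  have hW1 := hED1 n G W (f 0) (hf.mem 0)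
  rw [hST4 n k G W hk hT _ (hf.mem 0)] at hW1
  have ne01 : f 1 ≠ f 0 := fun h => absurd (hf.inj _ _ h) (by decide)
  have ha1 : f 1 ∈ W.erase (f 0) := Finset.mem_erase.mpr ⟨ne01, hf.mem 1⟩
  have hd1 : dg G (W.erase (f 0)) (f 1) + 1 = dg G W (f 1) := ST6_dga (hf.mem 0) hca.symm
  rw [hST4 n k G W hk hT _ (hf.mem 1)] at hd1
  have hd1' : dg G (W.erase (f 0)) (f 1) = 4 := by omega
  obtain ⟨R1, E1⟩ := hTO1 n k G (W.erase (f 0)) (f 1) (hSF.mono (Finset.erase_subset _ _)) ha1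
    (by omega)
  rw [hd1'] at E1
  have gR : ∀ i : Fin 5, i < 3 → g i ∈ nh G (W.erase (f 0)) (f 1) := fun i hi =>
    mem_nh.mpr ⟨Finset.mem_erase.mpr ⟨gc i hi, hg.mem i⟩, hga i⟩
  have vR : v ∈ nh G (W.erase (f 0)) (f 1) :=
    mem_nh.mpr ⟨Finset.mem_erase.mpr ⟨(hfa 0).ne, hv⟩, (hfa 1).symm⟩
  have bR : f 2 ∉ nh G (W.erase (f 0)) (f 1) := fun h =>
    absurd (ST6_M1 2 ((hf.adj 1 2).mp (mem_nh.mp h).2)) (by decide)
  have hR4 : 4 ≤ ed2 G (nh G (W.erase (f 0)) (f 1)) :=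
    ST6_e4 (gR 0 (by decide)) (gR 1 (by decide)) (gR 2 (by decide))
      (fun h => absurd (hg.inj _ _ h) (by decide)) ((hg.adj 0 1).mpr (by decide))
      ((hg.adj 0 2).mpr (by decide))
  generalize nh G (W.erase (f 0)) (f 1) = R at R1 E1 gR vR bR hR4
  -- step (4)
  have hv2 : v ∈ (W.erase (f 0)).erase (f 1) :=
    Finset.mem_erase.mpr ⟨(hfa 1).ne, Finset.mem_erase.mpr ⟨(hfa 0).ne, hv⟩⟩
  have hd6 : 6 ≤ dg (cl G R) ((W.erase (f 0)).erase (f 1)) v := by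
    have hAB : Disjoint (({2, 3, 4} : Finset (Fin 5)).image f)
        (({0, 1, 2} : Finset (Fin 5)).image g) := by
      rw [Finset.disjoint_left]
      intro u hu hu'
      obtain ⟨i, hi, rfl⟩ := Finset.mem_image.mp hu
      obtain ⟨j, _, hj⟩ := Finset.mem_image.mp hu'
      have h := hga j
      rw [hj] at h
      have h2 := ST6_M1 i ((hf.adj 1 i).mp h)
      rw [h2] at hi
      exact absurd hi (by decide)
    have hcard : (({2, 3, 4} : Finset (Fin 5)).image f ∪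
        ({0, 1, 2} : Finset (Fin 5)).image g).card = 6 := by
      rw [Finset.card_union_of_disjoint hAB,
        Finset.card_image_of_injective _ (fun i j h => hf.inj i j h),
        Finset.card_image_of_injective _ (fun i j h => hg.inj i j h)]
      rfl
    rw [← hcard, ← card_nh]
    refine Finset.card_le_card ?_
    intro u hu
    rcases Finset.mem_union.mp hu with hu | hu
    · obtain ⟨i, hi, rfl⟩ := Finset.mem_image.mp hu
      have h0 : i ≠ 0 := by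
        rintro rfl
        exact absurd hi (by decide)
      have h1 : i ≠ 1 := by
        rintro rfl
        exact absurd hi (by decide)
      exact mem_nh.mpr ⟨Finset.mem_erase.mpr ⟨fun h => h1 (hf.inj _ _ h),
        Finset.mem_erase.mpr ⟨fun h => h0 (hf.inj _ _ h), hf.mem i⟩⟩, Or.inl (hfa i)⟩
    · obtain ⟨i, hi, rfl⟩ := Finset.mem_image.mp hu
      have h3 : i < 3 := ST6_lt i hi
      exact mem_nh.mpr ⟨Finset.mem_erase.mpr ⟨(hga i).ne', Finset.mem_erase.mpr ⟨gc i h3,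
        hg.mem i⟩⟩, Or.inr ⟨(gv i h3).symm, vR, gR i h3⟩⟩
  have E2 := hED1 n (cl G R) ((W.erase (f 0)).erase (f 1)) v hv2
  -- step (5)
  have adjb : ∀ u, (cl G R).Adj (f 2) u ↔ G.Adj (f 2) u := fun u =>
    ⟨fun h => h.elim id (fun h => absurd h.2.1 bR), Or.inl⟩
  have nba : ¬ G.Adj (f 2) (f 1) := fun h =>
    absurd (ST6_M1 2 ((hf.adj 1 2).mp h.symm)) (by decide)
  have hb3 : f 2 ∈ ((W.erase (f 0)).erase (f 1)).erase v :=
    Finset.mem_erase.mpr ⟨(hfa 2).ne', Finset.mem_erase.mpr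
      ⟨fun h => absurd (hf.inj _ _ h) (by decide), Finset.mem_erase.mpr
      ⟨fun h => absurd (hf.inj _ _ h) (by decide), hf.mem 2⟩⟩⟩
  have q0 : dg (cl G R) (((W.erase (f 0)).erase (f 1)).erase v) (f 2) =
      dg G (((W.erase (f 0)).erase (f 1)).erase v) (f 2) := by
    rw [← card_nh, ← card_nh]
    congr 1
    ext u
    rw [mem_nh, mem_nh, adjb]
  have q1 := ST6_dga (G := G) hv2 (hfa 2).symm
  have q2 := ST6_dgn (G := G) (W := W.erase (f 0)) nba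
  have q3 := ST6_dga (G := G) (hf.mem 0) hcb.symm
  have q4 := hST4 n k G W hk hT _ (hf.mem 2)
  have q5 : dg (cl G R) (((W.erase (f 0)).erase (f 1)).erase v) (f 2) = 3 := by omega
  have hN : 2 ≤ ed2 (cl G R) (nh (cl G R) (((W.erase (f 0)).erase (f 1)).erase v) (f 2)) := by
    have key : ∃ p ∈ W, ∃ q ∈ W, G.Adj p q ∧ G.Adj (f 2) p ∧ G.Adj (f 2) q ∧
        p ≠ v ∧ p ≠ f 0 ∧ q ≠ v ∧ q ≠ f 0 := by
      obtain ⟨h, hh⟩ := hTYP n k G W hk hT (f 2) (hf.mem 2)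
      rcases hh with hh | hh
      · exact ST6_edge ST6_EM hh hv (hf.mem 0) (hfa 2).symm hcb.symm (hfa 0)
      · exact ST6_edge ST6_EP hh hv (hf.mem 0) (hfa 2).symm hcb.symm (hfa 0)
    obtain ⟨p, hp, q, hq, hpq, hbp, hbq, h1, h2, h3, h4⟩ := key
    refine ST6_e2 (p := p) (q := q) ?_ ?_ (Or.inl hpq)
    · exact mem_nh.mpr ⟨Finset.mem_erase.mpr ⟨h1, Finset.mem_erase.mpr ⟨fun h => nba (h ▸ hbp),
        Finset.mem_erase.mpr ⟨h2, hp⟩⟩⟩, Or.inl hbp⟩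
    · exact mem_nh.mpr ⟨Finset.mem_erase.mpr ⟨h3, Finset.mem_erase.mpr ⟨fun h => nba (h ▸ hbq),
        Finset.mem_erase.mpr ⟨h4, hq⟩⟩⟩, Or.inl hbq⟩
  obtain ⟨R3, E3⟩ := hTO1 n k (cl G R) (((W.erase (f 0)).erase (f 1)).erase v) (f 2)
    (R1.sf.mono (Finset.erase_subset _ _)) hb3 (by omega)
  rw [q5] at E3
  have R0 : Rdc k G G W (W.erase (f 0)) 0 := Rdc.del hSF (Finset.erase_subset (f 0) W)
  have R2 : Rdc k (cl G R) (cl G R) ((W.erase (f 0)).erase (f 1))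
      (((W.erase (f 0)).erase (f 1)).erase v) 0 :=
    Rdc.del R1.sf (Finset.erase_subset _ _)
  have RR := ((R0.trans R1).trans R2).trans R3
  have k1 := Finset.card_erase_add_one (hf.mem 0)
  have k2 := Finset.card_erase_add_one ha1
  have k3 := Finset.card_erase_add_one hv2
  have k4 := Finset.card_erase_add_one hb3
  have hfin := hT.2 _ _ _ RR (by omega)
  omega

end Frag.S4
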