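import Pool.Agent.Work.MP_547619_s4.Defs

/-!
# MP_547619_co, THEOREM S4, block STA: first facts in the terminal situation
-/

set_option autoImplicit false

namespace Frag.S4

open SimpleGraph Frag.Kz

/-- Block STA. -/
theorem p_STA (h1 : S_TO1) (h2 : S_ED1) : S_STA := by
  intro n k G W hk hT v hv
  obtain ⟨hSF, hT⟩ := hT
  have hc : (W.erase v).card + 1 = W.card := Finset.card_erase_add_one hv
  have hE := h2 n G W v hv
  have hA := hT G (W.erase v) 0 (Rdc.del hSF (Finset.erase_subset v W)) (by omega)
  have hd : dg G W v ≤ 5 := by omega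
  refine ⟨hd, ?_⟩
  obtain ⟨hR, hN⟩ := h1 n k G W v hSF hv (hd.trans hk)
  have hB := hT _ _ _ hR (by omega)
  have hq : dg G W v * (dg G W v - 1) + dg G W v = dg G W v * dg G W v := by
    cases dg G W v with
    | zero => rfl
    | succ d => simp only [Nat.add_sub_cancel]; ring
  omega

end Frag.S4
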