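import Pool.Agent.Work.MP_547619_s4.Defs

/-! Block SZE: sizes of the points. -/

set_option autoImplicit false

namespace Frag.S4

open SimpleGraph Frag.Kz

theorem SZE_ct_mem {n : ℕ} (PS : Finset (Fin n)) (nb : Fin n → Fin 5 → Fin n) (w : Fin n) :
    ct nb w ∈ trs PS nb w := by
  unfold trs
  split_ifs <;> simp

theorem p_SZE (h1 : S_LBL) (h2 : S_PTC) (h3 : S_INC) : S_SZE := by
  intro n G W PS nb FS LF hS
  have hL := h1 n G W PS nb FS LF hS
  have hP := h2 n G W PS nb FS LF hS
  have hI := h3 n G W PS nb FS LF hS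
  have hlbp : ∀ (p : ℕ) (τ : Finset (Fin n)), p = lb nb FS LF τ → dec n p = lbs nb FS LF τ := by
    intro p τ h
    rw [h]
    unfold lb
    rw [dec_enc]
  have hA1 : ∀ p, sz (W \ FS) (pts PS nb FS LF) p ≤ 12 := by
    intro p
    unfold sz
    by_cases hc : (dec n p).card = 3
    · have hle : ((W \ FS).filter (fun v => p ∈ pts PS nb FS LF v)).card ≤
          inc PS nb FS LF (W \ FS) (dec n p) := by
        rw [Finset.card_filter]
        unfold inc
        refine Finset.sum_le_sum ?_
        intro x hx
        split_ifs with hp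
        · refine Finset.card_pos.2 ?_
          rcases (hP x hx).2.2.2.1 p hp with ⟨τ, hτ, hpτ⟩ | ⟨_, he⟩ | ⟨_, he, _⟩
          · exact ⟨τ, Finset.mem_filter.2 ⟨hτ, (hlbp p τ hpτ).symm⟩⟩
          · exfalso
            rw [he] at hc
            unfold ee at hc
            rw [dec_enc] at hc
            have := Finset.card_le_two (a := x) (b := nb x 0)
            omega
          · exfalso
            rw [he, dec_enc] at hc
            simp at hc
        · exact Nat.zero_le _
      have h4 := (hI (dec n p) hc).1
      have h5 : (dec n p ∩ FS).card ≤ (dec n p).card := Finset.card_le_card Finset.inter_subset_left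
      omega
    · by_cases hne : ((W \ FS).filter (fun v => p ∈ pts PS nb FS LF v)).Nonempty
      · have hkey : ∀ y ∈ (W \ FS).filter (fun v => p ∈ pts PS nb FS LF v),
            y ∈ dec n p ∧ (dec n p).card ≤ 2 := by
          intro y hy
          obtain ⟨hyW, hyp⟩ := Finset.mem_filter.1 hy
          rcases (hP y hyW).2.2.2.1 p hyp with ⟨τ, hτ, hpτ⟩ | ⟨_, he⟩ | ⟨_, he, _⟩
          · exfalso
            apply hc
            rw [hlbp p τ hpτ]
            exact hL.2.2.2.1 y (Finset.mem_sdiff.1 hyW).1 τ hτ
          · rw [he]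
            unfold ee
            rw [dec_enc]
            exact ⟨Finset.mem_insert_self _ _, Finset.card_le_two⟩
          · rw [he, dec_enc]
            simp
        obtain ⟨x0, hx0⟩ := hne
        have h5 : ((W \ FS).filter (fun v => p ∈ pts PS nb FS LF v)).card ≤ (dec n p).card :=
          Finset.card_le_card (fun y hy => (hkey y hy).1)
        have h6 := (hkey x0 hx0).2
        omega
      · rw [Finset.not_nonempty_iff_eq_empty] at hne
        rw [hne]
        simp
  have hA2 : ∀ p, (FS.filter (fun u => enc (zs nb LF u) = p)).card ≤ 6 := by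
    intro p
    by_cases hc : (dec n p).card = 3
    · have hle : (FS.filter (fun u => enc (zs nb LF u) = p)).card ≤ zc nb FS LF (dec n p) := by
        unfold zc
        refine Finset.card_le_card ?_
        intro u hu
        obtain ⟨hu1, hu2⟩ := Finset.mem_filter.1 hu
        refine Finset.mem_filter.2 ⟨hu1, ?_⟩
        rw [← hu2, dec_enc]
      have h4 := (hI (dec n p) hc).2.2.1
      have h5 : (dec n p ∩ FS).card ≤ (dec n p).card := Finset.card_le_card Finset.inter_subset_left
      omega
    · have he : FS.filter (fun u => enc (zs nb LF u) = p) = ∅ := by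
        rw [Finset.filter_eq_empty_iff]
        intro u hu hup
        obtain ⟨w, hw, _, hzw, _⟩ := hL.2.2.1 u hu
        apply hc
        rw [← hup, dec_enc, hzw]
        exact hS.tri.card w (hS.loc.sub (hS.cov.sub hw)) _ (SZE_ct_mem PS nb w)
      rw [he]
      simp
  refine ⟨hA1, hA2, ?_⟩
  intro C
  have hT0 : 3 * (T0 W PS nb FS LF C).card ≤ 12 * C.card := by
    have e1 : 3 * (T0 W PS nb FS LF C).card = ∑ x ∈ T0 W PS nb FS LF C, (pts PS nb FS LF x).card := by
      rw [Finset.sum_congr rfl (g := fun _ => 3)]
      · rw [Finset.sum_const, smul_eq_mul, mul_comm]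
      · intro x hx
        exact (hP x (Finset.mem_filter.1 hx).1).1
    have e2 : ∑ x ∈ T0 W PS nb FS LF C, (pts PS nb FS LF x).card ≤
        ∑ x ∈ T0 W PS nb FS LF C, ∑ p ∈ C, (if p ∈ pts PS nb FS LF x then 1 else 0) := by
      refine Finset.sum_le_sum ?_
      intro x hx
      have hsub := (Finset.mem_filter.1 hx).2
      rw [← Finset.card_filter]
      refine Finset.card_le_card ?_
      intro p hp
      exact Finset.mem_filter.2 ⟨hsub hp, hp⟩
    have e3 : ∑ x ∈ T0 W PS nb FS LF C, ∑ p ∈ C, (if p ∈ pts PS nb FS LF x then 1 else 0) ≤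
        ∑ p ∈ C, 12 := by
      rw [Finset.sum_comm]
      refine Finset.sum_le_sum ?_
      intro p hp
      refine le_trans ?_ (hA1 p)
      unfold sz
      rw [← Finset.card_filter]
      refine Finset.card_le_card ?_
      intro x hx
      obtain ⟨hx1, hx2⟩ := Finset.mem_filter.1 hx
      exact Finset.mem_filter.2 ⟨(Finset.mem_filter.1 hx1).1, hx2⟩
    rw [Finset.sum_const, smul_eq_mul] at e3
    omega
  have hT1 : (T1 nb FS LF C).card ≤ 6 * C.card := by
    have e1 : T1 nb FS LF C ⊆ C.biUnion (fun p => FS.filter (fun u => enc (zs nb LF u) = p)) := by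
      intro u hu
      obtain ⟨hu1, hu2⟩ := Finset.mem_filter.1 hu
      exact Finset.mem_biUnion.2 ⟨_, hu2, Finset.mem_filter.2 ⟨hu1, rfl⟩⟩
    refine (Finset.card_le_card e1).trans (Finset.card_biUnion_le.trans ?_)
    refine (Finset.sum_le_sum (fun p _ => hA2 p)).trans ?_
    rw [Finset.sum_const, smul_eq_mul, mul_comm]
  unfold TT
  have := Finset.card_union_le (T0 W PS nb FS LF C) (T1 nb FS LF C)
  omega

end Frag.S4
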