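import Pool.Agent.Work.MP_547619_s4.Defs

set_option autoImplicit false

/-! # Block TE4: at least five boundary vertices -/

namespace Frag.S4

open SimpleGraph Frag.Kz

theorem TE4_arith {t r a b c w : ℕ} (h1 : 6 ≤ t + r) (h2 : r ≤ 4) (h3 : a + 5 * t + r ≤ w)
    (h4 : w < c) (h5 : c + b = a + r * (r - 1)) : False := by
  interval_cases r <;> omega

/-- Block TE4. -/
theorem p_TE4 (h1 : S_REM) (h2 : S_EDR) (h3 : Frag.K4.S_EDZ) : S_TE4 := by
  classical
  intro n k G W T X hT h5 hTW hXW hTX hTne hTk hnb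
  by_contra hX
  have hX4 : X.card ≤ 4 := by omega
  set R : Finset (Fin n) := X.filter (fun x => ∃ t ∈ T, G.Adj x t) with hR
  have hRX : R ⊆ X := Finset.filter_subset _ _
  have hR4 : R.card ≤ 4 := (Finset.card_le_card hRX).trans hX4
  have hTR : Disjoint T R := hTX.mono_right hRX
  have hRW : R ⊆ W := hRX.trans hXW
  have hnb' : ∀ t ∈ T, ∀ u ∈ W, G.Adj t u → u ∈ T ∪ R := by
    intro t ht u hu htu
    rcases Finset.mem_union.1 (hnb t ht u hu htu) with h | h
    · exact Finset.mem_union_left _ h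
    · exact Finset.mem_union_right _ (Finset.mem_filter.2 ⟨h, t, ht, htu.symm⟩)
  have hRdc := h1 n k G W T ∅ R hT.1 hTW (Finset.empty_subset _) hRW (Finset.disjoint_empty_right _)
    hTR (Finset.disjoint_empty_left _) (by omega)
    (fun t ht u hu htu => by rw [Finset.union_empty]; exact hnb' t ht u hu htu)
    (fun r hr => Or.inl (by
      obtain ⟨_, t, ht, hrt⟩ := Finset.mem_filter.1 hr
      exact ⟨t, ht, hrt⟩))
  rw [Finset.union_empty] at hRdc
  have hTpos : 0 < T.card := Finset.card_pos.2 hTne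
  have hcard : (W \ T).card + T.card = W.card := Finset.card_sdiff_add_card_eq_card hTW
  have hlt := hT.2 _ _ _ hRdc (by omega)
  have hRWT : R ⊆ W \ T := fun x hx => Finset.mem_sdiff.2
    ⟨hRW hx, fun hxT => (Finset.disjoint_left.1 hTR) hxT hx⟩
  have hedr := h2 n G (W \ T) R hRWT
  obtain ⟨hz1, hz2⟩ := h3 n G W T hTW
  have hsum : ∑ u ∈ T, dg G T u + ∑ u ∈ T, dg G (W \ T) u = T.card * 5 := by
    rw [← Finset.sum_add_distrib]
    refine (Finset.sum_congr rfl fun u hu => ?_).trans (by rw [Finset.sum_const, smul_eq_mul])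
    rw [← hz1 u]
    exact h5 u (hTW hu)
  have he : R.card ≤ ∑ u ∈ T, dg G (W \ T) u := by
    have hsub : R ⊆ T.biUnion (fun u => nh G (W \ T) u) := by
      intro r hr
      obtain ⟨_, t, ht, hrt⟩ := Finset.mem_filter.1 hr
      exact Finset.mem_biUnion.2 ⟨t, ht, mem_nh.2 ⟨hRWT hr, hrt.symm⟩⟩
    exact (Finset.card_le_card hsub).trans Finset.card_biUnion_le
  obtain ⟨t, ht⟩ := hTne
  have hdeg : 6 ≤ T.card + R.card := by
    have hsub : nh G W t ⊆ T.erase t ∪ R := by
      intro u hu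
      obtain ⟨hu1, hu2⟩ := mem_nh.1 hu
      rcases Finset.mem_union.1 (hnb' t ht u hu1 hu2) with h | h
      · exact Finset.mem_union_left _ (Finset.mem_erase.2 ⟨hu2.ne', h⟩)
      · exact Finset.mem_union_right _ h
    have h6 := (Finset.card_le_card hsub).trans (Finset.card_union_le _ _)
    rw [card_nh, h5 t (hTW ht), Finset.card_erase_of_mem ht] at h6
    omega
  exact TE4_arith (a := ed2 G (W \ T)) (b := ed2 G R) (c := ed2 (cl G R) (W \ T)) (w := ed2 G W)
    hdeg hR4 (by omega) (by omega) hedr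

end Frag.S4
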