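import Pool.Agent.Work.MP_547619_s4.Defs

/-!
# Block TER: the terminal inequality for a set of five vertices
-/

set_option autoImplicit false

namespace Frag.S4

open SimpleGraph Frag.Kz

open Classical in
theorem TER_swap {n : ℕ} (G : SimpleGraph (Fin n)) (A B : Finset (Fin n)) :
    ∑ v ∈ A, dg G B v = ∑ u ∈ B, dg G A u := by
  unfold dg
  have h := Finset.sum_card_bipartiteAbove_eq_sum_card_bipartiteBelow (s := A) (t := B) G.Adj
  have h1 : ∀ v ∈ A, (B.filter (fun u => G.Adj v u)).card = (B.bipartiteAbove G.Adj v).card :=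
    fun v _ => rfl
  have h2 : ∀ u ∈ B, (A.filter (fun v => G.Adj u v)).card = (A.bipartiteBelow G.Adj u).card := by
    intro u _
    unfold Finset.bipartiteBelow
    refine congrArg Finset.card (Finset.filter_congr fun v _ => ?_)
    exact G.adj_comm u v
  rw [Finset.sum_congr rfl h1, Finset.sum_congr rfl h2]
  exact h

theorem TER_dg_zero {n : ℕ} (G : SimpleGraph (Fin n)) (O : Finset (Fin n)) (v : Fin n)
    (h : ∀ u ∈ O, ¬ G.Adj v u) : dg G O v = 0 := by
  rw [← card_nh, Finset.card_eq_zero, Finset.eq_empty_iff_forall_notMem]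
  intro u hu
  rw [mem_nh] at hu
  exact h u hu.1 hu.2

theorem p_TER (hREM : S_REM) (hEDR : S_EDR) (hEDZ : Frag.K4.S_EDZ) : S_TER := by
  intro n k G W T X R hTrm hdeg hTW hXW hTX hTne hTk hTN hX3 hRX hR5
  set D : Finset (Fin n) := X \ R with hD
  set Z : Finset (Fin n) := T ∪ D with hZ
  set O : Finset (Fin n) := W \ (T ∪ X) with hO
  have hDX : D ⊆ X := Finset.sdiff_subset
  have hDW : D ⊆ W := hDX.trans hXW
  have hRW : R ⊆ W := hRX.trans hXW
  have hTD : Disjoint T D := hTX.mono_right hDX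
  have hTR : Disjoint T R := hTX.mono_right hRX
  have hDR : Disjoint D R := Finset.sdiff_disjoint
  have hDR' : D ∪ R = X := Finset.sdiff_union_of_subset hRX
  have hTDR : T ∪ D ∪ R = T ∪ X := by rw [Finset.union_assoc, hDR']
  have hZW : Z ⊆ W := Finset.union_subset hTW hDW
  have hR : Rdc k G (cl G R) W (W \ Z) T.card := by
    refine hREM n k G W T D R hTrm.1 hTW hDW hRW hTD hTR hDR (by omega) ?_ ?_
    · intro t ht u hu htu
      rw [hTDR]
      exact hTN t ht u hu htu
    · intro r hr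
      refine Or.inr ?_
      rw [hTDR]
      exact hX3 r (hRX hr)
  have hcZ : (W \ Z).card + T.card + D.card = W.card := by
    have h1 := Finset.card_sdiff_add_card_eq_card hZW
    have h2 : Z.card = T.card + D.card := Finset.card_union_of_disjoint hTD
    omega
  have hcD : D.card + 5 = X.card := by
    have h1 := Finset.card_sdiff_add_card_eq_card hRX
    rw [hR5] at h1
    exact h1
  have hTpos : 0 < T.card := Finset.card_pos.mpr hTne
  have hmain := hTrm.2 (cl G R) (W \ Z) T.card hR (by omega)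
  have hRZ : R ⊆ W \ Z := by
    intro r hr
    rw [Finset.mem_sdiff]
    refine ⟨hRW hr, fun h => ?_⟩
    rcases Finset.mem_union.mp h with h | h
    · exact Finset.disjoint_left.mp hTR h hr
    · exact Finset.disjoint_left.mp hDR h hr
  have hE1 := hEDR n G (W \ Z) R hRZ
  rw [hR5] at hE1
  obtain ⟨hs, hE2⟩ := hEDZ n G W Z hZW
  have hOeq : (W \ Z) \ R = O := by
    rw [sdiff_sdiff_left]
    show W \ (Z ∪ R) = O
    rw [hZ, hTDR]
  have hs2 : ∀ u, dg G (W \ Z) u = dg G R u + dg G O u := by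
    intro u
    have h := (hEDZ n G (W \ Z) R hRZ).1 u
    rw [hOeq] at h
    exact h
  have h5 : ∑ u ∈ Z, dg G Z u + ∑ u ∈ Z, dg G (W \ Z) u = 5 * Z.card := by
    rw [← Finset.sum_add_distrib, Finset.sum_congr rfl fun u hu => by
      rw [← hs u, hdeg u (hZW hu)], Finset.sum_const, smul_eq_mul, mul_comm]
  have he : ∑ u ∈ Z, dg G (W \ Z) u = ∑ u ∈ Z, dg G R u + ∑ u ∈ Z, dg G O u := by
    rw [← Finset.sum_add_distrib]
    exact Finset.sum_congr rfl fun u _ => hs2 u
  have hout : ∑ u ∈ Z, dg G O u = ∑ u ∈ D, dg G O u := by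
    rw [hZ, Finset.sum_union hTD]
    have h0 : ∑ u ∈ T, dg G O u = 0 := by
      refine Finset.sum_eq_zero fun t ht => TER_dg_zero G O t fun u hu htu => ?_
      rw [hO, Finset.mem_sdiff] at hu
      exact hu.2 (hTN t ht u hu.1 htu)
    rw [h0, zero_add]
  have hXs : ∑ u ∈ D, dg G O u + ∑ u ∈ R, dg G O u = ∑ u ∈ X, dg G O u := Finset.sum_sdiff hRX
  have hsw : ∑ u ∈ Z, dg G R u = ∑ r ∈ R, dg G Z r := TER_swap G Z R
  have hR25 : ∑ r ∈ R, dg G Z r + (ed2 G R + ∑ r ∈ R, dg G O r) = 25 := by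
    unfold ed2
    rw [← Finset.sum_add_distrib, ← Finset.sum_add_distrib, Finset.sum_congr rfl fun r hr => by
      rw [← hs2 r, ← hs r, hdeg r (hRW hr)], Finset.sum_const, smul_eq_mul, hR5]
  have hZc : Z.card = T.card + D.card := Finset.card_union_of_disjoint hTD
  omega

end Frag.S4
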