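import Pool.Agent.Work.MP_547619_s4.Defs

/-!
# MP_547619_co, THEOREM S4: block TO1

Removing one vertex and making its neighbourhood complete.
-/

set_option autoImplicit false

namespace Frag.S4

open SimpleGraph Frag.Kz

theorem p_TO1 (hREM : S_REM) (hEDR : S_EDR) (hED1 : Frag.Kz.S_ED1) : S_TO1 := by
  classical
  intro n k G W v hSF hv hk
  have hvR : v ∉ nh G W v := fun h => G.irrefl (mem_nh.1 h).2
  have hRW : nh G W v ⊆ W := fun u hu => (mem_nh.1 hu).1
  have hRe : nh G W v ⊆ W.erase v := by
    intro u hu
    refine Finset.mem_erase.2 ⟨?_, hRW hu⟩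
    rintro rfl
    exact hvR hu
  have hcard : (nh G W v).card = dg G W v := card_nh G W v
  refine ⟨?_, ?_⟩
  · have h := hREM n k G W {v} ∅ (nh G W v) hSF (by simpa using hv) (by simp) hRW
      (by simp) (by simpa using hvR) (by simp)
      (by rw [Finset.card_singleton, hcard]; omega)
      (by
        intro t ht u hu hadj
        rw [Finset.mem_singleton] at ht
        subst ht
        exact Finset.mem_union.2 (Or.inr (mem_nh.2 ⟨hu, hadj⟩)))
      (by
        intro r hr
        exact Or.inl ⟨v, Finset.mem_singleton_self v, (mem_nh.1 hr).2.symm⟩)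
    have hW : W \ ({v} ∪ ∅) = W.erase v := by
      ext x
      simp only [Finset.mem_sdiff, Finset.mem_union, Finset.mem_singleton, Finset.notMem_empty,
        or_false, Finset.mem_erase]
      exact and_comm
    rw [hW, Finset.card_singleton] at h
    exact h
  · have h1 := hEDR n G (W.erase v) (nh G W v) hRe
    have h2 := hED1 n G W v hv
    rw [hcard] at h1
    omega

end Frag.S4
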