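import Pool.Agent.Work.MP_547619_s4.Defs
import Pool.Agent.Work.MP_547619_kz.B_KPF

/-!
# Block TOR (helper46)
-/

set_option autoImplicit false

namespace Frag.S4

open SimpleGraph Frag.Kz

lemma TOR_ext {n k : ℕ} (H : SimpleGraph (Fin n)) (F' N0 : Finset (Fin n)) (hN0 : N0 ⊆ F')
    (hcl : ∀ x ∈ N0, ∀ y ∈ N0, x ≠ y → H.Adj x y) (hB : Build H ∅ F')
    (hQ : ∀ Q ⊆ F', (∀ x ∈ Q, ∀ y ∈ Q, x ≠ y → H.Adj x y) → Q.card ≤ k + 1)
    (T : Finset (Fin n)) : Disjoint F' T → T.card + N0.card ≤ k + 1 →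
    ∃ H' : SimpleGraph (Fin n), Build H' ∅ (F' ∪ T) ∧
      (∀ Q ⊆ F' ∪ T, (∀ x ∈ Q, ∀ y ∈ Q, x ≠ y → H'.Adj x y) → Q.card ≤ k + 1) ∧
      (∀ x ∈ F', ∀ y ∈ F', (H.Adj x y ↔ H'.Adj x y)) ∧
      ∀ t ∈ T, ∀ u ∈ N0 ∪ T, t ≠ u → H'.Adj t u := by
  classical
  induction T using Finset.induction_on with
  | empty =>
    intro _ _
    refine ⟨H, ?_, ?_, fun x _ y _ => Iff.rfl, fun t ht => absurd ht (Finset.notMem_empty t)⟩
    · rw [Finset.union_empty]
      exact hB
    · rw [Finset.union_empty]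
      exact hQ
  | insert t T htT ih =>
    intro hdis hcard
    rw [Finset.disjoint_insert_right] at hdis
    rw [Finset.card_insert_of_notMem htT] at hcard
    obtain ⟨H1, hB1, hQ1, hF1, hT1⟩ := ih hdis.2 (by omega)
    have htW : t ∉ F' ∪ T := fun h => (Finset.mem_union.1 h).elim hdis.1 htT
    have hNW : N0 ∪ T ⊆ F' ∪ T := Finset.union_subset_union_left hN0
    have hNc : (N0 ∪ T).card ≤ k := (Finset.card_union_le _ _).trans (by omega)
    have hNcl : ∀ x ∈ N0 ∪ T, ∀ y ∈ N0 ∪ T, x ≠ y → H1.Adj x y := by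
      intro x hx y hy hxy
      rcases Finset.mem_union.1 hx with h1 | h1
      · rcases Finset.mem_union.1 hy with h2 | h2
        · exact (hF1 x (hN0 h1) y (hN0 h2)).1 (hcl x h1 y h2 hxy)
        · exact (hT1 y h2 x hx hxy.symm).symm
      · exact hT1 x h1 y hy hxy
    obtain ⟨H', hB', hQ', hW', hN'⟩ := kpf_add hB1 hQ1 htW (N0 ∪ T) hNW hNc hNcl
    have hins : insert t (F' ∪ T) = F' ∪ insert t T := by
      rw [Finset.union_insert]
    rw [hins] at hB' hQ'
    refine ⟨H', hB', hQ', ?_, ?_⟩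
    · intro x hx y hy
      rw [hF1 x hx y hy]
      exact hW' x (Finset.mem_union_left _ hx) y (Finset.mem_union_left _ hy)
    · intro s hs u hu hsu
      rw [Finset.union_insert] at hu
      rcases Finset.mem_insert.1 hs with h1 | h1
      · rcases Finset.mem_insert.1 hu with h2 | h2
        · exact absurd (h1.trans h2.symm) hsu
        · rw [h1]
          exact hN' u h2
      · rcases Finset.mem_insert.1 hu with h2 | h2
        · rw [h2]
          exact (hN' s (Finset.mem_union_right _ h1)).symm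
        · exact (hW' s (Finset.mem_union_right _ h1) u (hNW h2)).1 (hT1 s h1 u h2 hsu)

theorem p_TOR : S_TOR := by
  classical
  rintro n k G R F' T ⟨H, hH, hB, hQ⟩ hdis hcard hT
  have hcl : ∀ x ∈ R ∩ F', ∀ y ∈ R ∩ F', x ≠ y → H.Adj x y := by
    intro x hx y hy hxy
    rw [Finset.mem_inter] at hx hy
    exact hH x hx.2 y hy.2 (Or.inr ⟨hxy, hx.1, hy.1⟩)
  have hc : T.card + (R ∩ F').card ≤ k + 1 := by
    have := Finset.card_le_card (Finset.inter_subset_left (s₁ := R) (s₂ := F'))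
    omega
  obtain ⟨H', hB', hQ', hF', hT'⟩ := TOR_ext H F' (R ∩ F') Finset.inter_subset_right hcl hB hQ T
    hdis hc
  refine ⟨H', ?_, hB', hQ'⟩
  intro x hx y hy hxy
  rcases Finset.mem_union.1 hx with h1 | h1
  · rcases Finset.mem_union.1 hy with h2 | h2
    · exact (hF' x h1 y h2).1 (hH x h1 y h2 (Or.inl hxy))
    · exact (hT' y h2 x (Finset.mem_union_left _ (Finset.mem_inter.2
        ⟨hT y h2 x h1 hxy.symm, h1⟩)) hxy.ne').symm
  · rcases Finset.mem_union.1 hy with h2 | h2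
    · exact hT' x h1 y (Finset.mem_union_left _ (Finset.mem_inter.2 ⟨hT x h1 y h2 hxy, h2⟩))
        hxy.ne
    · exact hT' x h1 y (Finset.mem_union_right _ h2) hxy.ne

end Frag.S4
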