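import Pool.Agent.Work.MP_547619_s4.Defs

/-! # Block TRM (S4) -/

set_option autoImplicit false

namespace Frag.S4

open SimpleGraph Frag.Kz

lemma TRM_keep_mono {n : ℕ} {G : SimpleGraph (Fin n)} {k k' : ℕ} {F : Finset (Fin n)}
    (h : Keep G k F) (hk : k ≤ k') : Keep G k' F := by
  obtain ⟨H, h1, h2, h3⟩ := h
  exact ⟨H, h1, h2, fun Q hQ hc => (h3 Q hQ hc).trans (by omega)⟩

theorem p_TRM (hST4 : S_ST4) (hLCC : S_LCC) (hTRS : S_TRS) (hCVR : S_CVR) (hPTC : S_PTC)
    (hCNT : S_CNT) (hBAR : S_BAR) (hMTG : S_MTG) (hCHO : Frag.K4.S_CHO) (hKPT : S_KPT) :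
    S_TRM := by
  classical
  intro n k L G W hL hk hLW hT
  obtain ⟨PS, nb, hloc⟩ := hLCC n k G W (by omega) hT
  have htri := hTRS n G W PS nb hloc
  obtain ⟨FS, LF, hcov⟩ := hCVR n G W PS nb hloc htri
  have hS : Str G W PS nb FS LF := ⟨hloc, htri, hcov⟩
  have hPTC' := hPTC n G W PS nb FS LF hS
  set V := W \ FS with hV
  have hFSW : FS ⊆ W := hcov.sub.trans hloc.sub
  obtain ⟨f, hf, h1⟩ := hMTG n L (2 * (PS \ FS).card)
    (4 * FS.card + 12 * pv n (PW V (pts PS nb FS LF))) V (pts PS nb FS LF) hL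
    (by
      intro U CC hU hCC hdis
      have h := hBAR n k L G W PS nb FS LF (by omega) hT hS U CC hU hCC hdis
      rw [← hV] at h
      omega)
  obtain ⟨F, own, h, hFV, hown, hdis, h2⟩ := hCHO n V (pts PS nb FS LF) f
    (fun v hv => (hPTC' v hv).1) hf
  have hK := hKPT n G W PS nb FS LF hS F own h hFV hown hdis
  have h3 := hCNT n G W PS nb FS LF hS
  rw [← hV] at h3
  have hdFS : Disjoint F FS := by
    rw [Finset.disjoint_left]
    intro x hx hx'
    exact (Finset.mem_sdiff.1 (hFV hx)).2 hx'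
  have hc : (F ∪ FS).card = F.card + FS.card := Finset.card_union_of_disjoint hdFS
  have h4 : (PW V (pts PS nb FS LF)).card ≤ V.card * 3 := by
    unfold PW
    exact Finset.card_biUnion_le_card_mul _ _ 3 fun v hv => (hPTC' v hv).1.le
  have h5 : V.card ≤ W.card := Finset.card_le_card Finset.sdiff_subset
  have h6 : (W \ PS).card + PS.card = W.card := Finset.card_sdiff_add_card_eq_card hloc.sub
  have h7 : (PS \ FS).card + FS.card = PS.card := Finset.card_sdiff_add_card_eq_card hcov.sub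
  have hed : ed2 G W = 5 * W.card := by
    unfold ed2
    rw [Finset.sum_congr rfl (fun v hv => hST4 n k G W (by omega) hT v hv), Finset.sum_const,
      smul_eq_mul, mul_comm]
  refine ⟨F ∪ FS, Finset.union_subset (hFV.trans Finset.sdiff_subset) hFSW,
    TRM_keep_mono hK (by omega), ?_⟩
  have h8 : L * ((PW V (pts PS nb FS LF)).card / L) ≤ (PW V (pts PS nb FS LF)).card :=
    Nat.mul_div_le _ L
  rw [hed, hc]
  generalize (PW V (pts PS nb FS LF)).card / L = D at h1 h8
  generalize (PW V (pts PS nb FS LF)).card = P at h1 h2 h3 h4 h8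
  generalize ((PW V (pts PS nb FS LF)).filter (fun x => f x = x)).card = Fx at h1 h2
  have h9 : 12 * W.card ≤ 12 * (F.card + FS.card) + 5 * W.card + 6 * (D + 1) := by omega
  have h10 : L * (12 * W.card) ≤ L * (12 * (F.card + FS.card) + 5 * W.card + 6 * (D + 1)) :=
    Nat.mul_le_mul_left _ h9
  have e4 : L * (12 * (F.card + FS.card) + 5 * W.card + 6 * (D + 1)) =
      L * (12 * (F.card + FS.card) + 5 * W.card) + 6 * (L * D + L) := by ring
  rw [e4] at h10
  omega

end Frag.S4
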