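import Pool.Agent.Work.MP_547619_s4.Defs

/-! # Block TRS (S4) -/

set_option autoImplicit false

namespace Frag.S4

open SimpleGraph Frag.Kz

lemma TRS_ne {m : Fin 5 → Fin 5 → Prop} {n : ℕ} {G : SimpleGraph (Fin n)} {W : Finset (Fin n)}
    {v : Fin n} {f : Fin 5 → Fin n} (h : Ty m G W v f) (i : Fin 5) : v ≠ f i := by
  intro e
  have := (h.nbr (f i) (h.mem i)).2 ⟨i, rfl⟩
  rw [← e] at this
  exact G.irrefl this

lemma TRS_adj {m : Fin 5 → Fin 5 → Prop} {n : ℕ} {G : SimpleGraph (Fin n)} {W : Finset (Fin n)}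
    {v : Fin n} {f : Fin 5 → Fin n} (h : Ty m G W v f) (i : Fin 5) : G.Adj v (f i) :=
  (h.nbr (f i) (h.mem i)).2 ⟨i, rfl⟩

lemma TRS_inj {m : Fin 5 → Fin 5 → Prop} {n : ℕ} {G : SimpleGraph (Fin n)} {W : Finset (Fin n)}
    {v : Fin n} {f : Fin 5 → Fin n} (h : Ty m G W v f) {i j : Fin 5} (hij : i ≠ j) : f i ≠ f j :=
  fun e => hij (h.inj i j e)

/-- a set `{v, f i, f j}` with `m i j` -/
lemma TRS_tri {m : Fin 5 → Fin 5 → Prop} {n : ℕ} {G : SimpleGraph (Fin n)} {W : Finset (Fin n)}
    {v : Fin n} {f : Fin 5 → Fin n} (hv : v ∈ W) (h : Ty m G W v f) {i j : Fin 5} (hij : i ≠ j)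
    (hm : m i j) :
    v ∈ ({v, f i, f j} : Finset (Fin n)) ∧ ({v, f i, f j} : Finset (Fin n)) ⊆ W ∧
    ({v, f i, f j} : Finset (Fin n)).card = 3 ∧
    ∀ x ∈ ({v, f i, f j} : Finset (Fin n)), ∀ y ∈ ({v, f i, f j} : Finset (Fin n)), x ≠ y →
      G.Adj x y := by
  refine ⟨Finset.mem_insert_self _ _, ?_, ?_, ?_⟩
  · intro x hx
    simp only [Finset.mem_insert, Finset.mem_singleton] at hx
    rcases hx with rfl | rfl | rfl
    · exact hv
    · exact h.mem i
    · exact h.mem j
  · rw [Finset.card_insert_of_notMem, Finset.card_pair (TRS_inj h hij)]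
    simp only [Finset.mem_insert, Finset.mem_singleton, not_or]
    exact ⟨TRS_ne h i, TRS_ne h j⟩
  · have h1 := TRS_adj h i
    have h2 := TRS_adj h j
    have h3 : G.Adj (f i) (f j) := (h.adj i j).2 hm
    intro x hx y hy hxy
    simp only [Finset.mem_insert, Finset.mem_singleton] at hx hy
    rcases hx with rfl | rfl | rfl <;> rcases hy with rfl | rfl | rfl
    · exact absurd rfl hxy
    · exact h1
    · exact h2
    · exact h1.symm
    · exact absurd rfl hxy
    · exact h3
    · exact h2.symm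
    · exact h3.symm
    · exact absurd rfl hxy

/-- every `τ ∈ trs v` is `{v, nb v i, nb v j}` with adjacent `i`, `j` -/
lemma TRS_form {n : ℕ} {G : SimpleGraph (Fin n)} {W PS : Finset (Fin n)}
    {nb : Fin n → Fin 5 → Fin n} (hL : Loc G W PS nb) {v : Fin n} (hv : v ∈ W)
    {τ : Finset (Fin n)} (hτ : τ ∈ trs PS nb v) :
    v ∈ τ ∧ τ ⊆ W ∧ τ.card = 3 ∧ ∀ x ∈ τ, ∀ y ∈ τ, x ≠ y → G.Adj x y := by
  unfold trs at hτ
  by_cases hP : v ∈ PS
  · have hT := hL.tyP v hP
    rw [if_pos hP] at hτ
    simp only [Finset.mem_insert, Finset.mem_singleton] at hτ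
    rcases hτ with rfl | rfl | rfl
    · exact TRS_tri hv hT (by decide) (by decide)
    · exact TRS_tri hv hT (by decide) (by decide)
    · exact TRS_tri hv hT (by decide) (by decide)
  · have hT := hL.tyM v hv hP
    rw [if_neg hP] at hτ
    simp only [Finset.mem_insert, Finset.mem_singleton] at hτ
    rcases hτ with rfl | rfl
    · exact TRS_tri hv hT (by decide) (by decide)
    · exact TRS_tri hv hT (by decide) (by decide)

/-- key lemma -/
lemma TRS_key {n : ℕ} {G : SimpleGraph (Fin n)} {W PS : Finset (Fin n)}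
    {nb : Fin n → Fin 5 → Fin n} (hL : Loc G W PS nb) {v x y : Fin n} (hv : v ∈ W) (hx : x ∈ W)
    (hy : y ∈ W) (h1 : G.Adj v x) (h2 : G.Adj v y) (h3 : G.Adj x y) :
    ({v, x, y} : Finset (Fin n)) ∈ trs PS nb v := by
  unfold trs
  by_cases hP : v ∈ PS
  · have hT := hL.tyP v hP
    rw [if_pos hP]
    obtain ⟨i, rfl⟩ := (hT.nbr x hx).1 h1
    obtain ⟨j, rfl⟩ := (hT.nbr y hy).1 h2
    have hm := (hT.adj i j).1 h3
    simp only [Finset.mem_insert, Finset.mem_singleton]
    rcases hm with ⟨rfl, rfl⟩ | ⟨rfl, rfl⟩ | ⟨rfl, rfl⟩ | ⟨rfl, rfl⟩ | ⟨rfl, rfl⟩ | ⟨rfl, rfl⟩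
    · exact Or.inl rfl
    · left
      unfold ta
      rw [Finset.pair_comm]
    · exact Or.inr (Or.inl rfl)
    · right; left
      unfold tb
      rw [Finset.pair_comm]
    · exact Or.inr (Or.inr rfl)
    · right; right
      unfold ct
      rw [Finset.pair_comm]
  · have hT := hL.tyM v hv hP
    rw [if_neg hP]
    obtain ⟨i, rfl⟩ := (hT.nbr x hx).1 h1
    obtain ⟨j, rfl⟩ := (hT.nbr y hy).1 h2
    have hm := (hT.adj i j).1 h3
    simp only [Finset.mem_insert, Finset.mem_singleton]
    rcases hm with ⟨rfl, rfl⟩ | ⟨rfl, rfl⟩ | ⟨rfl, rfl⟩ | ⟨rfl, rfl⟩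
    · exact Or.inl rfl
    · left
      unfold t1
      rw [Finset.pair_comm]
    · exact Or.inr rfl
    · right
      unfold ct
      rw [Finset.pair_comm]

lemma TRS_sym {n : ℕ} {G : SimpleGraph (Fin n)} {W PS : Finset (Fin n)}
    {nb : Fin n → Fin 5 → Fin n} (hL : Loc G W PS nb) {v : Fin n} (hv : v ∈ W)
    {τ : Finset (Fin n)} (hτ : τ ∈ trs PS nb v) {u : Fin n} (hu : u ∈ τ) : τ ∈ trs PS nb u := by
  classical
  obtain ⟨_, hW, hc, hadj⟩ := TRS_form hL hv hτ
  have hc2 : (τ.erase u).card = 2 := by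
    rw [Finset.card_erase_of_mem hu, hc]
  obtain ⟨x, y, hxy, he⟩ := Finset.card_eq_two.1 hc2
  have hx : x ∈ τ.erase u := by rw [he]; simp
  have hy : y ∈ τ.erase u := by rw [he]; simp
  rw [Finset.mem_erase] at hx hy
  have e : τ = {u, x, y} := by
    rw [← he, Finset.insert_erase hu]
  rw [e]
  exact TRS_key hL (hW hu) (hW hx.2) (hW hy.2) (hadj u hu x hx.2 hx.1.symm)
    (hadj u hu y hy.2 hy.1.symm) (hadj x hx.2 y hy.2 hxy)

theorem p_TRS : S_TRS := by
  classical
  intro n G W PS nb hL
  have hnct : ∀ v ∈ PS, nb v 0 ∉ ct nb v := by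
    intro v hv h
    have hT := hL.tyP v hv
    unfold ct at h
    simp only [Finset.mem_insert, Finset.mem_singleton] at h
    rcases h with h | h | h
    · exact TRS_ne hT 0 h.symm
    · exact TRS_inj hT (by decide) h
    · exact TRS_inj hT (by decide) h
  have hself : ∀ v, v ∈ ct nb v := fun v => Finset.mem_insert_self _ _
  refine ⟨fun v hv τ hτ => (TRS_form hL hv hτ).1, fun v hv τ hτ => (TRS_form hL hv hτ).2.1,
    fun v hv τ hτ => (TRS_form hL hv hτ).2.2.1, fun v hv τ hτ => (TRS_form hL hv hτ).2.2.2,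
    fun v hv τ hτ u hu => TRS_sym hL hv hτ hu, ?_, ?_, hnct, ?_, ?_, ?_⟩
  · intro v hv u hu huv
    by_cases hP : v ∈ PS
    · left
      have hT := hL.tyP v hP
      obtain ⟨i, rfl⟩ := (hT.nbr u hu).1 huv
      unfold trs
      rw [if_pos hP]
      have h0 : ta nb v ∈ ({ta nb v, tb nb v, ct nb v} : Finset (Finset (Fin n))) := by simp
      have h1 : tb nb v ∈ ({ta nb v, tb nb v, ct nb v} : Finset (Finset (Fin n))) := by simp
      have h2 : ct nb v ∈ ({ta nb v, tb nb v, ct nb v} : Finset (Finset (Fin n))) := by simp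
      fin_cases i
      · exact ⟨_, h0, by simp [ta]⟩
      · exact ⟨_, h0, by simp [ta]⟩
      · exact ⟨_, h1, by simp [tb]⟩
      · exact ⟨_, h2, by simp [ct]⟩
      · exact ⟨_, h2, by simp [ct]⟩
    · have hT := hL.tyM v hv hP
      obtain ⟨i, rfl⟩ := (hT.nbr u hu).1 huv
      unfold trs
      rw [if_neg hP]
      have h0 : t1 nb v ∈ ({t1 nb v, ct nb v} : Finset (Finset (Fin n))) := by simp
      have h2 : ct nb v ∈ ({t1 nb v, ct nb v} : Finset (Finset (Fin n))) := by simp
      fin_cases i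
      · right
        exact ⟨hP, rfl⟩
      · left
        exact ⟨_, h0, by simp [t1]⟩
      · left
        exact ⟨_, h0, by simp [t1]⟩
      · left
        exact ⟨_, h2, by simp [ct]⟩
      · left
        exact ⟨_, h2, by simp [ct]⟩
  · intro v hv u hu huP
    have hvW := hL.sub hv
    have hτ : ct nb v ∈ trs PS nb v := by
      unfold trs
      rw [if_pos hv]
      simp
    have hτu := TRS_sym hL hvW hτ hu
    unfold trs at hτu
    rw [if_pos huP] at hτu
    simp only [Finset.mem_insert, Finset.mem_singleton] at hτu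
    have hm := hL.mate u huP
    have hbad : v = u ∨ v = nb u 0 → nb u 0 ∉ ct nb v := by
      rintro (h | h)
      · rw [h]
        exact hnct u huP
      · intro _
        have h2 := hnct v hv
        apply h2
        have e : nb v 0 = u := by rw [h]; exact hm.2.1
        rw [e]
        exact hu
    rcases hτu with h | h | h
    · exfalso
      have hvm : v ∈ ta nb u := by rw [← h]; exact hself v
      unfold ta at hvm
      simp only [Finset.mem_insert, Finset.mem_singleton] at hvm
      have h0 : nb u 0 ∈ ct nb v := by rw [h]; unfold ta; simp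
      rcases hvm with hvm | hvm | hvm
      · exact hbad (Or.inl hvm) h0
      · exact hbad (Or.inr hvm) h0
      · exact (hL.out u huP).1 (hvm ▸ hv)
    · exfalso
      have hvm : v ∈ tb nb u := by rw [← h]; exact hself v
      unfold tb at hvm
      simp only [Finset.mem_insert, Finset.mem_singleton] at hvm
      have h0 : nb u 0 ∈ ct nb v := by rw [h]; unfold tb; simp
      rcases hvm with hvm | hvm | hvm
      · exact hbad (Or.inl hvm) h0
      · exact hbad (Or.inr hvm) h0
      · exact (hL.out u huP).2 (hvm ▸ hv)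
    · exact h.symm
  · intro v hv
    obtain ⟨_, h0, h1, h2⟩ := hL.mate v hv
    constructor
    · unfold ta
      rw [h0, h1]
      exact Finset.insert_comm _ _ _
    · unfold tb
      rw [h0, h2]
      exact Finset.insert_comm _ _ _
  · intro v hv
    have hT := hL.tyP v hv
    refine ⟨?_, ?_, ?_⟩
    · intro h
      have : nb v 1 ∈ tb nb v := by rw [← h]; unfold ta; simp
      unfold tb at this
      simp only [Finset.mem_insert, Finset.mem_singleton] at this
      rcases this with h | h | h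
      · exact TRS_ne hT 1 h.symm
      · exact TRS_inj hT (by decide) h
      · exact TRS_inj hT (by decide) h
    · intro h
      apply hnct v hv
      rw [← h]
      unfold ta
      simp
    · intro h
      apply hnct v hv
      rw [← h]
      unfold tb
      simp
  · intro v hv hP h
    have hT := hL.tyM v hv hP
    have : nb v 1 ∈ ct nb v := by rw [← h]; unfold t1; simp
    unfold ct at this
    simp only [Finset.mem_insert, Finset.mem_singleton] at this
    rcases this with h | h | h
    · exact TRS_ne hT 1 h.symm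
    · exact TRS_inj hT (by decide) h
    · exact TRS_inj hT (by decide) h

end Frag.S4
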