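import Pool.Agent.Work.MP_547619_s4.Defs

/-! # Block TYP (S4) -/

set_option autoImplicit false

namespace Frag.S4

open SimpleGraph Frag.Kz

theorem p_TYP (hST4 : S_ST4) (hST5 : S_ST5) (hSM5 : S_SM5) : S_TYP := by
  classical
  intro n k G W hk hT v hv
  have h5 : (nh G W v).card = 5 := by rw [card_nh]; exact hST4 n k G W hk hT v hv
  obtain ⟨f, hinj, hmem, hadj⟩ := hSM5 n G (nh G W v) h5
    (fun s hs hc => hT.1 v hv s (fun x hx => (mem_nh.1 (hs hx)).1) hc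
      (fun x hx => (mem_nh.1 (hs hx)).2))
    (hST5 n k G W hk hT v hv)
  have hW : ∀ i, f i ∈ W := fun i => (mem_nh.1 ((hmem (f i)).2 ⟨i, rfl⟩)).1
  have hn : ∀ u ∈ W, G.Adj v u ↔ ∃ i, f i = u := by
    intro u hu
    rw [← hmem u, mem_nh]
    exact ⟨fun h => ⟨hu, h⟩, fun h => h.2⟩
  refine ⟨f, ?_⟩
  rcases hadj with h | h
  · exact Or.inl ⟨hinj, hW, hn, h⟩
  · exact Or.inr ⟨hinj, hW, hn, h⟩

end Frag.S4
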