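import Pool.Agent.Work.MP_547619_s4.Defs

/-! THEOREM S4, block WGT (helper4). -/

set_option autoImplicit false

namespace Frag.S4

open SimpleGraph Frag.Kz

/-- The degree into a subset of `W`, from the list of the neighbours. -/
lemma WGT_dg {m : Fin 5 → Fin 5 → Prop} {n : ℕ} {G : SimpleGraph (Fin n)} {W : Finset (Fin n)}
    {v : Fin n} {f : Fin 5 → Fin n} (h : Ty m G W v f) (O : Finset (Fin n)) (hO : O ⊆ W) :
    dg G O v ≤ (if f 0 ∈ O then 1 else 0) + (if f 1 ∈ O then 1 else 0) + (if f 2 ∈ O then 1 else 0) +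
      (if f 3 ∈ O then 1 else 0) + (if f 4 ∈ O then 1 else 0) := by
  classical
  rw [← card_nh]
  have h1 : nh G O v ⊆ (Finset.univ.filter fun i => f i ∈ O).image f := by
    intro u hu
    rw [mem_nh] at hu
    obtain ⟨i, hi⟩ := (h.nbr u (hO hu.1)).1 hu.2
    rw [Finset.mem_image]
    exact ⟨i, by rw [Finset.mem_filter]; exact ⟨Finset.mem_univ _, by rw [hi]; exact hu.1⟩, hi⟩
  have h2 := (Finset.card_le_card h1).trans Finset.card_image_le
  refine h2.trans (le_of_eq ?_)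
  rw [Finset.card_filter, Fin.sum_univ_five]

/-- Sums over the three points. -/
lemma WGT_sum {a b c : ℕ} (S C : Finset ℕ) (hS : S = {a, b, c}) (h3 : S.card = 3) (w : ℕ → ℕ) :
    ∑ p ∈ S \ C, w p = (if a ∈ C then 0 else w a) + (if b ∈ C then 0 else w b) + (if c ∈ C then 0 else w c) := by
  classical
  have hab : a ≠ b := by
    rintro rfl
    rw [hS, Finset.insert_eq_of_mem (Finset.mem_insert_self _ _)] at h3
    have := Finset.card_le_two (a := a) (b := c)
    omega
  have hac : a ≠ c := by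
    rintro rfl
    rw [hS, Finset.insert_eq_of_mem (by simp)] at h3
    have := Finset.card_le_two (a := b) (b := a)
    omega
  have hbc : b ≠ c := by
    rintro rfl
    rw [hS, Finset.insert_eq_of_mem (s := {b}) (a := b) (by simp)] at h3
    have := Finset.card_le_two (a := a) (b := b)
    omega
  have h1 : ∑ p ∈ S \ C, w p = ∑ p ∈ S, if p ∈ C then 0 else w p := by
    rw [Finset.sdiff_eq_filter, Finset.sum_filter]
    refine Finset.sum_congr rfl fun p _ => ?_
    by_cases hp : p ∈ C <;> simp [hp]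
  rw [h1, hS, Finset.sum_insert (by simp [hab, hac]), Finset.sum_insert (by simp [hbc]), Finset.sum_singleton,
    add_assoc]

lemma WGT_M (hL : S_LBL) (hP : S_PTC) (hN : S_NBT) {n : ℕ} {G : SimpleGraph (Fin n)} {W PS : Finset (Fin n)}
    {nb : Fin n → Fin 5 → Fin n} {FS LF : Finset (Fin n)} (h : Str G W PS nb FS LF) (C : Finset ℕ)
    (hC : ∑ x ∈ ZZ W PS nb FS LF C, ow PS nb FS LF C x + 12 * pv n C ≤ 11) {x : Fin n} (hx : x ∈ W)
    (hxP : x ∉ PS) :
    (x ∈ ZZ W PS nb FS LF C ↔ ¬(e0 nb C x = 0 ∧ j0 nb FS LF C (t1 nb x) + j0 nb FS LF C (ct nb x) = 0)) ∧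
    (x ∈ T0 W PS nb FS LF C ↔ (e0 nb C x = 1 ∧ j0 nb FS LF C (t1 nb x) + j0 nb FS LF C (ct nb x) = 2)) ∧
    (x ∈ ZZ W PS nb FS LF C → 6 * (1 - e0 nb C x) + 3 * (2 - (j0 nb FS LF C (t1 nb x) +
      j0 nb FS LF C (ct nb x))) ≤ ow PS nb FS LF C x) ∧
    dg G (W \ (TT W PS nb FS LF C ∪ XX W PS nb FS LF C)) x ≤ (1 - e0 nb C x) +
      2 * (2 - (j0 nb FS LF C (t1 nb x) + j0 nb FS LF C (ct nb x))) := by
  classical
  have hxF : x ∉ FS := fun hf => hxP (h.cov.sub hf)
  have hxV : x ∈ W \ FS := Finset.mem_sdiff.2 ⟨hx, hxF⟩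
  obtain ⟨p1, p2, p3, -, -⟩ := hP n G W PS nb FS LF h x hxV
  obtain ⟨l1, l2, l3, l4, l5⟩ := hL n G W PS nb FS LF h
  obtain ⟨n1, n2, -, -, -, -⟩ := hN n G W PS nb FS LF h C
  have htr : trs PS nb x = {t1 nb x, ct nb x} := by unfold trs; rw [if_neg hxP]
  have ht1 : t1 nb x ∈ trs PS nb x := by rw [htr]; simp
  have htc : ct nb x ∈ trs PS nb x := by rw [htr]; simp
  have hTy := h.loc.tyM x hx hxP
  have hne : nb x 0 ≠ x := by
    intro he
    have h1 := (hTy.nbr (nb x 0) (hTy.mem 0)).2 ⟨0, rfl⟩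
    rw [he] at h1
    exact G.irrefl h1
  -- the three points
  have hpts : x ∈ ZZ W PS nb FS LF C → pts PS nb FS LF x =
      {ee nb x, lb nb FS LF (t1 nb x), lb nb FS LF (ct nb x)} := by
    intro hz
    unfold pts
    rw [if_neg hxP]
    by_cases heq : lb nb FS LF (t1 nb x) = lb nb FS LF (ct nb x)
    · exfalso
      have hmem : enc {x} ∈ pts PS nb FS LF x := by
        unfold pts
        rw [if_neg hxP, if_pos heq]
        simp
      by_cases hec : enc {x} ∈ C
      · have h1 : 1 ≤ pv n C := by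
          unfold pv
          refine Finset.card_pos.2 ⟨enc {x}, ?_⟩
          rw [Finset.mem_filter, dec_enc]
          exact ⟨hec, Finset.card_singleton _⟩
        omega
      · have h1 : 12 ≤ ow PS nb FS LF C x := by
          unfold ow
          have h2 : wt PS FS (enc {x}) x = 12 := by
            unfold wt
            rw [dec_enc, if_pos (Finset.card_singleton _)]
          rw [← h2]
          exact Finset.single_le_sum (f := fun p => wt PS FS p x) (fun _ _ => Nat.zero_le _)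
            (Finset.mem_sdiff.2 ⟨hmem, hec⟩)
        have h3 := Finset.single_le_sum (f := fun x => ow PS nb FS LF C x) (fun _ _ => Nat.zero_le _) hz
        omega
    · rw [if_neg heq]
  have hzz : x ∈ ZZ W PS nb FS LF C ↔ (ee nb x ∈ C ∨ lb nb FS LF (t1 nb x) ∈ C ∨ lb nb FS LF (ct nb x) ∈ C) := by
    constructor
    · intro hz
      have h1 := hpts hz
      unfold ZZ at hz
      rw [Finset.mem_filter, h1] at hz
      obtain ⟨p, hp⟩ := hz.2
      rw [Finset.mem_inter, Finset.mem_insert, Finset.mem_insert, Finset.mem_singleton] at hp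
      obtain ⟨hp | hp | hp, hpC⟩ := hp
      · left; rwa [← hp]
      · right; left; rwa [← hp]
      · right; right; rwa [← hp]
    · intro hz
      unfold ZZ
      rw [Finset.mem_filter]
      refine ⟨hxV, ?_⟩
      rcases hz with hz | hz | hz
      · exact ⟨_, Finset.mem_inter.2 ⟨p3 hxP, hz⟩⟩
      · exact ⟨_, Finset.mem_inter.2 ⟨p2 _ ht1, hz⟩⟩
      · exact ⟨_, Finset.mem_inter.2 ⟨p2 _ htc, hz⟩⟩
  have ht0 : x ∈ T0 W PS nb FS LF C ↔ (ee nb x ∈ C ∧ lb nb FS LF (t1 nb x) ∈ C ∧ lb nb FS LF (ct nb x) ∈ C) := by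
    constructor
    · intro ht
      unfold T0 at ht
      rw [Finset.mem_filter] at ht
      exact ⟨ht.2 (p3 hxP), ht.2 (p2 _ ht1), ht.2 (p2 _ htc)⟩
    · intro ht
      unfold T0
      rw [Finset.mem_filter, hpts (hzz.2 (Or.inl ht.1))]
      refine ⟨hxV, ?_⟩
      intro p hp
      rw [Finset.mem_insert, Finset.mem_insert, Finset.mem_singleton] at hp
      rcases hp with rfl | rfl | rfl
      · exact ht.1
      · exact ht.2.1
      · exact ht.2.2
  have hwe : wt PS FS (ee nb x) x = 6 := by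
    unfold wt ee
    rw [dec_enc, Finset.card_pair hne.symm]
    simp
  have hwl : ∀ τ ∈ trs PS nb x, 3 ≤ wt PS FS (lb nb FS LF τ) x := by
    intro τ hτ
    unfold wt lb
    rw [dec_enc, l4 x hx τ hτ, if_neg hxP]
    split_ifs <;> omega
  have how : x ∈ ZZ W PS nb FS LF C → ow PS nb FS LF C x = (if ee nb x ∈ C then 0 else wt PS FS (ee nb x) x) +
      (if lb nb FS LF (t1 nb x) ∈ C then 0 else wt PS FS (lb nb FS LF (t1 nb x)) x) +
      (if lb nb FS LF (ct nb x) ∈ C then 0 else wt PS FS (lb nb FS LF (ct nb x)) x) := fun hz =>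
    WGT_sum _ C (hpts hz) p1 (fun p => wt PS FS p x)
  have hO : W \ (TT W PS nb FS LF C ∪ XX W PS nb FS LF C) ⊆ W := Finset.sdiff_subset
  have hd := WGT_dg hTy _ hO
  have d0 : ee nb x ∈ C → nb x 0 ∉ W \ (TT W PS nb FS LF C ∪ XX W PS nb FS LF C) := fun he hm =>
    (Finset.mem_sdiff.1 hm).2 (n2 x hx hxP he).2
  have d1 : ∀ u ∈ t1 nb x, lb nb FS LF (t1 nb x) ∈ C → u ∉ W \ (TT W PS nb FS LF C ∪ XX W PS nb FS LF C) :=
    fun u hu he hm => (Finset.mem_sdiff.1 hm).2 (n1 x hx _ ht1 he u hu)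
  have d2 : ∀ u ∈ ct nb x, lb nb FS LF (ct nb x) ∈ C → u ∉ W \ (TT W PS nb FS LF C ∪ XX W PS nb FS LF C) :=
    fun u hu he hm => (Finset.mem_sdiff.1 hm).2 (n1 x hx _ htc he u hu)
  have m1 : nb x 1 ∈ t1 nb x := by simp [t1]
  have m2 : nb x 2 ∈ t1 nb x := by simp [t1]
  have m3 : nb x 3 ∈ ct nb x := by simp [ct]
  have m4 : nb x 4 ∈ ct nb x := by simp [ct]
  have w1 := hwl _ ht1
  have w2 := hwl _ htc
  generalize hOO : W \ (TT W PS nb FS LF C ∪ XX W PS nb FS LF C) = O at *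
  refine ⟨?_, ?_, ?_, ?_⟩
  · rw [hzz]
    unfold e0 j0
    by_cases q1 : ee nb x ∈ C <;> by_cases q2 : lb nb FS LF (t1 nb x) ∈ C <;>
      by_cases q3 : lb nb FS LF (ct nb x) ∈ C <;> simp [q1, q2, q3]
  · rw [ht0]
    unfold e0 j0
    by_cases q1 : ee nb x ∈ C <;> by_cases q2 : lb nb FS LF (t1 nb x) ∈ C <;>
      by_cases q3 : lb nb FS LF (ct nb x) ∈ C <;> simp [q1, q2, q3]
  · intro hz
    rw [how hz, hwe]
    unfold e0 j0
    by_cases q1 : ee nb x ∈ C <;> by_cases q2 : lb nb FS LF (t1 nb x) ∈ C <;>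
      by_cases q3 : lb nb FS LF (ct nb x) ∈ C <;> simp only [q1, q2, q3, if_true, if_false] <;> omega
  · refine hd.trans ?_
    have c0 : (if nb x 0 ∈ O then 1 else 0) ≤ 1 - e0 nb C x := by
      unfold e0
      by_cases q1 : ee nb x ∈ C
      · rw [if_neg (d0 q1)]; omega
      · rw [if_neg q1]; split_ifs <;> omega
    have c1 : ∀ u ∈ t1 nb x, (if u ∈ O then 1 else 0) ≤ 1 - j0 nb FS LF C (t1 nb x) := by
      intro u hu
      unfold j0
      by_cases q1 : lb nb FS LF (t1 nb x) ∈ C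
      · rw [if_neg (d1 u hu q1)]; omega
      · rw [if_neg q1]; split_ifs <;> omega
    have c2 : ∀ u ∈ ct nb x, (if u ∈ O then 1 else 0) ≤ 1 - j0 nb FS LF C (ct nb x) := by
      intro u hu
      unfold j0
      by_cases q1 : lb nb FS LF (ct nb x) ∈ C
      · rw [if_neg (d2 u hu q1)]; omega
      · rw [if_neg q1]; split_ifs <;> omega
    have r1 := c1 _ m1
    have r2 := c1 _ m2
    have r3 := c2 _ m3
    have r4 := c2 _ m4
    have b1 : j0 nb FS LF C (t1 nb x) ≤ 1 := by unfold j0; split_ifs <;> omega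
    have b2 : j0 nb FS LF C (ct nb x) ≤ 1 := by unfold j0; split_ifs <;> omega
    omega

lemma WGT_Q (hL : S_LBL) (hP : S_PTC) (hN : S_NBT) {n : ℕ} {G : SimpleGraph (Fin n)} {W PS : Finset (Fin n)}
    {nb : Fin n → Fin 5 → Fin n} {FS LF : Finset (Fin n)} (h : Str G W PS nb FS LF) (C : Finset ℕ)
    {x : Fin n} (hxP : x ∈ PS) (hxF : x ∉ FS) :
    (x ∈ ZZ W PS nb FS LF C ↔ ¬(j0 nb FS LF C (ta nb x) + j0 nb FS LF C (tb nb x) = 0 ∧ j0 nb FS LF C (ct nb x) = 0)) ∧
    (x ∈ T0 W PS nb FS LF C ↔ (j0 nb FS LF C (ta nb x) + j0 nb FS LF C (tb nb x) = 2 ∧ j0 nb FS LF C (ct nb x) = 1)) ∧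
    4 * (2 - (j0 nb FS LF C (ta nb x) + j0 nb FS LF C (tb nb x))) + (1 - j0 nb FS LF C (ct nb x)) ≤
      ow PS nb FS LF C x ∧
    dg G (W \ (TT W PS nb FS LF C ∪ XX W PS nb FS LF C)) x ≤
      (if j0 nb FS LF C (ta nb x) + j0 nb FS LF C (tb nb x) = 0 then 1 else 0) +
      (2 - (j0 nb FS LF C (ta nb x) + j0 nb FS LF C (tb nb x))) + 2 * (1 - j0 nb FS LF C (ct nb x)) := by
  classical
  have hx : x ∈ W := h.loc.sub hxP
  have hxV : x ∈ W \ FS := Finset.mem_sdiff.2 ⟨hx, hxF⟩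
  obtain ⟨p1, p2, -, -, p5⟩ := hP n G W PS nb FS LF h x hxV
  obtain ⟨q1, q2, q3, q4, u, huc, huF, hul⟩ := p5 hxP
  obtain ⟨l1, l2, l3, l4, l5⟩ := hL n G W PS nb FS LF h
  obtain ⟨n1, -, -, -, -, -⟩ := hN n G W PS nb FS LF h C
  have htr : trs PS nb x = {ta nb x, tb nb x, ct nb x} := by unfold trs; rw [if_pos hxP]
  have hta : ta nb x ∈ trs PS nb x := by rw [htr]; simp
  have htb : tb nb x ∈ trs PS nb x := by rw [htr]; simp
  have htc : ct nb x ∈ trs PS nb x := by rw [htr]; simp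
  have hTy := h.loc.tyP x hxP
  have hpts : pts PS nb FS LF x = {lb nb FS LF (ta nb x), lb nb FS LF (tb nb x), lb nb FS LF (ct nb x)} := by
    unfold pts
    rw [if_pos hxP]
  have hzz : x ∈ ZZ W PS nb FS LF C ↔ (lb nb FS LF (ta nb x) ∈ C ∨ lb nb FS LF (tb nb x) ∈ C ∨
      lb nb FS LF (ct nb x) ∈ C) := by
    unfold ZZ
    rw [Finset.mem_filter, hpts]
    constructor
    · rintro ⟨-, p, hp⟩
      rw [Finset.mem_inter, Finset.mem_insert, Finset.mem_insert, Finset.mem_singleton] at hp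
      obtain ⟨hp | hp | hp, hpC⟩ := hp
      · left; rwa [← hp]
      · right; left; rwa [← hp]
      · right; right; rwa [← hp]
    · intro hz
      refine ⟨hxV, ?_⟩
      rcases hz with hz | hz | hz
      · exact ⟨_, Finset.mem_inter.2 ⟨by simp, hz⟩⟩
      · exact ⟨_, Finset.mem_inter.2 ⟨by simp, hz⟩⟩
      · exact ⟨_, Finset.mem_inter.2 ⟨by simp, hz⟩⟩
  have ht0 : x ∈ T0 W PS nb FS LF C ↔ (lb nb FS LF (ta nb x) ∈ C ∧ lb nb FS LF (tb nb x) ∈ C ∧
      lb nb FS LF (ct nb x) ∈ C) := by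
    unfold T0
    rw [Finset.mem_filter, hpts]
    constructor
    · rintro ⟨-, hs⟩
      exact ⟨hs (by simp), hs (by simp), hs (by simp)⟩
    · intro ht
      refine ⟨hxV, ?_⟩
      intro p hp
      rw [Finset.mem_insert, Finset.mem_insert, Finset.mem_singleton] at hp
      rcases hp with rfl | rfl | rfl
      · exact ht.1
      · exact ht.2.1
      · exact ht.2.2
  have w1 : wt PS FS (lb nb FS LF (ta nb x)) x = 4 := by
    unfold wt lb
    rw [dec_enc, l4 x hx _ hta, q1, if_neg (by norm_num), if_neg (by norm_num), if_neg]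
    rintro ⟨v, hv, hvF⟩
    exact q3 v hv hvF
  have w2 : wt PS FS (lb nb FS LF (tb nb x)) x = 4 := by
    unfold wt lb
    rw [dec_enc, l4 x hx _ htb, q2, if_neg (by norm_num), if_neg (by norm_num), if_neg]
    rintro ⟨v, hv, hvF⟩
    exact q4 v hv hvF
  have w3 : wt PS FS (lb nb FS LF (ct nb x)) x = 1 := by
    unfold wt lb
    rw [dec_enc, l4 x hx _ htc, if_neg (by norm_num), if_neg (by norm_num), if_pos, if_pos hxP]
    obtain ⟨w, hw, -, hw2, -⟩ := l3 u huF
    refine ⟨w, ?_, hw⟩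
    rw [hul, hw2]
    simp [ct]
  have how : ow PS nb FS LF C x = (if lb nb FS LF (ta nb x) ∈ C then 0 else wt PS FS (lb nb FS LF (ta nb x)) x) +
      (if lb nb FS LF (tb nb x) ∈ C then 0 else wt PS FS (lb nb FS LF (tb nb x)) x) +
      (if lb nb FS LF (ct nb x) ∈ C then 0 else wt PS FS (lb nb FS LF (ct nb x)) x) :=
    WGT_sum _ C hpts p1 (fun p => wt PS FS p x)
  rw [w1, w2, w3] at how
  have hO : W \ (TT W PS nb FS LF C ∪ XX W PS nb FS LF C) ⊆ W := Finset.sdiff_subset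
  have hd := WGT_dg hTy _ hO
  have d : ∀ τ ∈ trs PS nb x, lb nb FS LF τ ∈ C → ∀ u ∈ τ, u ∉ W \ (TT W PS nb FS LF C ∪ XX W PS nb FS LF C) :=
    fun τ hτ he u hu hm => (Finset.mem_sdiff.1 hm).2 (n1 x hx _ hτ he u hu)
  generalize hOO : W \ (TT W PS nb FS LF C ∪ XX W PS nb FS LF C) = O at *
  have c : ∀ τ ∈ trs PS nb x, ∀ u ∈ τ, (if u ∈ O then 1 else 0) ≤ 1 - j0 nb FS LF C τ := by
    intro τ hτ u hu
    unfold j0
    by_cases q1 : lb nb FS LF τ ∈ C
    · rw [if_neg (d τ hτ q1 u hu)]; omega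
    · rw [if_neg q1]; split_ifs <;> omega
  refine ⟨?_, ?_, ?_, ?_⟩
  · rw [hzz]
    unfold j0
    by_cases q1 : lb nb FS LF (ta nb x) ∈ C <;> by_cases q2 : lb nb FS LF (tb nb x) ∈ C <;>
      by_cases q3 : lb nb FS LF (ct nb x) ∈ C <;> simp [q1, q2, q3]
  · rw [ht0]
    unfold j0
    by_cases q1 : lb nb FS LF (ta nb x) ∈ C <;> by_cases q2 : lb nb FS LF (tb nb x) ∈ C <;>
      by_cases q3 : lb nb FS LF (ct nb x) ∈ C <;> simp [q1, q2, q3]
  · rw [how]
    unfold j0
    by_cases q1 : lb nb FS LF (ta nb x) ∈ C <;> by_cases q2 : lb nb FS LF (tb nb x) ∈ C <;>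
      by_cases q3 : lb nb FS LF (ct nb x) ∈ C <;> simp only [q1, q2, q3, if_true, if_false] <;> omega
  · refine hd.trans ?_
    have r0 := c _ hta (nb x 0) (by simp [ta])
    have r0' := c _ htb (nb x 0) (by simp [tb])
    have r1 := c _ hta (nb x 1) (by simp [ta])
    have r2 := c _ htb (nb x 2) (by simp [tb])
    have r3 := c _ htc (nb x 3) (by simp [ct])
    have r4 := c _ htc (nb x 4) (by simp [ct])
    have b1 : j0 nb FS LF C (ta nb x) ≤ 1 := by unfold j0; split_ifs <;> omega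
    have b2 : j0 nb FS LF C (tb nb x) ≤ 1 := by unfold j0; split_ifs <;> omega
    have b3 : j0 nb FS LF C (ct nb x) ≤ 1 := by unfold j0; split_ifs <;> omega
    by_cases hi : j0 nb FS LF C (ta nb x) + j0 nb FS LF C (tb nb x) = 0
    · rw [if_pos hi]; omega
    · rw [if_neg hi]; omega

theorem p_WGT (hL : S_LBL) (hP : S_PTC) (hN : S_NBT) : S_WGT := by
  classical
  intro n G W PS nb FS LF h C hC
  have hsub : FS ⊆ PS := h.cov.sub
  have hPW : PS ⊆ W := h.loc.sub
  have hV : W \ FS = (W \ PS) ∪ (PS \ FS) := by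
    ext x
    simp only [Finset.mem_union, Finset.mem_sdiff]
    constructor
    · rintro ⟨h1, h2⟩
      by_cases h3 : x ∈ PS
      · exact Or.inr ⟨h3, h2⟩
      · exact Or.inl ⟨h1, h3⟩
    · rintro (⟨h1, h2⟩ | ⟨h1, h2⟩)
      · exact ⟨h1, fun h3 => h2 (hsub h3)⟩
      · exact ⟨hPW h1, h2⟩
  have hdis : Disjoint (W \ PS) (PS \ FS) := by
    rw [Finset.disjoint_left]
    intro x h1 h2
    exact (Finset.mem_sdiff.1 h1).2 (Finset.mem_sdiff.1 h2).1
  have hZV : ZZ W PS nb FS LF C ⊆ W \ FS := Finset.filter_subset _ _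
  have hTV : T0 W PS nb FS LF C ⊆ W \ FS := Finset.filter_subset _ _
  have hXV : XX W PS nb FS LF C ⊆ W \ FS := Finset.sdiff_subset.trans hZV
  -- sums over subsets of V
  have hsum : ∀ (A : Finset (Fin n)) (f : Fin n → ℕ), A ⊆ W \ FS → ∑ x ∈ A, f x =
      ∑ x ∈ W \ PS, (if x ∈ A then f x else 0) + ∑ x ∈ PS \ FS, (if x ∈ A then f x else 0) := by
    intro A f hA
    rw [← Finset.sum_union hdis, ← hV, ← Finset.sum_filter]
    congr 1
    ext x
    rw [Finset.mem_filter]
    exact ⟨fun hx => ⟨hA hx, hx⟩, fun hx => hx.2⟩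
  have hcard : ∀ A : Finset (Fin n), A ⊆ W \ FS → A.card =
      ∑ x ∈ W \ PS, (if x ∈ A then 1 else 0) + ∑ x ∈ PS \ FS, (if x ∈ A then 1 else 0) := by
    intro A hA
    rw [← hsum A (fun _ => 1) hA, Finset.card_eq_sum_ones]
  have hmc : ∀ e j, mc W PS nb FS LF C e j = ∑ x ∈ W \ PS, (if e0 nb C x = e ∧
      j0 nb FS LF C (t1 nb x) + j0 nb FS LF C (ct nb x) = j then 1 else 0) := fun e j =>
    Finset.card_filter _ _
  have hpc : ∀ i c, pc PS nb FS LF C i c = ∑ x ∈ PS \ FS, (if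
      j0 nb FS LF C (ta nb x) + j0 nb FS LF C (tb nb x) = i ∧ j0 nb FS LF C (ct nb x) = c then 1 else 0) :=
    fun i c => Finset.card_filter _ _
  have hj1 : ∀ τ, j0 nb FS LF C τ ≤ 1 := fun τ => by unfold j0; split_ifs <;> omega
  have he1 : ∀ x, e0 nb C x ≤ 1 := fun x => by unfold e0; split_ifs <;> omega
  have hM : ∀ x ∈ W \ PS, _ := fun x hx => WGT_M hL hP hN h C hC (Finset.mem_sdiff.1 hx).1 (Finset.mem_sdiff.1 hx).2
  have hQ : ∀ x ∈ PS \ FS, _ := fun x hx => WGT_Q hL hP hN h C (Finset.mem_sdiff.1 hx).1 (Finset.mem_sdiff.1 hx).2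
  have hXX : ∀ x, x ∈ XX W PS nb FS LF C ↔ x ∈ ZZ W PS nb FS LF C ∧ x ∉ T0 W PS nb FS LF C := fun x =>
    Finset.mem_sdiff
  refine ⟨?_, ?_, ?_, ?_⟩
  · rw [hcard _ hTV, hmc, hpc]
    congr 1
    · refine Finset.sum_congr rfl fun x hx => ?_
      exact if_congr (hM x hx).2.1 rfl rfl
    · refine Finset.sum_congr rfl fun x hx => ?_
      exact if_congr (hQ x hx).2.1 rfl rfl
  · rw [hcard _ hXV]
    have e1 : ∑ x ∈ W \ PS, (if x ∈ XX W PS nb FS LF C then 1 else 0) = mc W PS nb FS LF C 1 1 +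
        mc W PS nb FS LF C 1 0 + mc W PS nb FS LF C 0 2 + mc W PS nb FS LF C 0 1 := by
      simp only [hmc, ← Finset.sum_add_distrib]
      refine Finset.sum_congr rfl fun x hx => ?_
      obtain ⟨a1, a2, -, -⟩ := hM x hx
      rw [if_congr (hXX x) rfl rfl, if_congr (and_congr a1 (not_congr a2)) rfl rfl]
      have g1 := he1 x
      have g2 := hj1 (t1 nb x)
      have g3 := hj1 (ct nb x)
      generalize e0 nb C x = e at *
      generalize j0 nb FS LF C (t1 nb x) = j at *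
      generalize j0 nb FS LF C (ct nb x) = j' at *
      interval_cases e <;> interval_cases j <;> interval_cases j' <;> simp
    have e2 : ∑ x ∈ PS \ FS, (if x ∈ XX W PS nb FS LF C then 1 else 0) = pc PS nb FS LF C 2 0 +
        pc PS nb FS LF C 1 1 + pc PS nb FS LF C 1 0 + pc PS nb FS LF C 0 1 := by
      simp only [hpc, ← Finset.sum_add_distrib]
      refine Finset.sum_congr rfl fun x hx => ?_
      obtain ⟨a1, a2, -, -⟩ := hQ x hx
      rw [if_congr (hXX x) rfl rfl, if_congr (and_congr a1 (not_congr a2)) rfl rfl]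
      have g1 := hj1 (ta nb x)
      have g2 := hj1 (tb nb x)
      have g3 := hj1 (ct nb x)
      generalize j0 nb FS LF C (ta nb x) = e at *
      generalize j0 nb FS LF C (tb nb x) = j at *
      generalize j0 nb FS LF C (ct nb x) = j' at *
      interval_cases e <;> interval_cases j <;> interval_cases j' <;> simp
    rw [e1, e2]
    ring
  · have e0' := hsum _ (fun x => ow PS nb FS LF C x) hZV
    have e1 : 3 * mc W PS nb FS LF C 1 1 + 6 * mc W PS nb FS LF C 1 0 + 6 * mc W PS nb FS LF C 0 2 +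
        9 * mc W PS nb FS LF C 0 1 ≤ ∑ x ∈ W \ PS, (if x ∈ ZZ W PS nb FS LF C then ow PS nb FS LF C x else 0) := by
      simp only [hmc, Finset.mul_sum, ← Finset.sum_add_distrib]
      refine Finset.sum_le_sum fun x hx => ?_
      obtain ⟨a1, -, a3, -⟩ := hM x hx
      by_cases hz : x ∈ ZZ W PS nb FS LF C
      · rw [if_pos hz]
        refine le_trans ?_ (a3 hz)
        have g1 := he1 x
        have g2 := hj1 (t1 nb x)
        have g3 := hj1 (ct nb x)
        generalize e0 nb C x = e at *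
        generalize j0 nb FS LF C (t1 nb x) = j at *
        generalize j0 nb FS LF C (ct nb x) = j' at *
        interval_cases e <;> interval_cases j <;> interval_cases j' <;> simp
      · rw [if_neg hz]
        have hz2 := hz
        rw [a1, not_not] at hz2
        simp [hz2.1, hz2.2]
    have e2 : pc PS nb FS LF C 2 0 + 4 * pc PS nb FS LF C 1 1 +
        5 * pc PS nb FS LF C 1 0 + 8 * pc PS nb FS LF C 0 1 ≤
        ∑ x ∈ PS \ FS, (if x ∈ ZZ W PS nb FS LF C then ow PS nb FS LF C x else 0) := by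
      simp only [hpc, Finset.mul_sum, ← Finset.sum_add_distrib]
      refine Finset.sum_le_sum fun x hx => ?_
      obtain ⟨a1, -, a3, -⟩ := hQ x hx
      by_cases hz : x ∈ ZZ W PS nb FS LF C
      · rw [if_pos hz]
        refine le_trans ?_ a3
        have g1 := hj1 (ta nb x)
        have g2 := hj1 (tb nb x)
        have g3 := hj1 (ct nb x)
        generalize j0 nb FS LF C (ta nb x) = e at *
        generalize j0 nb FS LF C (tb nb x) = j at *
        generalize j0 nb FS LF C (ct nb x) = j' at *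
        interval_cases e <;> interval_cases j <;> interval_cases j' <;> simp
      · rw [if_neg hz]
        have hz2 := hz
        rw [a1, not_not] at hz2
        simp [hz2.1, hz2.2]
    omega
  · rw [hsum _ (fun x => dg G (W \ (TT W PS nb FS LF C ∪ XX W PS nb FS LF C)) x) hXV]
    have e1 : ∑ x ∈ W \ PS, (if x ∈ XX W PS nb FS LF C then
        dg G (W \ (TT W PS nb FS LF C ∪ XX W PS nb FS LF C)) x else 0) ≤
        2 * mc W PS nb FS LF C 1 1 + 4 * mc W PS nb FS LF C 1 0 + mc W PS nb FS LF C 0 2 +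
        3 * mc W PS nb FS LF C 0 1 := by
      simp only [hmc, Finset.mul_sum, ← Finset.sum_add_distrib]
      refine Finset.sum_le_sum fun x hx => ?_
      obtain ⟨a1, a2, -, a4⟩ := hM x hx
      by_cases hz : x ∈ XX W PS nb FS LF C
      · rw [if_pos hz]
        rw [hXX, a1, a2] at hz
        refine a4.trans ?_
        have g1 := he1 x
        have g2 := hj1 (t1 nb x)
        have g3 := hj1 (ct nb x)
        generalize e0 nb C x = e at *
        generalize j0 nb FS LF C (t1 nb x) = j at *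
        generalize j0 nb FS LF C (ct nb x) = j' at *
        interval_cases e <;> interval_cases j <;> interval_cases j' <;> simp at hz ⊢
      · rw [if_neg hz]
        exact Nat.zero_le _
    have e2 : ∑ x ∈ PS \ FS, (if x ∈ XX W PS nb FS LF C then
        dg G (W \ (TT W PS nb FS LF C ∪ XX W PS nb FS LF C)) x else 0) ≤
        2 * pc PS nb FS LF C 2 0 + pc PS nb FS LF C 1 1 +
        3 * pc PS nb FS LF C 1 0 + 3 * pc PS nb FS LF C 0 1 := by
      simp only [hpc, Finset.mul_sum, ← Finset.sum_add_distrib]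
      refine Finset.sum_le_sum fun x hx => ?_
      obtain ⟨a1, a2, -, a4⟩ := hQ x hx
      by_cases hz : x ∈ XX W PS nb FS LF C
      · rw [if_pos hz]
        rw [hXX, a1, a2] at hz
        refine a4.trans ?_
        have g1 := hj1 (ta nb x)
        have g2 := hj1 (tb nb x)
        have g3 := hj1 (ct nb x)
        generalize j0 nb FS LF C (ta nb x) = e at *
        generalize j0 nb FS LF C (tb nb x) = j at *
        generalize j0 nb FS LF C (ct nb x) = j' at *
        interval_cases e <;> interval_cases j <;> interval_cases j' <;> simp at hz ⊢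
      · rw [if_neg hz]
        exact Nat.zero_le _
    omega

end Frag.S4
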