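import Pool.Agent.Work.MP_547619_kz.B_KSM
import Pool.Agent.Work.MP_547619_k4.Defs

/-!
# MP_547619_co, THEOREM S4: basic definitions

All graphs without induced `K_(1,4)` (no degree condition).  `dg, ed2, sz, PW, Clsd, Keep` are in
`Work/MP_547619_kz` (namespace `Frag.Kz`).
-/

set_option autoImplicit false

namespace Frag.S4

open SimpleGraph Frag.Kz

/-- No vertex of `W` has four pairwise non-adjacent neighbours in `W`. -/
def SF {n : ℕ} (G : SimpleGraph (Fin n)) (W : Finset (Fin n)) : Prop :=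
  ∀ v ∈ W, ∀ s ⊆ W, s.card = 4 → (∀ x ∈ s, G.Adj v x) → ∃ x ∈ s, ∃ y ∈ s, G.Adj x y

/-- `G` with a clique on `R`. -/
def cl {n : ℕ} (G : SimpleGraph (Fin n)) (R : Finset (Fin n)) : SimpleGraph (Fin n) where
  Adj x y := G.Adj x y ∨ (x ≠ y ∧ x ∈ R ∧ y ∈ R)
  symm := ⟨fun x y h => by
    rcases h with h | ⟨h1, h2, h3⟩
    · exact Or.inl h.symm
    · exact Or.inr ⟨h1.symm, h3, h2⟩⟩
  loopless := ⟨fun x h => by
    rcases h with h | ⟨h1, _, _⟩
    · exact G.irrefl h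
    · exact h1 rfl⟩

open Classical in
/-- The neighbours of `v` in `W`; `dg G W v = (nh G W v).card` by definition. -/
noncomputable def nh {n : ℕ} (G : SimpleGraph (Fin n)) (W : Finset (Fin n)) (v : Fin n) :
    Finset (Fin n) := W.filter (fun u => G.Adj v u)

lemma mem_nh {n : ℕ} {G : SimpleGraph (Fin n)} {W : Finset (Fin n)} {v u : Fin n} :
    u ∈ nh G W v ↔ u ∈ W ∧ G.Adj v u := by
  simp [nh]

lemma card_nh {n : ℕ} (G : SimpleGraph (Fin n)) (W : Finset (Fin n)) (v : Fin n) :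
    (nh G W v).card = dg G W v := rfl

/-- `(G, W)` reduces to `(G', W')` with gain `t`: every kept set of `G'` in `W'` gives a kept set of `G` in `W`
with `t` more vertices. -/
def Rdc {n : ℕ} (k : ℕ) (G G' : SimpleGraph (Fin n)) (W W' : Finset (Fin n)) (t : ℕ) : Prop :=
  W' ⊆ W ∧ SF G' W' ∧ ∀ F' ⊆ W', Keep G' k F' → ∃ F ⊆ W, Keep G k F ∧ F'.card + t ≤ F.card

/-- The terminal situation: no reduction is profitable. -/
def Trm {n : ℕ} (k : ℕ) (G : SimpleGraph (Fin n)) (W : Finset (Fin n)) : Prop :=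
  SF G W ∧ ∀ (G' : SimpleGraph (Fin n)) (W' : Finset (Fin n)) (t : ℕ), Rdc k G G' W W' t →
    W'.card < W.card → 12 * W'.card + 12 * t + ed2 G W < 12 * W.card + ed2 G' W'

lemma Rdc.trans {n k : ℕ} {G G' G'' : SimpleGraph (Fin n)} {W W' W'' : Finset (Fin n)} {t t' : ℕ}
    (h : Rdc k G G' W W' t) (h' : Rdc k G' G'' W' W'' t') : Rdc k G G'' W W'' (t + t') := by
  obtain ⟨h1, _, h3⟩ := h
  obtain ⟨h4, h5, h6⟩ := h'
  refine ⟨h4.trans h1, h5, fun F' hF' hK => ?_⟩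
  obtain ⟨F1, hF1, hK1, hc1⟩ := h6 F' hF' hK
  obtain ⟨F, hF, hK2, hc2⟩ := h3 F1 hF1 hK1
  exact ⟨F, hF, hK2, by omega⟩

lemma SF.mono {n : ℕ} {G : SimpleGraph (Fin n)} {W W' : Finset (Fin n)} (h : SF G W) (hW : W' ⊆ W) :
    SF G W' := fun v hv s hs => h v (hW hv) s (hs.trans hW)

/-- Deleting a vertex (or any set of vertices) is a reduction without gain. -/
lemma Rdc.del {n k : ℕ} {G : SimpleGraph (Fin n)} {W W' : Finset (Fin n)} (h : SF G W) (hW : W' ⊆ W) :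
    Rdc k G G W W' 0 := ⟨hW, h.mono hW, fun F' hF' hK => ⟨F', hF'.trans hW, hK, le_rfl⟩⟩

lemma Rdc.sf {n k : ℕ} {G G' : SimpleGraph (Fin n)} {W W' : Finset (Fin n)} {t : ℕ}
    (h : Rdc k G G' W W' t) : SF G' W' := h.2.1

/-- The edges of `2 K_2 + K_1` on `0, 1, 2, 3, 4`. -/
def mM (i j : Fin 5) : Prop := (i = 1 ∧ j = 2) ∨ (i = 2 ∧ j = 1) ∨ (i = 3 ∧ j = 4) ∨ (i = 4 ∧ j = 3)

/-- The edges of `P_3 + K_2` on `0, 1, 2, 3, 4` (the centre of the path is `0`). -/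
def mP (i j : Fin 5) : Prop := (i = 0 ∧ j = 1) ∨ (i = 1 ∧ j = 0) ∨ (i = 0 ∧ j = 2) ∨
  (i = 2 ∧ j = 0) ∨ (i = 3 ∧ j = 4) ∨ (i = 4 ∧ j = 3)

instance : DecidableRel mM := fun i j => by unfold mM; infer_instance
instance : DecidableRel mP := fun i j => by unfold mP; infer_instance

/-- `f` lists the neighbours of `v` in `W`, and `m` is the adjacency of the neighbours. -/
structure Ty (m : Fin 5 → Fin 5 → Prop) {n : ℕ} (G : SimpleGraph (Fin n)) (W : Finset (Fin n))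
    (v : Fin n) (f : Fin 5 → Fin n) : Prop where
  inj : ∀ i j, f i = f j → i = j
  mem : ∀ i, f i ∈ W
  nbr : ∀ u ∈ W, G.Adj v u ↔ ∃ i, f i = u
  adj : ∀ i j, G.Adj (f i) (f j) ↔ m i j

/-- The local structure: `nb v` lists the neighbours of `v ∈ W`.  `v ∉ PS`: the neighbourhood is `2 K_2 + K_1`
(`nb v 0` is the partner).  `v ∈ PS`: it is `P_3 + K_2` (`nb v 0` is the mate, `nb v 1`, `nb v 2` the outers). -/
structure Loc {n : ℕ} (G : SimpleGraph (Fin n)) (W PS : Finset (Fin n))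
    (nb : Fin n → Fin 5 → Fin n) : Prop where
  sub : PS ⊆ W
  tyM : ∀ v ∈ W, v ∉ PS → Ty mM G W v (nb v)
  tyP : ∀ v ∈ PS, Ty mP G W v (nb v)
  mate : ∀ v ∈ PS, nb v 0 ∈ PS ∧ nb (nb v 0) 0 = v ∧ nb (nb v 0) 1 = nb v 1 ∧
    nb (nb v 0) 2 = nb v 2
  out : ∀ v ∈ PS, nb v 1 ∉ PS ∧ nb v 2 ∉ PS
  par : ∀ v ∈ W, v ∉ PS → nb v 0 ∉ PS ∧ nb (nb v 0) 0 = v

/-- The four candidates for triangles at `v`. -/
def ct {n : ℕ} (nb : Fin n → Fin 5 → Fin n) (v : Fin n) : Finset (Fin n) := {v, nb v 3, nb v 4}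
def ta {n : ℕ} (nb : Fin n → Fin 5 → Fin n) (v : Fin n) : Finset (Fin n) := {v, nb v 0, nb v 1}
def tb {n : ℕ} (nb : Fin n → Fin 5 → Fin n) (v : Fin n) : Finset (Fin n) := {v, nb v 0, nb v 2}
def t1 {n : ℕ} (nb : Fin n → Fin 5 → Fin n) (v : Fin n) : Finset (Fin n) := {v, nb v 1, nb v 2}

/-- All triangles at `v`. -/
def trs {n : ℕ} (PS : Finset (Fin n)) (nb : Fin n → Fin 5 → Fin n) (v : Fin n) :
    Finset (Finset (Fin n)) :=
  if v ∈ PS then {ta nb v, tb nb v, ct nb v} else {t1 nb v, ct nb v}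

/-- The facts about the triangles (block TRS). -/
structure Tri {n : ℕ} (G : SimpleGraph (Fin n)) (W PS : Finset (Fin n))
    (nb : Fin n → Fin 5 → Fin n) : Prop where
  self : ∀ v ∈ W, ∀ τ ∈ trs PS nb v, v ∈ τ
  sub : ∀ v ∈ W, ∀ τ ∈ trs PS nb v, τ ⊆ W
  card : ∀ v ∈ W, ∀ τ ∈ trs PS nb v, τ.card = 3
  adj : ∀ v ∈ W, ∀ τ ∈ trs PS nb v, ∀ x ∈ τ, ∀ y ∈ τ, x ≠ y → G.Adj x y
  sym : ∀ v ∈ W, ∀ τ ∈ trs PS nb v, ∀ u ∈ τ, τ ∈ trs PS nb u
  cov : ∀ v ∈ W, ∀ u ∈ W, G.Adj v u → (∃ τ ∈ trs PS nb v, u ∈ τ) ∨ (v ∉ PS ∧ u = nb v 0)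
  ctc : ∀ v ∈ PS, ∀ u ∈ ct nb v, u ∈ PS → ct nb u = ct nb v
  nct : ∀ v ∈ PS, nb v 0 ∉ ct nb v
  mat : ∀ v ∈ PS, ta nb (nb v 0) = ta nb v ∧ tb nb (nb v 0) = tb nb v
  neP : ∀ v ∈ PS, ta nb v ≠ tb nb v ∧ ta nb v ≠ ct nb v ∧ tb nb v ≠ ct nb v
  neM : ∀ v ∈ W, v ∉ PS → t1 nb v ≠ ct nb v

/-- A star cover: `FS` is closed under mates and meets all `ct v`, `v ∈ PS`; `LF` contains exactly one vertex of
every pair of mates in `FS`, and it is the only vertex of `FS` in its `ct`. -/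
structure Cov {n : ℕ} (PS : Finset (Fin n)) (nb : Fin n → Fin 5 → Fin n)
    (FS LF : Finset (Fin n)) : Prop where
  sub : FS ⊆ PS
  lf : LF ⊆ FS
  mate : ∀ v ∈ FS, nb v 0 ∈ FS
  cov : ∀ v ∈ PS, ∃ u ∈ ct nb v, u ∈ FS
  one : ∀ v ∈ LF, ∀ u ∈ ct nb v, u ∈ FS → u = v
  alt : ∀ v ∈ FS, (v ∈ LF ↔ nb v 0 ∉ LF)

/-- The label (a set) of all triangles at `u ∈ FS`. -/
def zs {n : ℕ} (nb : Fin n → Fin 5 → Fin n) (LF : Finset (Fin n)) (u : Fin n) : Finset (Fin n) :=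
  if u ∈ LF then ct nb (nb u 0) else ct nb u

open Classical in
/-- The label (a set) of a triangle. -/
noncomputable def lbs {n : ℕ} (nb : Fin n → Fin 5 → Fin n) (FS LF : Finset (Fin n))
    (τ : Finset (Fin n)) : Finset (Fin n) :=
  if h : ∃ u ∈ τ, u ∈ FS then zs nb LF h.choose else τ

/-- The encoding of sets by numbers. -/
def enc {n : ℕ} (S : Finset (Fin n)) : ℕ := Encodable.encode S

/-- The set with a given code. -/
def dec (n p : ℕ) : Finset (Fin n) := (Encodable.decode (α := Finset (Fin n)) p).getD ∅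

@[simp] lemma dec_enc {n : ℕ} (S : Finset (Fin n)) : dec n (enc S) = S := by
  unfold dec enc
  rw [Encodable.encodek]
  rfl

lemma enc_inj {n : ℕ} {S S' : Finset (Fin n)} (h : enc S = enc S') : S = S' := by
  rw [← dec_enc S, h, dec_enc]

/-- The point of a triangle. -/
noncomputable def lb {n : ℕ} (nb : Fin n → Fin 5 → Fin n) (FS LF : Finset (Fin n))
    (τ : Finset (Fin n)) : ℕ := enc (lbs nb FS LF τ)

/-- The point of the edge from `x ∉ PS` to its partner. -/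
def ee {n : ℕ} (nb : Fin n → Fin 5 → Fin n) (x : Fin n) : ℕ := enc {x, nb x 0}

/-- The three points of `x ∈ W \ FS`. -/
noncomputable def pts {n : ℕ} (PS : Finset (Fin n)) (nb : Fin n → Fin 5 → Fin n)
    (FS LF : Finset (Fin n)) (x : Fin n) : Finset ℕ :=
  if x ∈ PS then {lb nb FS LF (ta nb x), lb nb FS LF (tb nb x), lb nb FS LF (ct nb x)}
  else if lb nb FS LF (t1 nb x) = lb nb FS LF (ct nb x) then
    {ee nb x, lb nb FS LF (ct nb x), enc {x}}
  else {ee nb x, lb nb FS LF (t1 nb x), lb nb FS LF (ct nb x)}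

open Classical in
/-- The weight of the point `p` at the vertex `x`: private `12`, edge `6`, cluster `1` (for `x ∈ PS`) or `3`, other
triangles `4`. -/
noncomputable def wt {n : ℕ} (PS FS : Finset (Fin n)) (p : ℕ) (x : Fin n) : ℕ :=
  if (dec n p).card = 1 then 12 else if (dec n p).card = 2 then 6
  else if ∃ u ∈ dec n p, u ∈ FS then (if x ∈ PS then 1 else 3) else 4

/-- The vertices of `W \ FS` with a point in `C`. -/
noncomputable def ZZ {n : ℕ} (W PS : Finset (Fin n)) (nb : Fin n → Fin 5 → Fin n)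
    (FS LF : Finset (Fin n)) (C : Finset ℕ) : Finset (Fin n) :=
  (W \ FS).filter (fun x => (pts PS nb FS LF x ∩ C).Nonempty)

/-- The vertices of `W \ FS` with all points in `C`. -/
noncomputable def T0 {n : ℕ} (W PS : Finset (Fin n)) (nb : Fin n → Fin 5 → Fin n)
    (FS LF : Finset (Fin n)) (C : Finset ℕ) : Finset (Fin n) :=
  (W \ FS).filter (fun x => pts PS nb FS LF x ⊆ C)

/-- The vertices of `FS` with their label in `C`. -/
def T1 {n : ℕ} (nb : Fin n → Fin 5 → Fin n)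
    (FS LF : Finset (Fin n)) (C : Finset ℕ) : Finset (Fin n) :=
  FS.filter (fun u => enc (zs nb LF u) ∈ C)

/-- `T = T0 ∪ T1`. -/
noncomputable def TT {n : ℕ} (W PS : Finset (Fin n)) (nb : Fin n → Fin 5 → Fin n)
    (FS LF : Finset (Fin n)) (C : Finset ℕ) : Finset (Fin n) :=
  T0 W PS nb FS LF C ∪ T1 nb FS LF C

/-- `X = Z \ T0`. -/
noncomputable def XX {n : ℕ} (W PS : Finset (Fin n)) (nb : Fin n → Fin 5 → Fin n)
    (FS LF : Finset (Fin n)) (C : Finset ℕ) : Finset (Fin n) :=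
  ZZ W PS nb FS LF C \ T0 W PS nb FS LF C

/-- The weight of the points outside `C` at `x`. -/
noncomputable def ow {n : ℕ} (PS : Finset (Fin n)) (nb : Fin n → Fin 5 → Fin n)
    (FS LF : Finset (Fin n)) (C : Finset ℕ) (x : Fin n) : ℕ :=
  ∑ p ∈ pts PS nb FS LF x \ C, wt PS FS p x

/-- The number of private points in `C`. -/
def pv (n : ℕ) (C : Finset ℕ) : ℕ := (C.filter (fun p => (dec n p).card = 1)).card

/-- The number of edge points, triangle points of `x` in `C`. -/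
def e0 {n : ℕ} (nb : Fin n → Fin 5 → Fin n) (C : Finset ℕ) (x : Fin n) : ℕ :=
  if ee nb x ∈ C then 1 else 0

noncomputable def j0 {n : ℕ} (nb : Fin n → Fin 5 → Fin n) (FS LF : Finset (Fin n)) (C : Finset ℕ)
    (τ : Finset (Fin n)) : ℕ := if lb nb FS LF τ ∈ C then 1 else 0

/-- The number of `x ∈ W \ PS` with `e` edge points and `j` triangles with a point in `C`. -/
noncomputable def mc {n : ℕ} (W PS : Finset (Fin n)) (nb : Fin n → Fin 5 → Fin n)
    (FS LF : Finset (Fin n)) (C : Finset ℕ) (e j : ℕ) : ℕ :=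
  ((W \ PS).filter (fun x => e0 nb C x = e ∧
    j0 nb FS LF C (t1 nb x) + j0 nb FS LF C (ct nb x) = j)).card

/-- The number of `x ∈ PS \ FS` with `i` of the triangles `ta`, `tb` and `c` of the triangle `ct` with a point in
`C`. -/
noncomputable def pc {n : ℕ} (PS : Finset (Fin n)) (nb : Fin n → Fin 5 → Fin n)
    (FS LF : Finset (Fin n)) (C : Finset ℕ) (i c : ℕ) : ℕ :=
  ((PS \ FS).filter (fun x => j0 nb FS LF C (ta nb x) + j0 nb FS LF C (tb nb x) = i ∧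
    j0 nb FS LF C (ct nb x) = c)).card

open Classical in
/-- The number of pairs `(x, τ)`, `x ∈ A`, `τ` a triangle at `x` with label `S`. -/
noncomputable def inc {n : ℕ} (PS : Finset (Fin n)) (nb : Fin n → Fin 5 → Fin n)
    (FS LF : Finset (Fin n)) (A : Finset (Fin n)) (S : Finset (Fin n)) : ℕ :=
  ∑ x ∈ A, ((trs PS nb x).filter (fun τ => lbs nb FS LF τ = S)).card

/-- The number of vertices of `FS` with label `S`. -/
def zc {n : ℕ} (nb : Fin n → Fin 5 → Fin n) (FS LF : Finset (Fin n)) (S : Finset (Fin n)) : ℕ :=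
  (FS.filter (fun u => zs nb LF u = S)).card

end Frag.S4
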