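import Pool.Agent.Work.MP_547619_s4.Asm

set_option autoImplicit false

namespace Frag.S4

open SimpleGraph Frag.Kz

/-- The chain of the blocks. -/
theorem chain (hTUT : Frag.Kz.S_TUT) (hKPF : Frag.Kz.S_KPF) (hKSM : Frag.Kz.S_KSM) (hKTW : Frag.Kz.S_KTW)
    (hED1 : Frag.Kz.S_ED1) (hEDZ : Frag.K4.S_EDZ) (hCHO : Frag.K4.S_CHO)
    (TOR : S_TOR) (REM : S_TOR → S_REM) (EDR : S_EDR) (TO1 : S_REM → S_EDR → Frag.Kz.S_ED1 → S_TO1)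
    (STA : S_TO1 → Frag.Kz.S_ED1 → S_STA) (ST4 : S_TO1 → S_STA → Frag.Kz.S_ED1 → S_ST4)
    (ST5 : S_TO1 → Frag.Kz.S_ED1 → S_ST4 → S_ST5) (SM5 : S_SM5) (TYP : S_ST4 → S_ST5 → S_SM5 → S_TYP)
    (ST6 : S_TO1 → Frag.Kz.S_ED1 → S_ST4 → S_TYP → S_ST6) (LCC : S_TYP → S_ST6 → S_LCC)
    (TRS : S_TRS) (CVR : S_CVR) (LBL : S_LBL) (PTC : S_LBL → S_PTC) (INC : S_LBL → S_INC)
    (CNT : S_LBL → S_PTC → S_INC → S_CNT) (BUD : S_LBL → S_PTC → S_INC → S_BUD)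
    (SZE : S_LBL → S_PTC → S_INC → S_SZE) (NBT : S_LBL → S_PTC → S_NBT) (AL2 : S_PTC → S_NBT → S_AL2)
    (WGT : S_LBL → S_PTC → S_NBT → S_WGT) (PRT : S_LBL → S_PTC → S_PRT) (EMP : S_LBL → S_PTC → S_EMP)
    (ARI : S_ARI) (TE4 : S_REM → S_EDR → Frag.K4.S_EDZ → S_TE4)
    (TER : S_REM → S_EDR → Frag.K4.S_EDZ → S_TER) (AVG : S_AVG)
    (CLM : S_ST4 → S_SZE → S_NBT → S_AL2 → S_WGT → S_PRT → S_EMP → S_ARI → S_TE4 → S_TER → S_AVG → S_CLM)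
    (BAR : S_BUD → S_CLM → S_BAR) (MTG : Frag.Kz.S_TUT → S_MTG)
    (KPT : Frag.Kz.S_KPF → S_LBL → S_PTC → S_SZE → S_KPT)
    (TRM : S_ST4 → S_LCC → S_TRS → S_CVR → S_PTC → S_CNT → S_BAR → S_MTG → Frag.K4.S_CHO → S_KPT → S_TRM)
    (IND : Frag.Kz.S_KSM → S_TRM → S_IND) (UPP : Frag.Kz.S_KTW → S_IND → S_UPP) (LOK : S_LOK) :
    (∀ d : ℕ, d = 4 ∨ d = 5 ∨ d = 6 →
      fragCoeff (maxSF d) = (d : ℝ) / 12 ∧ fragCoeff (avgSF d) = (d : ℝ) / 12) ∧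
    ∀ ε : ℝ, 0 < ε → ∃ k : ℕ, ∀ (n : ℕ) (G : SimpleGraph (Fin n)), K14F n G →
      ∃ S : Finset (Fin n), (S.card : ℝ) ≤ (G.edgeSet.ncard : ℝ) / 6 + ε * n ∧
        TreeWidthLE (G.induce {v | v ∉ S}) k := by
  have rem := REM TOR
  have to1 := TO1 rem EDR hED1
  have sta := STA to1 hED1
  have st4 := ST4 to1 sta hED1
  have st5 := ST5 to1 hED1 st4
  have typ := TYP st4 st5 SM5
  have st6 := ST6 to1 hED1 st4 typ
  have lcc := LCC typ st6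
  have ptc := PTC LBL
  have inc := INC LBL
  have cnt := CNT LBL ptc inc
  have bud := BUD LBL ptc inc
  have sze := SZE LBL ptc inc
  have nbt := NBT LBL ptc
  have al2 := AL2 ptc nbt
  have wgt := WGT LBL ptc nbt
  have prt := PRT LBL ptc
  have emp := EMP LBL ptc
  have te4 := TE4 rem EDR hEDZ
  have ter := TER rem EDR hEDZ
  have clm := CLM st4 sze nbt al2 wgt prt emp ARI te4 ter AVG
  have bar := BAR bud clm
  have mtg := MTG hTUT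
  have kpt := KPT hKPF LBL ptc sze
  have trm := TRM st4 lcc TRS CVR ptc cnt bar mtg hCHO kpt
  have ind := IND hKSM trm
  have upp := UPP hKTW ind
  exact ⟨fun d hd => values upp LOK d hd, fun ε hε => upper upp ε hε⟩

end Frag.S4
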