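import Pool.Agent.Work.MP_547619_s4.Base

/-!
# MP_547619_co, THEOREM S4: block statements

Every docstring is the full proof of its block.  Files `B_X.lean`:
`import Pool.Agent.Work.MP_547619_s4.Defs`, `namespace Frag.S4`, `open SimpleGraph Frag.Kz`,
theorem `p_X (h1 : S_Y) … : S_X` with the blocks of the column `uses` as hypotheses in that order
(`S_TUT, S_KPF, S_KSM, S_KTW, S_ED1` are the ones of `Frag.Kz`; `Frag.K4.S_EDZ`, `Frag.K4.S_CHO` the ones of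
`Frag.K4`).  Auxiliary lemmas get the prefix `X_`.  All definitions are in `Base.lean` (read it first; lemmas
`mem_nh`, `card_nh`, `Rdc.trans`, `Rdc.del`, `Rdc.sf`, `SF.mono`, `dec_enc`, `enc_inj`).
-/

set_option autoImplicit false

namespace Frag.S4

open SimpleGraph Frag.Kz

/-- All data of the structure. -/
structure Str {n : ℕ} (G : SimpleGraph (Fin n)) (W PS : Finset (Fin n))
    (nb : Fin n → Fin 5 → Fin n) (FS LF : Finset (Fin n)) : Prop where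
  loc : Loc G W PS nb
  tri : Tri G W PS nb
  cov : Cov PS nb FS LF

/-! ### A. reductions and the local structure -/

/-- TOR (110 lines). Model: `kpf_add` in MP_547619_kz/B_KPF.lean (adding a vertex `v` whose neighbours are a clique
`N` of size `≤ k`; import that file).  Induction on `T` (or on `T.card`), with the statement: for a chordal `H` on `F'`
(`Build H ∅ F'`, cliques `≤ k + 1`) in which `R ∩ F'` is a clique there is `H'` on `F' ∪ T` (`Build`, cliques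
`≤ k + 1`), equal to `H` on `F'`, in which every `t ∈ T` is adjacent to all of `(R ∩ F') ∪ (T \ {t})`: add `t` with the
clique `N = (R ∩ F') ∪ (T \ {t})`, `|N| ≤ |R| + |T| - 1 ≤ k`.  `H` comes from `Keep (cl G R) k F'` (`R ∩ F'` is a clique of
`cl G R`, so of `H`).  `G.Adj x y` for `x, y ∈ F' ∪ T` gives `H'.Adj x y`: both in `F'`: `cl G R` has the edge; one in `T`:
the other is in `T` or in `R`. -/
def S_TOR : Prop := ∀ (n k : ℕ) (G : SimpleGraph (Fin n)) (R F' T : Finset (Fin n)),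
  Keep (cl G R) k F' → Disjoint F' T → T.card + R.card ≤ k + 1 →
  (∀ t ∈ T, ∀ u ∈ F', G.Adj t u → u ∈ R) → Keep G k (F' ∪ T)

/-- REM (110 lines, uses TOR). `W' = W \ (T ∪ D) ⊆ W`.  `SF (cl G R) W'`: let `v ∈ W'`, `s ⊆ W'`, `|s| = 4`, all of `s`
`cl G R`-adjacent to `v`, and suppose that no two elements of `s` are `cl G R`-adjacent.  Then `|s ∩ R| ≤ 1`.  If
`v ∉ R`: `v` is `G`-adjacent to all of `s`, and no two elements are `G`-adjacent, against `SF G W`.  If `v ∈ R`: the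
elements of `s \ R` are `G`-adjacent to `v`, at least three, in `W \ (T ∪ D ∪ R)`; take three of them, `s'`.  If `v` has
a neighbour `t ∈ T`: `t` has no neighbour in `s'` (its neighbours are in `T ∪ D ∪ R`), so `insert t s'` contradicts
`SF G W`.  Otherwise the second alternative of the last hypothesis for `s'`.  The kept sets: `F = F' ∪ T`, TOR
(a neighbour `u ∈ F'` of `t ∈ T` is in `T ∪ D ∪ R` and in `W'`, so in `R`), `|F' ∪ T| = |F'| + |T|`. -/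
def S_REM : Prop := ∀ (n k : ℕ) (G : SimpleGraph (Fin n)) (W T D R : Finset (Fin n)), SF G W →
  T ⊆ W → D ⊆ W → R ⊆ W → Disjoint T D → Disjoint T R → Disjoint D R →
  T.card + R.card ≤ k + 1 →
  (∀ t ∈ T, ∀ u ∈ W, G.Adj t u → u ∈ T ∪ D ∪ R) →
  (∀ r ∈ R, (∃ t ∈ T, G.Adj r t) ∨
    ∀ s ⊆ W \ (T ∪ D ∪ R), s.card = 3 → (∀ x ∈ s, G.Adj r x) → ∃ x ∈ s, ∃ y ∈ s, G.Adj x y) →
  Rdc k G (cl G R) W (W \ (T ∪ D)) T.card

/-- EDR (70 lines). For `v ∈ W \ R`: `dg (cl G R) W v = dg G W v`.  For `v ∈ R`: the `cl G R`-neighbours in `W` are the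
`G`-neighbours in `W \ R` and `R.erase v`, the `G`-neighbours in `W` are those in `W \ R` and those in `R`:
`dg (cl G R) W v + dg G R v = dg G W v + (|R| - 1)`.  Sum over `W` (split over `R` and `W \ R`). -/
def S_EDR : Prop := ∀ (n : ℕ) (G : SimpleGraph (Fin n)) (W R : Finset (Fin n)), R ⊆ W →
  ed2 (cl G R) W + ed2 G R = ed2 G W + R.card * (R.card - 1)

/-- TO1 (70 lines, uses REM EDR ED1). REM with `T = {v}`, `D = ∅`, `R = nh G W v` (every `r ∈ R` has the neighbour `v ∈ T`;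
`v ∉ R`), EDR for `W.erase v`, ED1. -/
def S_TO1 : Prop := ∀ (n k : ℕ) (G : SimpleGraph (Fin n)) (W : Finset (Fin n)) (v : Fin n),
  SF G W → v ∈ W → dg G W v ≤ k →
  Rdc k G (cl G (nh G W v)) W (W.erase v) 1 ∧
  ed2 (cl G (nh G W v)) (W.erase v) + ed2 G (nh G W v) + 2 * dg G W v =
    ed2 G W + dg G W v * (dg G W v - 1)

/-- STA (50 lines, uses TO1 ED1). `Rdc.del` for `W.erase v` and `Trm`: `12 (|W| - 1) + ed2 G W < 12 |W| + ed2 G (W.erase v)`, so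
(ED1) `2 d < 12`, `d ≤ 5` for `d = dg G W v`.  TO1 and `Trm`: `ed2 G W < ed2 (cl ..) (W.erase v)`, so
`e + 2 d < d (d - 1)`, `e = ed2 G (nh G W v)`, i.e. `e + 3 d < d * d`. -/
def S_STA : Prop := ∀ (n k : ℕ) (G : SimpleGraph (Fin n)) (W : Finset (Fin n)), 5 ≤ k → Trm k G W →
  ∀ v ∈ W, dg G W v ≤ 5 ∧ ed2 G (nh G W v) + 3 * dg G W v < dg G W v * dg G W v

/-- ST4 (180 lines, uses TO1 STA ED1). By STA `d ≤ 5` and `d * d > 3 d`, so `d ∈ {4, 5}`.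
(a) If `dg G W v = 4`, `N = nh G W v`: `ed2 G N ≤ 3`; by `SF` some `x, y ∈ N` are adjacent; `ed2 G N = ∑_(z ∈ N) dg G N z`,
and `dg N x, dg N y ≥ 1`, so `dg N x = dg N y = 1`, `ed2 G N = 2` and `dg N z = 0` for the two other elements `r, s` of `N`
(a neighbour `z'` of `z = r` would have `dg N z' ≥ 1` too, sum `≥ 4` unless `z' ∈ {x, y}`, and then `dg N z' ≥ 2`).
So `N = {x, y, r, s}`, only `x y` is an edge of `N`.
(b) Suppose `dg G W v = 4` and one of `dg W r`, `dg W s` is `5`, say `r` (the situation is symmetric in `r, s`).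
`W₁ = W.erase r` (`Rdc.del`), `ed2 G W₁ + 10 = ed2 G W` (ED1), `nh G W₁ v = {x, y, s}` has `ed2 = 2`, `dg G W₁ v = 3`.
TO1 for `v` in `(G, W₁)`: `ed2' + 2 + 6 = ed2 G W₁ + 6`.  So `Rdc k G G' W (W₁.erase v) (0 + 1)`, `|W₁.erase v| = |W| - 2`,
`ed2' + 12 = ed2 G W`: against `Trm`.
(c) Otherwise `dg W r = dg W s = 4`.  `W₁ = W.erase v`, `ed2 G W₁ + 8 = ed2 G W`.  `v ∈ nh G W r` has no neighbour in
`nh G W r` (a common neighbour of `v` and `r` is in `N` and adjacent to `r`), so by (a) for `r`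
`nh G W₁ r = (nh G W r).erase v` has three elements and `ed2 = 2` (ED1 for `nh G W r` and `v`); the same for `s`.  TO1 for
`r` in `(G, W₁)`: `G₂ = cl G (nh G W₁ r)`, `W₂ = W₁.erase r`, `ed2 G₂ W₂ + 2 + 6 = ed2 G W₁ + 6`.  `s ∉ nh G W₁ r`, so
`nh G₂ W₂ s = nh G W₁ s` (`r, s` are not adjacent), three elements, `ed2 G₂ (..) ≥ ed2 G (..) = 2`.  TO1 for `s` in
`(G₂, W₂)`: `ed2'' + 2 + 6 ≤ ed2 G₂ W₂ + 6`.  Total (`Rdc.trans`): `t = 0 + 1 + 1`, `|W₃| = |W| - 3`,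
`ed2'' + 12 ≤ ed2 G W`: against `Trm`. -/
def S_ST4 : Prop := ∀ (n k : ℕ) (G : SimpleGraph (Fin n)) (W : Finset (Fin n)), 5 ≤ k → Trm k G W →
  ∀ v ∈ W, dg G W v = 5

/-- ST5 (70 lines, uses TO1 ED1 ST4). `N = nh G W v`, `W₁ = W.erase x` (`Rdc.del`), `ed2 G W₁ + 10 = ed2 G W` (ED1, ST4).
`nh G W₁ v = N.erase x`, four elements, `ed2 G (N.erase x) + 2 dg G N x = ed2 G N` (ED1).  TO1 for `v` in `(G, W₁)`:
`ed2' + ed2 G (N.erase x) + 8 = ed2 G W₁ + 12`.  `|W₁.erase v| = |W| - 2`, `t = 0 + 1`, `Trm`: `ed2 G W < ed2' + 12`. -/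
def S_ST5 : Prop := ∀ (n k : ℕ) (G : SimpleGraph (Fin n)) (W : Finset (Fin n)), 5 ≤ k → Trm k G W →
  ∀ v ∈ W, ∀ x ∈ nh G W v, ed2 G (nh G W v) < 6 + 2 * dg G (nh G W v) x

/-- SM5 (150 lines). `a x = dg G N x`, `e = ed2 G N = ∑_(x ∈ N) a x`.  `G` on `N` has an even `e` (twice the number of edges:
a sum over ordered pairs, symmetric; or avoid parity: all cases below use only the degrees).  Summing the last
hypothesis: `5 e + 5 ≤ 30 + 2 e`, so `e ≤ 8`.  `e ≥ 4`: otherwise there are `x, y` such that all edges of `N` contain `x`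
(if `e ≤ 3` there is at most one edge), and `N.erase x` has no edge, against the second hypothesis.
`e ≥ 7`: `a x ≥ 1` for all `x`, `e = 8`: `a x ≥ 2` for all `x`, so `e ≥ 10`, impossible (`e = 7` is impossible by parity).
`e = 5` is impossible by parity.  `e = 6`: `a x ≥ 1` for all `x`, so exactly one vertex `c` has `a c = 2`, the others `1`.
Let `c ~ a, b`; the others are `x, y`.  `a, b` have only the neighbour `c`, `x` has a neighbour which is not `a, b, c`,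
so `x ~ y`: `f = ![c, a, b, x, y]`, `mP`.  `e = 4`: if some `c` has `a c ≥ 2`, `c ~ a, b`, all other vertices are isolated
(`a c + a a + a b ≥ 4`) and `N.erase c` has no edge (`a a = a b = 1`), against the second hypothesis.  So all `a x ≤ 1`, exactly
one vertex `u` has `a u = 0`; let `x ≠ u`, `x ~ y`, `z` another one, `z ~ w` (`w ≠ x, y, u`): `f = ![u, x, y, z, w]`, `mM`.
(Another way: transport to `Fin 5` with `N.orderIsoOfFin` or `Finset.equivFinOfCardEq`, and a `decide`/case analysis.) -/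
def S_SM5 : Prop := ∀ (n : ℕ) (G : SimpleGraph (Fin n)) (N : Finset (Fin n)), N.card = 5 →
  (∀ s ⊆ N, s.card = 4 → ∃ x ∈ s, ∃ y ∈ s, G.Adj x y) →
  (∀ x ∈ N, ed2 G N < 6 + 2 * dg G N x) →
  ∃ f : Fin 5 → Fin n, (∀ i j, f i = f j → i = j) ∧ (∀ u, u ∈ N ↔ ∃ i, f i = u) ∧
    ((∀ i j, G.Adj (f i) (f j) ↔ mM i j) ∨ (∀ i j, G.Adj (f i) (f j) ↔ mP i j))

/-- TYP (30 lines, uses ST4 ST5 SM5). SM5 for `N = nh G W v` (`SF`). -/
def S_TYP : Prop := ∀ (n k : ℕ) (G : SimpleGraph (Fin n)) (W : Finset (Fin n)), 5 ≤ k → Trm k G W →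
  ∀ v ∈ W, ∃ f, Ty mM G W v f ∨ Ty mP G W v f

/-- ST6 (200 lines, uses TO1 ED1 ST4 TYP). `c = f 0, a = f 1, b = f 2, x = f 3, y = f 4` are the five neighbours of `v`,
`c ~ a, b`, `x ~ y`, nothing else.  Suppose `Ty mP G W a g`.
(1) The only common neighbour of `v` and `a` is `c`.  In `nh G W c` the vertex `v` is adjacent to `a` and `b`, so `c` is not
of type `mM` (there every `h i` has at most one neighbour `h j`); let `Ty mP G W c h` (TYP); the only `h i` with two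
neighbours among the `h j` is `h 0`, so `v = h 0`, and its neighbours are `h 1, h 2`, so `{a, b} = {h 1, h 2}`: the only
common neighbour of `c` and `a` is `v`.
(2) `v, c` are among the `g i`, `v ~ c`; the only neighbour of `v` among the `g j` is `c` and vice versa, so
`{v, c} = {g 3, g 4}` (`g 0` has two neighbours, and `g 1`, `g 2` have the neighbour `g 0`).  So `v` is not adjacent to
`g 0, g 1, g 2`, and `{g 0, g 1, g 2}` is disjoint from `{v, c, a, b, x, y}`.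
(3) `W₁ = W.erase c` (`Rdc.del`): `ed2 G W₁ + 10 = ed2 G W`.  `R₁ = nh G W₁ a = {v, g 0, g 1, g 2}`, `ed2 G R₁ = 4`.  TO1 for `a` in
`(G, W₁)`: `G₂ = cl G R₁`, `W₂ = W₁.erase a`, `ed2 G₂ W₂ + 4 + 8 = ed2 G W₁ + 12`.
(4) `v` has in `(G₂, W₂)` the six neighbours `b, x, y, g 0, g 1, g 2`, so for `W₃ = W₂.erase v` (`Rdc.del`, ED1)
`ed2 G₂ W₃ + 12 ≤ ed2 G₂ W₂`.
(5) `b ∉ R₁`, so `nh G₂ W₃ b = nh G W b \ {v, c}` (`a` is not adjacent to `b`), three elements.  It contains an edge: `b` is of type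
`mM` or `mP` (TYP, enumeration `h`), `v ~ c` are adjacent in it; `mM`: `{v, c}` is `{h 1, h 2}` or `{h 3, h 4}` and the other pair is an
edge; `mP`: if `{v, c} = {h 3, h 4}` then `h 0 ~ h 1`, otherwise `h 3 ~ h 4`.  So `ed2 G₂ (nh G₂ W₃ b) ≥ 2`.  TO1 for `b` in `(G₂, W₃)`:
`ed2'' + 2 + 6 ≤ ed2 G₂ W₃ + 6`.
Total (`Rdc.trans`): `|W₄| = |W| - 4`, `t = 0 + 1 + 0 + 1`, `ed2'' + 24 ≤ ed2 G W`: against `Trm`. -/
def S_ST6 : Prop := ∀ (n k : ℕ) (G : SimpleGraph (Fin n)) (W : Finset (Fin n)), 5 ≤ k → Trm k G W →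
  ∀ v ∈ W, ∀ f, Ty mP G W v f → ∀ g, ¬ Ty mP G W (f 1) g

/-- LCC (180 lines, uses TYP ST6). `PS` = the `v ∈ W` with some `f`, `Ty mP G W v f`.  For `v ∈ PS` choose such an `f` with
`f 1 < f 2` (swap the values `f 1`, `f 2` if necessary: `mP` is symmetric in `1, 2`) as `nb v`; for `v ∈ W \ PS` an `f` with
`Ty mM` (TYP); anything for other `v`.  `mate`: `c = nb v 0`.  In `nh G W c` the vertex `v` is adjacent to `a = nb v 1` and
`b = nb v 2` (which are adjacent to `c`).  In an `mM` enumeration nobody has two neighbours, so `c ∈ PS` (TYP); in the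
enumeration `nb c` only `nb c 0` has two neighbours, `nb c 1` and `nb c 2`, so `v = nb c 0`, `{a, b} = {nb c 1, nb c 2}`, and
both are sorted.  `out`: ST6 for `nb v` and for `nb v` with `1, 2` swapped.  `par`: `u = nb v 0`, `v ∈ W \ PS`: `v` and `u` have
no common neighbour (`u` is isolated in `nh G W v`).  If `u ∈ PS`: `v = nb u i`, and every `i` has a `j` with `mP i j`, so
`nb u j` would be a common neighbour.  So `u ∉ PS`, `v = nb u i` and `i ≠ 1, 2, 3, 4` for the same reason, `i = 0`. -/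
def S_LCC : Prop := ∀ (n k : ℕ) (G : SimpleGraph (Fin n)) (W : Finset (Fin n)), 5 ≤ k → Trm k G W →
  ∃ (PS : Finset (Fin n)) (nb : Fin n → Fin 5 → Fin n), Loc G W PS nb

/-- TRS (180 lines). Everything follows from the lists of the neighbours (`Ty`).  `card`: `v ≠ nb v i`, `nb v` injective.
`adj`: `mM 1 2`, `mM 3 4`, `mP 0 1`, `mP 0 2`, `mP 3 4`.  Key lemma: if `x, y ∈ W` are adjacent to `v ∈ W` and to each other, then
`{v, x, y} ∈ trs PS nb v` (`x = nb v i`, `y = nb v j`, `mM i j` or `mP i j`, all cases).  `sym`: `τ = {u, x, y}` for `u ∈ τ`, key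
lemma for `u`.  `cov`: `u = nb v i`: every `i` is in a triangle except `i = 0` for `v ∉ PS`.  `nct`: injectivity, `nb v 0 ≠ v`.
`mat`: `Loc.mate` (`{c, v, a} = {v, c, a}`).  `ctc`: `u ∈ PS`, `u ∈ ct v`, so `ct v ∈ trs u = {ta u, tb u, ct u}` (`sym`).  If `ct v = ta u =
{u, nb u 0, nb u 1}`: `v ∈ ct v`, `v ∈ PS`, `nb u 1 ∉ PS` (`out`), so `v = u` (then `nb v 0 ∈ ct v`, against `nct`) or `v = nb u 0` (then
`u = nb v 0 ∈ ct v`, against `nct`).  The same for `tb`.  `neP`, `neM`: injectivity. -/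
def S_TRS : Prop := ∀ (n : ℕ) (G : SimpleGraph (Fin n)) (W PS : Finset (Fin n))
  (nb : Fin n → Fin 5 → Fin n), Loc G W PS nb → Tri G W PS nb

/-- CVR (120 lines). Among the `FS ⊆ PS` with `mate` and `cov` (`FS = PS` is one: `v ∈ ct v`) take one with the
smallest number of elements.  For `v ∈ FS` the set `FS \ {v, nb v 0}` is closed under mates and smaller, so some
`w ∈ PS` has no element of it in `ct w`, but some `v' ∈ FS` in `ct w`: `v' ∈ {v, nb v 0}`.  `ct w = ct v'` (`ctc`), and the only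
element of `FS` in `ct v'` is `v'` (elements of `FS` in it are in `{v, nb v 0}`, and the mate of `v'` is not in `ct v'`, `nct`).
So for every `v ∈ FS`: `v` or `nb v 0` is good, where `x` is good if `x` is the only element of `FS` in `ct x`.
`LF` = the good `v ∈ FS` such that `nb v 0` is not good or `v < nb v 0`.  `alt`: `nb (nb v 0) 0 = v ≠ nb v 0`; cases. -/
def S_CVR : Prop := ∀ (n : ℕ) (G : SimpleGraph (Fin n)) (W PS : Finset (Fin n))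
  (nb : Fin n → Fin 5 → Fin n), Loc G W PS nb → Tri G W PS nb →
  ∃ FS LF : Finset (Fin n), Cov PS nb FS LF

/-- LBL (120 lines). (1) For `u, u' ∈ τ ∩ FS`, `τ ∈ trs v`: `zs u = zs u'` (then apply it to `h.choose`).  Let `u ≠ u'`;
`τ ∈ trs u` (`sym`), `u ∈ FS ⊆ PS`.  `τ = ct u`: `ct u' = ct u` (`ctc`), `u ∉ LF` (otherwise `one` for `u' ∈ ct u` gives `u' = u`), in the
same way `u' ∉ LF` (`u ∈ ct u'`): `zs u = ct u = ct u' = zs u'`.  `τ = ta u = {u, nb u 0, nb u 1}` (or `tb u`): `nb u 1 ∉ PS` (`Loc.out`), so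
`u' = nb u 0`.  If `u ∈ LF`: `u' ∉ LF` (`alt`), `zs u = ct (nb u 0) = ct u' = zs u'`.  If `u ∉ LF`: `u' ∈ LF` (`alt`), `zs u' = ct (nb u' 0) =
ct u = zs u` (`mate`).  (2) by definition.  (3) `u ∉ LF`: `w = u`; `u ∈ LF`: `w = nb u 0`, `w ∉ LF` (`alt`).  (4) (1), (3), `Tri.card` for
`ct w`, or (2).  (5) (1) for `τ = ta u`, which contains `u` and `nb u 0 ∈ FS`. -/
def S_LBL : Prop := ∀ (n : ℕ) (G : SimpleGraph (Fin n)) (W PS : Finset (Fin n))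
  (nb : Fin n → Fin 5 → Fin n) (FS LF : Finset (Fin n)), Str G W PS nb FS LF →
  (∀ v ∈ W, ∀ τ ∈ trs PS nb v, ∀ u ∈ τ, u ∈ FS → lbs nb FS LF τ = zs nb LF u) ∧
  (∀ τ, (∀ u ∈ τ, u ∉ FS) → lbs nb FS LF τ = τ) ∧
  (∀ u ∈ FS, ∃ w ∈ FS, w ∉ LF ∧ zs nb LF u = ct nb w ∧ (u = w ∨ u = nb w 0)) ∧
  (∀ v ∈ W, ∀ τ ∈ trs PS nb v, (lbs nb FS LF τ).card = 3) ∧
  (∀ u ∈ FS, zs nb LF (nb u 0) = zs nb LF u)

/-- PTC (130 lines, uses LBL). (5) `x ∈ PS \ FS`: `nb x 0 ∉ FS` (otherwise `x = nb (nb x 0) 0 ∈ FS`), `nb x 1, nb x 2 ∉ PS ⊇ FS`, so no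
element of `ta x`, `tb x` is in `FS`, LBL (2); `Cov.cov` and LBL (1) for `ct x`.  (2), (3), (4): by cases from the definition
of `pts`.  (1): `x ∈ PS`: `ta x ≠ tb x`, and `lbs (ct x) = zs u = ct w` contains `w ∈ FS`, the other two labels do not; `enc_inj`.
`x ∉ PS`: `ee x` has a set with two elements (`nb x 0 ≠ x`), triangle points sets with three (LBL (4)), `enc {x}` one. -/
def S_PTC : Prop := ∀ (n : ℕ) (G : SimpleGraph (Fin n)) (W PS : Finset (Fin n))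
  (nb : Fin n → Fin 5 → Fin n) (FS LF : Finset (Fin n)), Str G W PS nb FS LF → ∀ x ∈ W \ FS,
  (pts PS nb FS LF x).card = 3 ∧
  (∀ τ ∈ trs PS nb x, lb nb FS LF τ ∈ pts PS nb FS LF x) ∧
  (x ∉ PS → ee nb x ∈ pts PS nb FS LF x) ∧
  (∀ p ∈ pts PS nb FS LF x, (∃ τ ∈ trs PS nb x, p = lb nb FS LF τ) ∨ (x ∉ PS ∧ p = ee nb x) ∨
    (x ∉ PS ∧ p = enc {x} ∧ lb nb FS LF (t1 nb x) = lb nb FS LF (ct nb x))) ∧
  (x ∈ PS → lbs nb FS LF (ta nb x) = ta nb x ∧ lbs nb FS LF (tb nb x) = tb nb x ∧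
    (∀ u ∈ ta nb x, u ∉ FS) ∧ (∀ u ∈ tb nb x, u ∉ FS) ∧
    ∃ u ∈ ct nb x, u ∈ FS ∧ lbs nb FS LF (ct nb x) = zs nb LF u)

/-! ### B. counting -/

/-- INC (180 lines, uses LBL). `K = S ∩ FS`, `k = |K|`.  Let `x ∈ W \ FS`, `τ ∈ trs x`, `lbs τ = S`.  If no element of `τ` is in
`FS`: `S = τ`, so `k = 0`, `x ∈ S \ FS`.  Otherwise some `u ∈ τ ∩ FS`, `S = zs u` (LBL 1).  `τ ∈ trs u`.  If `τ = ct u` and `u ∉ LF`: `S =
ct u = τ`, `x ∈ S \ FS`.  If `u ∉ LF` and `τ = ta u` or `tb u`: then `u' = nb u 0 ∈ τ ∩ LF` (`alt`, `mate`), `τ = ta u'` or `tb u'` (`mat`).  So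
in the remaining cases there is `u ∈ τ ∩ LF`, `w = nb u 0 ∈ ct w = S`, `w ∈ K`, `u = nb w 0`, and `(x, τ)` is one of the four pairs
`(nb u 1, ta u), (nb u 2, tb u), (nb u 3, ct u), (nb u 4, ct u)` (`x ∈ τ`, `x ∉ FS`, and `u, w ∈ FS`).  So the pairs counted by `inc` inject into
`(S \ FS) ⊕ K × Fin 4` (with `τ = S` in the first case): `inc ≤ (3 - k) + 4 k`.  For `x ∈ PS \ FS` the first two kinds of the
four are impossible (`Loc.out`): `inc ≤ (3 - k) + 2 k`.  (Write `inc` as the card of a finset of pairs: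
`Finset.card_sigma` or `Finset.card_biUnion`; then `Finset.card_le_card` into a union of images.)
`zc S ≤ 2 k`: `zs u = S`: `u ∈ K` (`u ∉ LF`, `u ∈ ct u`) or `nb u 0 ∈ K` (`u ∈ LF`), `u = nb (nb u 0) 0`: the set is contained in
`K ∪ K.image (nb · 0)`.  Last claim: if `k = 0` trivial.  Otherwise `τ` has an element of `FS` (else `S = τ`, but `S` has one),
`S = zs u = ct w₀`, `w₀ ∈ FS \ LF` (LBL 1, 3).  For `w ∈ K`: `ct w = ct w₀` (`ctc`), `w ∉ LF` (otherwise `one` for `w₀ ∈ ct w` gives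
`w₀ = w ∈ LF`), so `zs w = S` and `zs (nb w 0) = S` (LBL 5), `nb w 0 ∈ LF` (`alt`).  So `K` and `K.image (nb · 0)` are disjoint, of card
`k` (`nb (nb w 0) 0 = w`) and contained in the set of `zc`. -/
def S_INC : Prop := ∀ (n : ℕ) (G : SimpleGraph (Fin n)) (W PS : Finset (Fin n))
  (nb : Fin n → Fin 5 → Fin n) (FS LF : Finset (Fin n)), Str G W PS nb FS LF →
  ∀ S : Finset (Fin n), S.card = 3 →
  inc PS nb FS LF (W \ FS) S ≤ 3 * (S ∩ FS).card + 3 ∧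
  inc PS nb FS LF (PS \ FS) S ≤ (S ∩ FS).card + 3 ∧
  zc nb FS LF S ≤ 2 * (S ∩ FS).card ∧
  ((∃ v ∈ W, ∃ τ ∈ trs PS nb v, lbs nb FS LF τ = S) → 2 * (S ∩ FS).card ≤ zc nb FS LF S)

/-- CNT (150 lines, uses LBL PTC INC). `V = W \ FS`, `P = PW V pts`, split by `(dec n p).card` `1`, `2`, `3`: `A₁` (`|A₁| = pv`), `A₂`, `A₃`
(`|A₁| + |A₂| + |A₃| ≤ |P|`).  `A₂`: `x ↦ ee x` maps `M = W \ PS ⊆ V` to `A₂`, every fibre has at most two elements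
(`ee x = ee y` gives `y ∈ {x, nb x 0}`): `|M| ≤ 2 |A₂|` (`Finset.card_le_mul_card_image`).  `A₃`:
`∑_(x ∈ V) |trs x| = 2 |M| + 3 |PS \ FS|` (`neP`, `neM`; `V` is the disjoint union of `M` and `PS \ FS`), and
`|trs x| = ∑_(p ∈ A₃) |{τ ∈ trs x | lbs τ = dec p}|` (`lb τ ∈ pts x`, PTC 2, LBL 4: `Finset.card_eq_sum_card_fiberwise` with the map
`τ ↦ lb τ`; `lb τ = p ↔ lbs τ = dec p` for `p = enc (dec p)`), so it is `∑_(p ∈ A₃) inc V (dec p)`, each term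
`≤ 3 + 3 k_p`, `2 k_p ≤ zc (dec p)` (INC; `p = lb τ`, PTC 4), and `∑_(p ∈ A₃) zc (dec p) ≤ |FS|` (disjoint fibres of
`zs`, `dec` is injective on `A₃`).  So `4 |M| + 6 |PS \ FS| ≤ 6 |A₃| + 3 |FS|`. -/
def S_CNT : Prop := ∀ (n : ℕ) (G : SimpleGraph (Fin n)) (W PS : Finset (Fin n))
  (nb : Fin n → Fin 5 → Fin n) (FS LF : Finset (Fin n)), Str G W PS nb FS LF →
  7 * (W \ PS).card + 6 * (PS \ FS).card + 6 * pv n (PW (W \ FS) (pts PS nb FS LF)) ≤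
    6 * (PW (W \ FS) (pts PS nb FS LF)).card + 3 * FS.card

/-- BUD (180 lines, uses LBL PTC INC). `V = W \ FS`, `V_p = {x ∈ V | p ∈ pts x}`, `u_p = |{x ∈ PS \ FS | p ∈ pts x}|`, `S = dec p`.
`|S| = 1`: `V_p` has at most one element (`p ∈ pts y` gives `p = enc {y}`): sum of weights `≤ 12`, `u_p = 0`.  `|S| = 2`: `p ∈ pts y`
gives `p = ee y`, `y ∉ PS`, `y ∈ S`: sum `≤ 12`, `u_p = 0`.  `|S| = 3`: every `x ∈ V_p` has a `τ ∈ trs x` with `lbs τ = S` (PTC 4), so `|V_p| ≤ inc V S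
≤ 3 k + 3`, `u_p ≤ inc (PS \ FS) S ≤ k + 3`, `k = |S ∩ FS| ≤ 3`, `2 k ≤ zc S`.  If `k = 0`: weights `4`, sum `≤ 12`.  If `k ≥ 1`: sum of
weights `+ 2 u_p ≤ 3 |V_p| ≤ 9 k + 9 ≤ 12 + 8 k ≤ 12 + 4 zc S`, and `2 u_p ≤ 2 k + 6 ≤ 8 k ≤ 4 zc S`.  Let `Q` = the `p ∈ P` with
`|S| = 3`, `k ≥ 1`.  Sum over `U`, and over `Q \ U`: `∑_(p ∈ U) (sum of weights) + 2 ∑_(p ∈ Q) u_p ≤ 12 |U| + 4 ∑_(p ∈ Q) zc (dec p)
≤ 12 |U| + 4 |FS|` (disjoint fibres of `zs`).  `∑_(p ∈ Q) u_p ≥ |PS \ FS|`: every `x ∈ PS \ FS` has the point `lb (ct x) ∈ Q` (PTC 5: its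
set is `zs u = ct w ∋ w ∈ FS`, LBL 3). -/
def S_BUD : Prop := ∀ (n : ℕ) (G : SimpleGraph (Fin n)) (W PS : Finset (Fin n))
  (nb : Fin n → Fin 5 → Fin n) (FS LF : Finset (Fin n)), Str G W PS nb FS LF →
  ∀ U ⊆ PW (W \ FS) (pts PS nb FS LF),
  ∑ p ∈ U, ∑ x ∈ (W \ FS).filter (fun x => p ∈ pts PS nb FS LF x), wt PS FS p x + 2 * (PS \ FS).card ≤
    12 * U.card + 4 * FS.card

/-- SZE (120 lines, uses LBL PTC INC). (1) If `p` is in no `pts x`: `0`.  Otherwise by PTC 4: `p = enc {y}` only for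
`x = y`; `p = ee y`: `x ∈ {y, nb y 0}`; `p = lb τ`, `|dec p| = 3` (LBL 4): every such `x` has a `τ ∈ trs x` with `lbs τ = dec p`, so the number
is `≤ inc ≤ 3 * 3 + 3`.  (2) `zs u` has three elements (LBL 3, `Tri.card`), so the set is empty or `zc (dec p) ≤ 2 * 3`.
(3) `3 |T0| = ∑_(x ∈ T0) |pts x| ≤ ∑_(p ∈ C) sz p ≤ 12 |C|` (PTC 1, `pts x ⊆ C`; double counting), `|T1| ≤ 6 |C|` by (2). -/
def S_SZE : Prop := ∀ (n : ℕ) (G : SimpleGraph (Fin n)) (W PS : Finset (Fin n))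
  (nb : Fin n → Fin 5 → Fin n) (FS LF : Finset (Fin n)), Str G W PS nb FS LF →
  (∀ p, sz (W \ FS) (pts PS nb FS LF) p ≤ 12) ∧
  (∀ p, (FS.filter (fun u => enc (zs nb LF u) = p)).card ≤ 6) ∧
  ∀ C : Finset ℕ, (TT W PS nb FS LF C).card ≤ 10 * C.card

/-! ### C. the claim -/

/-- NBT (90 lines, uses LBL PTC). (1) `u ∈ FS`: `lb τ = enc (zs u)` (LBL 1), so `u ∈ T1`.  `u ∉ FS`: `τ ∈ trs u` (`sym`), `lb τ ∈ pts u` (PTC 2),
so `u ∈ ZZ ⊆ T0 ∪ XX`.  (2) `v, nb v 0 ∉ PS ⊇ FS`, `ee (nb v 0) = ee v` (`par`; `Finset.pair_comm`), PTC 3.  (3) `Tri.cov` for `t`: a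
triangle `τ ∋ t, u`: if `t ∈ T0` then `lb τ ∈ pts t ⊆ C` (PTC 2), if `t ∈ T1` then `lb τ = enc (zs t) ∈ C` (LBL 1); use (1).  Or `t ∉ PS`,
`u = nb t 0`: `t ∈ T0`, `ee t ∈ C` (PTC 3); use (2).  (4) definitions (`T0 ⊆ W \ FS`, `T1 ⊆ FS ⊆ PS ⊆ W`, `XX ⊆ (W \ FS) \ T0`). -/
def S_NBT : Prop := ∀ (n : ℕ) (G : SimpleGraph (Fin n)) (W PS : Finset (Fin n))
  (nb : Fin n → Fin 5 → Fin n) (FS LF : Finset (Fin n)), Str G W PS nb FS LF →
  ∀ C : Finset ℕ,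
  (∀ v ∈ W, ∀ τ ∈ trs PS nb v, lb nb FS LF τ ∈ C → ∀ u ∈ τ,
    u ∈ TT W PS nb FS LF C ∪ XX W PS nb FS LF C) ∧
  (∀ v ∈ W, v ∉ PS → ee nb v ∈ C → v ∈ TT W PS nb FS LF C ∪ XX W PS nb FS LF C ∧
    nb v 0 ∈ TT W PS nb FS LF C ∪ XX W PS nb FS LF C) ∧
  (∀ t ∈ TT W PS nb FS LF C, ∀ u ∈ W, G.Adj t u →
    u ∈ TT W PS nb FS LF C ∪ XX W PS nb FS LF C) ∧
  TT W PS nb FS LF C ⊆ W ∧ XX W PS nb FS LF C ⊆ W ∧
  Disjoint (TT W PS nb FS LF C) (XX W PS nb FS LF C)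

/-- AL2 (120 lines, uses PTC NBT). `x` has a point `p ∈ C`.  The elements of `s` are `nb x i` for the `i` in a set `I` of three
elements, none in `T ∪ X`.  `p = lb τ`, `τ ∈ trs x`: the `nb x i ∈ τ` are in `T ∪ X` (NBT 1), so `I` is one of `{0, 3, 4}`, `{0, 1, 2}` (`x ∉ PS`),
`{2, 3, 4}`, `{1, 3, 4}`, `{0, 1, 2}` (`x ∈ PS`), each contains an adjacent pair (`mM`, `mP`).  `p = ee x`: `0 ∉ I` (NBT 2), so `I` contains
`1, 2` or `3, 4`.  `p = enc {x} ∈ C` is excluded by `pv n C = 0`. -/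
def S_AL2 : Prop := ∀ (n : ℕ) (G : SimpleGraph (Fin n)) (W PS : Finset (Fin n))
  (nb : Fin n → Fin 5 → Fin n) (FS LF : Finset (Fin n)), Str G W PS nb FS LF →
  ∀ C : Finset ℕ, pv n C = 0 → ∀ x ∈ XX W PS nb FS LF C,
  ∀ s ⊆ W \ (TT W PS nb FS LF C ∪ XX W PS nb FS LF C), s.card = 3 → (∀ y ∈ s, G.Adj x y) →
  ∃ y ∈ s, ∃ z ∈ s, G.Adj y z

/-- WGT (200 lines, uses LBL PTC NBT). Every `x ∈ ZZ \ PS` has `lb (t1 x) ≠ lb (ct x)`: otherwise `enc {x} ∈ pts x`; if it is in `C` then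
`pv ≥ 1`, otherwise `ow x ≥ 12`.  Let `x ∈ W \ PS`, `e = e0 x`, `j = j0 (t1 x) + j0 (ct x)`, `O = W \ (T ∪ X)`.  For `(e, j) ≠ (0, 0)` `x ∈ ZZ` (PTC 2, 3), so
`pts x = {ee x, lb (t1 x), lb (ct x)}` (three different points): `x ∈ T0 ↔ (e, j) = (1, 2)`, `ow x ≥ 6 (1 - e) + 3 (2 - j)` (the weights: `6` for
`ee x`, `3` or `4` for triangle points at `x ∉ PS`, LBL 4), `dg G O x ≤ (1 - e) + 2 (2 - j)` (NBT 1, 2: `nb x 0 ∉ O` if `e = 1`;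
`nb x 1, nb x 2 ∉ O` if `lb (t1 x) ∈ C`; `nb x 3, nb x 4 ∉ O` if `lb (ct x) ∈ C`).  Conversely `x ∈ ZZ \ PS` gives `(e, j) ≠ (0, 0)`.
Let `x ∈ PS \ FS`, `i = j0 (ta x) + j0 (tb x)`, `c = j0 (ct x)`: three different points (PTC 1), `x ∈ ZZ ↔ (i, c) ≠ (0, 0)`, `x ∈ T0 ↔ (i, c) = (2, 1)`,
`ow x = 4 (2 - i) + (1 - c)` (PTC 5: no element of `ta x`, `tb x` in `FS`; `lbs (ct x) = zs u = ct w ∋ w ∈ FS`), `dg G O x ≤ (if i = 0 then 1
else 0) + (2 - i) + 2 (1 - c)`.  Now `ZZ` is the disjoint union of the classes; sum (`Finset.sum_fiberwise`-like or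
`Finset.card_filter` and `Finset.sum_le_sum` termwise: each of (1)-(4) is a sum over `W \ FS = (W \ PS) ∪ (PS \ FS)` of a pointwise
statement). -/
def S_WGT : Prop := ∀ (n : ℕ) (G : SimpleGraph (Fin n)) (W PS : Finset (Fin n))
  (nb : Fin n → Fin 5 → Fin n) (FS LF : Finset (Fin n)), Str G W PS nb FS LF →
  ∀ C : Finset ℕ, ∑ x ∈ ZZ W PS nb FS LF C, ow PS nb FS LF C x + 12 * pv n C ≤ 11 →
  (T0 W PS nb FS LF C).card = mc W PS nb FS LF C 1 2 + pc PS nb FS LF C 2 1 ∧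
  (XX W PS nb FS LF C).card = mc W PS nb FS LF C 1 1 + mc W PS nb FS LF C 1 0 +
    mc W PS nb FS LF C 0 2 + mc W PS nb FS LF C 0 1 + pc PS nb FS LF C 2 0 +
    pc PS nb FS LF C 1 1 + pc PS nb FS LF C 1 0 + pc PS nb FS LF C 0 1 ∧
  3 * mc W PS nb FS LF C 1 1 + 6 * mc W PS nb FS LF C 1 0 + 6 * mc W PS nb FS LF C 0 2 +
    9 * mc W PS nb FS LF C 0 1 + pc PS nb FS LF C 2 0 + 4 * pc PS nb FS LF C 1 1 +
    5 * pc PS nb FS LF C 1 0 + 8 * pc PS nb FS LF C 0 1 ≤ 11 ∧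
  ∑ x ∈ XX W PS nb FS LF C, dg G (W \ (TT W PS nb FS LF C ∪ XX W PS nb FS LF C)) x ≤
    2 * mc W PS nb FS LF C 1 1 + 4 * mc W PS nb FS LF C 1 0 + mc W PS nb FS LF C 0 2 +
    3 * mc W PS nb FS LF C 0 1 + 2 * pc PS nb FS LF C 2 0 + pc PS nb FS LF C 1 1 +
    3 * pc PS nb FS LF C 1 0 + 3 * pc PS nb FS LF C 0 1

/-- PRT (170 lines, uses LBL PTC). (1) `Σ_P = ∑_(x ∈ PS \ FS) (j0 (ta x) + j0 (tb x)) = 2 (pc 2 1 + pc 2 0) + pc 1 1 + pc 1 0` and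
`Σ_M = ∑_(o ∈ W \ PS) (j0 (t1 o) + j0 (ct o)) = 2 mc 1 2 + 2 mc 0 2 + mc 1 1 + mc 0 1`.  `Σ_P` counts the pairs `(x, τ)`, `x ∈ PS \ FS`,
`τ ∈ {ta x, tb x}` (different sets), `lb τ ∈ C`; `Σ_M` the pairs `(o, τ)`, `o ∈ W \ PS`, `τ ∈ trs o`, `lb τ ∈ C`.  Map `(x, ta x)` to
`(nb x 1, ta x)` and `(x, tb x)` to `(nb x 2, tb x)` (`Loc.out`, `Tri.sym`); a fibre over `(o, τ)` consists of pairs `(x, τ)` with
`x ∈ τ`, `x ≠ o`: at most `2`.  (2) `x ↦ nb x 0` is an involution without fixed points on `{x ∈ W \ PS | ee x ∈ C}` (`par`, `ee (nb x 0) =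
ee x`), whose card is `mc 1 2 + mc 1 1 + mc 1 0` (`Finset.card_involution`-like: `Finset.even_card_of_involution`? or: the card is even
by `Finset.card_eq_of_equiv`, strong induction erasing `x, nb x 0`).  (3) `x ↦ nb x 0` on `{x ∈ PS \ FS | lb (ta x) ∈ C, lb (tb x) ∈ C}` (`mate`,
`mat`; `nb x 0 ∉ FS` as otherwise `x = nb (nb x 0) 0 ∈ FS`), of card `pc 2 1 + pc 2 0`.  (4) `x ∈ PS \ FS`, `lb (ct x) ∈ C`: PTC 5 gives
`u ∈ FS`, `enc (zs u) ∈ C`, so `u ∈ T1`; `nb u 0 ∈ FS`, LBL 5: `nb u 0 ∈ T1`; `nb u 0 ≠ u` (adjacent). -/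
def S_PRT : Prop := ∀ (n : ℕ) (G : SimpleGraph (Fin n)) (W PS : Finset (Fin n))
  (nb : Fin n → Fin 5 → Fin n) (FS LF : Finset (Fin n)), Str G W PS nb FS LF →
  ∀ C : Finset ℕ,
  2 * (pc PS nb FS LF C 2 1 + pc PS nb FS LF C 2 0) + pc PS nb FS LF C 1 1 +
    pc PS nb FS LF C 1 0 ≤ 2 * (2 * mc W PS nb FS LF C 1 2 + 2 * mc W PS nb FS LF C 0 2 +
    mc W PS nb FS LF C 1 1 + mc W PS nb FS LF C 0 1) ∧
  Even (mc W PS nb FS LF C 1 2 + mc W PS nb FS LF C 1 1 + mc W PS nb FS LF C 1 0) ∧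
  Even (pc PS nb FS LF C 2 1 + pc PS nb FS LF C 2 0) ∧
  (1 ≤ pc PS nb FS LF C 2 1 → 2 ≤ (T1 nb FS LF C).card)

/-- EMP (200 lines, uses LBL PTC). Suppose the sum `S` is `≤ 11`.  `V = W \ FS`, `T0 = T1 = ∅`.
(i) No point of `C` is private, and `lb (t1 x) ≠ lb (ct x)` for `x ∈ ZZ \ PS` (otherwise `enc {x} ∈ pts x \ C` has weight `12`).
(ii) If `lb τ ∈ C`, `τ ∈ trs x`, then `τ` has no element in `FS` (LBL 1: it would be in `T1`), so `lbs τ = τ` (LBL 2).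
(iii) For `x ∈ ZZ \ PS`: `ow x ≥ 3` (not all points are in `C`, the weights at `x ∉ PS` are `≥ 3`), and `ow x ≥ 6` if `ee x ∉ C`.  If `ee x ∈ C` then
also `nb x 0 ∈ ZZ \ PS`, `ow (nb x 0) ≥ 3`.  So `A x = {x}` (if `ee x ∉ C`) or `{x, nb x 0}` has `∑_(A x) ow ≥ 6`.
(iv) Let `p ∈ C`, `p = lb τ`, `τ ∈ trs x` (PTC 4), `τ ∩ PS = ∅`.  All three elements are in `ZZ \ PS`.  If `ee y ∉ C` for all `y ∈ τ`: `S ≥ 18`.
If `ee y ∈ C`, `y ∈ τ`: `nb y 0 ∉ τ` (`τ ∈ {t1 y, ct y}`), so there are four different elements of `ZZ \ PS`, `S ≥ 12`.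
(v) `p = lb τ ∈ C`, `τ ∈ trs x`, `v ∈ τ ∩ PS`: `τ ∈ trs v`, `τ ≠ ct v` (`Cov.cov`, (ii)), so `τ = ta v` or `tb v`; `v, nb v 0 ∉ FS` by (ii).  Let `τ'` be the
other one of `ta v, tb v`, `o ∈ τ`, `o' ∈ τ'` the outers (`nb v 1`, `nb v 2`), `∉ PS`.  If `lb τ' ∈ C`: `o, o' ∈ ZZ \ PS`, `A o` and `A o'` are disjoint
(`o ≠ o'`, `nb o 0 ≠ o'` because `o, o'` are not adjacent, `mP 1 2` is false; `nb o 0 = nb o' 0` gives `o = o'`, `par`): `S ≥ 12`.  If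
`lb τ' ∉ C`: `ow v ≥ 4 + 1` (`lb τ'` has weight `4` (PTC 5), `lb (ct v) ∉ C` by (ii) and `Cov.cov`, weight `≥ 1`; different points), the same for
`nb v 0` (`mat`), and `ow o ≥ 3`: `S ≥ 13`.
(vi) `p = ee x ∈ C`: `x, nb x 0 ∈ ZZ \ PS`.  If `lb τ ∈ C` for some `τ ∈ trs x` or `τ ∈ trs (nb x 0)`: (iv), (v).  Otherwise `ow x ≥ 3 + 3` (two different
points), `ow (nb x 0) ≥ 6`: `S ≥ 12`. -/
def S_EMP : Prop := ∀ (n : ℕ) (G : SimpleGraph (Fin n)) (W PS : Finset (Fin n))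
  (nb : Fin n → Fin 5 → Fin n) (FS LF : Finset (Fin n)), Str G W PS nb FS LF →
  ∀ C : Finset ℕ, C ⊆ PW (W \ FS) (pts PS nb FS LF) → C.Nonempty →
  TT W PS nb FS LF C = ∅ → 12 ≤ ∑ x ∈ ZZ W PS nb FS LF C, ow PS nb FS LF C x + 12 * pv n C

/-- ARI (60 lines). Arithmetic, checked by brute force (no exception).  The third hypothesis bounds the eight
numbers (`m11 ≤ 3, m10 ≤ 1, m02 ≤ 1, m01 ≤ 1, p20 ≤ 11, p11 ≤ 2, p10 ≤ 2, p01 ≤ 1`): `interval_cases` on them (closing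
impossible branches by `omega` early), then all products have a numeral factor and `omega` finishes
(`Even x` as `x = a + a`). -/
def S_ARI : Prop := ∀ m11 m10 m02 m01 p20 p11 p10 p01 tM tP t1 s X : ℕ,
  X = m11 + m10 + m02 + m01 + p20 + p11 + p10 + p01 → 5 ≤ X →
  3 * m11 + 6 * m10 + 6 * m02 + 9 * m01 + p20 + 4 * p11 + 5 * p10 + 8 * p01 ≤ 11 →
  s ≤ 2 * m11 + 4 * m10 + m02 + 3 * m01 + 2 * p20 + p11 + 3 * p10 + 3 * p01 →
  2 * (tP + p20) + p11 + p10 ≤ 2 * (2 * tM + 2 * m02 + m11 + m01) →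
  Even (tM + m11 + m10) → Even (tP + p20) → (1 ≤ tP → 2 ≤ t1) → 1 ≤ tM + tP + t1 →
  X * (5 * (tM + tP + t1) + s + 40) < 7 * X * X + 10 * s → False

/-- TE4 (120 lines, uses REM EDR Frag.K4.S_EDZ). Suppose `|X| ≤ 4`; `R` = the `x ∈ X` with a neighbour in `T`, `|R| ≤ 4`, the
neighbours of `T` in `W` are in `T ∪ R`.  REM with `D = ∅`; `Trm`: `ed2 G W < ed2 (cl G R) (W \ T)`.  EDR: `ed2 (cl G R) (W \ T) + ed2 G R =
ed2 G (W \ T) + |R| (|R| - 1)`.  EDZ for `Z = T`, all degrees `5`: `ed2 G (W \ T) + 5 |T| + e = ed2 G W`,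
`e = ∑_(u ∈ T) dg G (W \ T) u ≥ |R|` (double counting, every `r ∈ R` has a neighbour in `T`).  So
`5 |T| + |R| < |R| (|R| - 1)`.  For `t ∈ T`: `5 = dg G W t ≤ (|T| - 1) + |R|`, so `|T| ≥ 2`: `|R| = 4`: `14 < 12`; `|R| ≤ 3`: `10 < 6`. -/
def S_TE4 : Prop := ∀ (n k : ℕ) (G : SimpleGraph (Fin n)) (W T X : Finset (Fin n)), Trm k G W →
  (∀ v ∈ W, dg G W v = 5) → T ⊆ W → X ⊆ W → Disjoint T X → T.Nonempty → T.card + 5 ≤ k →
  (∀ t ∈ T, ∀ u ∈ W, G.Adj t u → u ∈ T ∪ X) → 5 ≤ X.card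

/-- TER (150 lines, uses REM EDR Frag.K4.S_EDZ). `D = X \ R`, `Z = T ∪ D`, `O = W \ (T ∪ X)`, `out x = dg G O x`.  REM (second alternative for
all `r ∈ R`) and `Trm`: `60 + ed2 G W < 12 |X| + ed2 (cl G R) (W \ Z)` (`|W \ Z| = |W| - |T| - |X| + 5`).  EDR: `ed2 (cl G R) (W \ Z) + ed2 G R =
ed2 G (W \ Z) + 20`.  EDZ, all degrees `5`: `ed2 G (W \ Z) + 5 |Z| + e = ed2 G W`, `e = ∑_(u ∈ Z) dg G (W \ Z) u`, `|Z| = |T| + |X| - 5`.
`W \ Z = R ∪ O` disjoint, so `e = ∑_(u ∈ Z) dg G R u + ∑_(u ∈ Z) out u`; `out t = 0` for `t ∈ T`, so the second sum is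
`∑_X out - ∑_R out`; the first one is `∑_(r ∈ R) dg G Z r` (double counting) `= ∑_(r ∈ R) (5 - dg G R r - out r) = 25 - ed2 G R - ∑_R out`.
Together the claim. -/
def S_TER : Prop := ∀ (n k : ℕ) (G : SimpleGraph (Fin n)) (W T X R : Finset (Fin n)), Trm k G W →
  (∀ v ∈ W, dg G W v = 5) → T ⊆ W → X ⊆ W → Disjoint T X → T.Nonempty → T.card + 5 ≤ k →
  (∀ t ∈ T, ∀ u ∈ W, G.Adj t u → u ∈ T ∪ X) →
  (∀ x ∈ X, ∀ s ⊆ W \ (T ∪ X), s.card = 3 → (∀ y ∈ s, G.Adj x y) → ∃ y ∈ s, ∃ z ∈ s, G.Adj y z) →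
  R ⊆ X → R.card = 5 →
  5 * T.card + ∑ x ∈ X, dg G (W \ (T ∪ X)) x + 40 <
    7 * X.card + 2 * ∑ x ∈ R, dg G (W \ (T ∪ X)) x

/-- AVG (60 lines). Among the subsets of `X` with five elements take one, `R`, with the smallest `∑_R f`
(`Finset.exists_min_image` for `X.powersetCard 5`).  For `a ∈ R`, `b ∈ X \ R`: `f a ≤ f b` (exchange).  So
`(|X| - 5) ∑_R f = ∑_(b ∈ X \ R) ∑_(a ∈ R) f a ≤ 5 ∑_(X \ R) f`. -/
def S_AVG : Prop := ∀ (n : ℕ) (X : Finset (Fin n)) (f : Fin n → ℕ), 5 ≤ X.card →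
  ∃ R ⊆ X, R.card = 5 ∧ X.card * ∑ x ∈ R, f x ≤ 5 * ∑ x ∈ X, f x

/-- CLM (120 lines, uses ST4 SZE NBT AL2 WGT PRT EMP ARI TE4 TER AVG). Suppose the sum is `≤ 11`.  Then `pv n C = 0`, `T = TT ≠ ∅` (EMP),
`X = XX`, `|T| ≤ 10 L` (SZE), all degrees are `5` (ST4), NBT (3), (4): TE4 gives `|X| ≥ 5`.  `R` from AVG for `f = dg G (W \ (T ∪ X))`, TER (AL2):
`|X| (5 |T| + s + 40) < 7 |X|² + 2 |X| ∑_R f ≤ 7 |X|² + 10 s`, `s = ∑_X f`.  `|T| = |T0| + |T1|` (`T0 ⊆ W \ FS`, `T1 ⊆ FS`).  WGT, PRT, ARI. -/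
def S_CLM : Prop := ∀ (n k L : ℕ) (G : SimpleGraph (Fin n)) (W PS : Finset (Fin n))
  (nb : Fin n → Fin 5 → Fin n) (FS LF : Finset (Fin n)), 10 * L + 5 ≤ k → Trm k G W →
  Str G W PS nb FS LF → ∀ C : Finset ℕ, C ⊆ PW (W \ FS) (pts PS nb FS LF) → C.Nonempty →
  C.card ≤ L → 12 ≤ ∑ x ∈ ZZ W PS nb FS LF C, ow PS nb FS LF C x + 12 * pv n C

/-- BAR (130 lines, uses BUD CLM). Sum of CLM over `CC` (`C` is nonempty: odd): `12 |CC| ≤ ∑_C ∑_(x ∈ ZZ C) ow C x + 12 ∑_C pv C`.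
`∑_C pv C ≤ pv P`, `P = PW V pts`, `V = W \ FS` (disjoint subsets of `P`).  For `x ∈ ZZ C`: `pts x \ C ⊆ pts x ∩ U` (`Clsd`), so `ow C x ≤
g x = ∑_(p ∈ pts x ∩ U) wt p x`; a vertex `x` is in `ZZ C` for at most one `C ∈ CC` (`pts x ⊆ C ∪ U`, and `C' ∩ (C ∪ U) = ∅`).  So the first
sum is `≤ ∑_(x ∈ V) g x = ∑_(p ∈ U) ∑_(x ∈ V, p ∈ pts x) wt p x` (`Finset.sum_comm'`), BUD. -/
def S_BAR : Prop := ∀ (n k L : ℕ) (G : SimpleGraph (Fin n)) (W PS : Finset (Fin n))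
  (nb : Fin n → Fin 5 → Fin n) (FS LF : Finset (Fin n)), 10 * L + 5 ≤ k → Trm k G W →
  Str G W PS nb FS LF → ∀ (U : Finset ℕ) (CC : Finset (Finset ℕ)),
  U ⊆ PW (W \ FS) (pts PS nb FS LF) →
  (∀ C ∈ CC, C ⊆ PW (W \ FS) (pts PS nb FS LF) ∧ Disjoint C U ∧
    Clsd (W \ FS) (pts PS nb FS LF) U C ∧ Odd C.card ∧ C.card ≤ L) →
  (∀ C ∈ CC, ∀ C' ∈ CC, C ≠ C' → Disjoint C C') →
  12 * CC.card + 2 * (PS \ FS).card ≤
    12 * U.card + 4 * FS.card + 12 * pv n (PW (W \ FS) (pts PS nb FS LF))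

/-! ### D. the kept set and the induction -/

/-- MTG (110 lines, uses TUT). Model: MP_547619_k4/B_MAT.lean (replace `6 * N + ed2` by `B`, `Y = B - b`; `U = CC = ∅` gives `b ≤ B`; the
members with more than `L` elements are at most `|PW| / L`; `12 (Y / 12) ≤ Y`). -/
def S_MTG : Prop := ∀ (n L b B : ℕ) (W : Finset (Fin n)) (pt : Fin n → Finset ℕ), 1 ≤ L →
  (∀ (U : Finset ℕ) (CC : Finset (Finset ℕ)), U ⊆ PW W pt →
    (∀ C ∈ CC, C ⊆ PW W pt ∧ Disjoint C U ∧ Clsd W pt U C ∧ Odd C.card ∧ C.card ≤ L) →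
    (∀ C ∈ CC, ∀ C' ∈ CC, C ≠ C' → Disjoint C C') → 12 * CC.card + b ≤ 12 * U.card + B) →
  ∃ f : ℕ → ℕ, (∀ x ∈ PW W pt, f x ∈ PW W pt ∧ f (f x) = x ∧
      (f x ≠ x → ∃ v ∈ W, x ∈ pt v ∧ f x ∈ pt v)) ∧
    12 * ((PW W pt).filter (fun x => f x = x)).card + b ≤ B + 12 * ((PW W pt).card / L + 1)

/-- KPT (120 lines, uses KPF LBL PTC SZE). Model: MP_547619_k4/B_KPT.lean.  `h' u = enc (zs u)`, `own' u = ∅` for `u ∈ FS`, `h' = h`, `own' = own`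
on `F` (`F ∩ FS = ∅`).  `G'.Adj u v ↔ u ≠ v ∧ (h' u = h' v ∨ h' u ∈ own' v ∨ h' v ∈ own' u)`.  KPF for `G'`, `s = 18`: the `v ∈ F` with `h v = p` have
`p ∈ pts v`, at most `12` (SZE 1), the `v ∈ FS` at most `6` (SZE 2).  For adjacent `u, v ∈ F ∪ FS` (`Tri.cov`): a triangle `τ ∋ u, v`, `p = lb τ`:
`p ∈ pts w = insert (h w) (own w)` for `w ∈ F` (PTC 2, `sym`), `p = h' w` for `w ∈ FS` (LBL 1); or `u ∉ PS`, `v = nb u 0`: `u, v ∉ PS`, so `u, v ∈ F`, `p =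
ee u = ee v` (`par`), PTC 3.  In all cases `p ∈ insert (h' w) (own' w)` for `w = u, v`, and not in both `own'` (disjoint): so
`G ≤ G'` on `F ∪ FS`, and `Keep G' 19` gives `Keep G 19` (the same `H`). -/
def S_KPT : Prop := ∀ (n : ℕ) (G : SimpleGraph (Fin n)) (W PS : Finset (Fin n))
  (nb : Fin n → Fin 5 → Fin n) (FS LF : Finset (Fin n)), Str G W PS nb FS LF →
  ∀ (F : Finset (Fin n)) (own : Fin n → Finset ℕ) (h : Fin n → ℕ), F ⊆ W \ FS →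
  (∀ v ∈ F, pts PS nb FS LF v = insert (h v) (own v) ∧ h v ∉ own v) →
  (∀ u ∈ F, ∀ v ∈ F, u ≠ v → Disjoint (own u) (own v)) → Keep G 19 (F ∪ FS)

/-- TRM (100 lines, uses ST4 LCC TRS CVR PTC CNT BAR MTG Frag.K4.S_CHO KPT). `5 ≤ k`: LCC, TRS, CVR give `Str`.  `V = W \ FS`, `P = PW V pts`, `m = |W \ PS|`,
`q = |PS \ FS|`, `γ = pv P`, `|W| = m + q + |FS|`.  BAR and MTG (`b = 2 q`, `B = 4 |FS| + 12 γ`) give `f` with
`12 fix + 2 q ≤ 4 |FS| + 12 γ + 12 (|P| / L + 1)`.  CHO: `F ⊆ V` with `|P| ≤ 2 |F| + fix`; KPT: `Keep G 19 (F ∪ FS)`, so `Keep G k` (monotone).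
CNT: `7 m + 6 q + 6 γ ≤ 6 |P| + 3 |FS|`.  So `7 |W| ≤ 12 |F ∪ FS| + 6 (|P| / L + 1)`, and `ed2 G W = 5 |W|` (ST4).  Times `L`, `|P| ≤ 3 |W|`
(PTC 1), `L ≤ |W|`: `6 (|P| + L) ≤ 24 |W|`. -/
def S_TRM : Prop := ∀ (n k L : ℕ) (G : SimpleGraph (Fin n)) (W : Finset (Fin n)), 1 ≤ L →
  10 * L + 19 ≤ k → L ≤ W.card → Trm k G W →
  ∃ F ⊆ W, Keep G k F ∧ L * (12 * W.card) ≤ L * (12 * F.card + ed2 G W) + 24 * W.card

/-- IND (80 lines, uses KSM TRM). `k = 10 L + 19`.  Strong induction on `|W|`, for all `G`.  `|W| ≤ k + 1`: `F = W` (KSM).  If `Trm k G W`: TRM.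
Otherwise there are `G', W', t` with `Rdc k G G' W W' t`, `|W'| < |W|`, `12 |W| + ed2 G' W' ≤ 12 |W'| + 12 t + ed2 G W`: induction for `(G', W')`
gives `F'`, `Rdc` gives `F` with `|F'| + t ≤ |F|`. -/
def S_IND : Prop := ∀ (L n : ℕ) (W : Finset (Fin n)) (G : SimpleGraph (Fin n)), 1 ≤ L →
  SF G W → ∃ F ⊆ W, Keep G (10 * L + 19) F ∧
    L * (12 * W.card) ≤ L * (12 * F.card + ed2 G W) + 24 * W.card

/-- The class of all graphs without induced `K_(1,4)`. -/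
def K14F : GraphClass := fun n G => ∀ (v : Fin n) (s : Finset (Fin n)), s.card = 4 →
  (∀ x ∈ s, G.Adj v x) → ∃ x ∈ s, ∃ y ∈ s, G.Adj x y

/-- UPP (60 lines, uses KTW IND). Model: MP_547619_k4/B_UPP.lean. -/
def S_UPP : Prop := ∀ (L : ℕ), 1 ≤ L → ∀ (n : ℕ) (G : SimpleGraph (Fin n)), K14F n G →
  ∃ S : Finset (Fin n), (S.card : ℝ) ≤ (G.edgeSet.ncard : ℝ) / 6 + 2 / (L : ℝ) * n ∧
    TreeWidthLE (G.induce {v | v ∉ S}) (10 * L + 19)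

/-- LOK (60 lines). Model: MP_547619_k4/B_LOK.lean (without the degree condition). -/
def S_LOK : Prop := ∀ (n : ℕ) (G : SimpleGraph (Fin n)), krauszClass 3 n G → K14F n G

end Frag.S4
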