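import Pool.Agent.Work.MP_547619_s4.Chain
import Pool.Agent.Work.MP_547619_s4.B_AL2
import Pool.Agent.Work.MP_547619_s4.B_ARI
import Pool.Agent.Work.MP_547619_s4.B_AVG
import Pool.Agent.Work.MP_547619_s4.B_BAR
import Pool.Agent.Work.MP_547619_s4.B_BUD
import Pool.Agent.Work.MP_547619_s4.B_CLM
import Pool.Agent.Work.MP_547619_s4.B_CNT
import Pool.Agent.Work.MP_547619_s4.B_CVR
import Pool.Agent.Work.MP_547619_s4.B_EDR
import Pool.Agent.Work.MP_547619_s4.B_EMP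
import Pool.Agent.Work.MP_547619_s4.B_INC
import Pool.Agent.Work.MP_547619_s4.B_IND
import Pool.Agent.Work.MP_547619_s4.B_KPT
import Pool.Agent.Work.MP_547619_s4.B_LBL
import Pool.Agent.Work.MP_547619_s4.B_LCC
import Pool.Agent.Work.MP_547619_s4.B_LOK
import Pool.Agent.Work.MP_547619_s4.B_MTG
import Pool.Agent.Work.MP_547619_s4.B_NBT
import Pool.Agent.Work.MP_547619_s4.B_PRT
import Pool.Agent.Work.MP_547619_s4.B_PTC
import Pool.Agent.Work.MP_547619_s4.B_REM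
import Pool.Agent.Work.MP_547619_s4.B_SM5
import Pool.Agent.Work.MP_547619_s4.B_ST4
import Pool.Agent.Work.MP_547619_s4.B_ST5
import Pool.Agent.Work.MP_547619_s4.B_ST6
import Pool.Agent.Work.MP_547619_s4.B_STA
import Pool.Agent.Work.MP_547619_s4.B_SZE
import Pool.Agent.Work.MP_547619_s4.B_TE4
import Pool.Agent.Work.MP_547619_s4.B_TER
import Pool.Agent.Work.MP_547619_s4.B_TO1
import Pool.Agent.Work.MP_547619_s4.B_TOR
import Pool.Agent.Work.MP_547619_s4.B_TRM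
import Pool.Agent.Work.MP_547619_s4.B_TRS
import Pool.Agent.Work.MP_547619_s4.B_TYP
import Pool.Agent.Work.MP_547619_s4.B_UPP
import Pool.Agent.Work.MP_547619_s4.B_WGT
import Pool.Agent.Work.MP_547619_k4.B_CHO
import Pool.Agent.Work.MP_547619_k4.B_EDZ
import Pool.Agent.Work.MP_547619_kz.B_EDS
import Pool.Agent.Work.MP_547619_kz.B_KPF
import Pool.Agent.Work.MP_547619_kz.B_TUT

/-!
# MP_547619_co, THEOREM S4: all blocks together
-/

set_option autoImplicit false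

namespace Frag.S4

open SimpleGraph Frag.Kz

theorem s4_main :
    (∀ d : ℕ, d = 4 ∨ d = 5 ∨ d = 6 →
      fragCoeff (maxSF d) = (d : ℝ) / 12 ∧ fragCoeff (avgSF d) = (d : ℝ) / 12) ∧
    ∀ ε : ℝ, 0 < ε → ∃ k : ℕ, ∀ (n : ℕ) (G : SimpleGraph (Fin n)), K14F n G →
      ∃ S : Finset (Fin n), (S.card : ℝ) ≤ (G.edgeSet.ncard : ℝ) / 6 + ε * n ∧
        TreeWidthLE (G.induce {v | v ∉ S}) k :=
  chain p_TUT p_KPF p_KSM p_KTW p_ED1 Frag.K4.p_EDZ Frag.K4.p_CHO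
    p_TOR p_REM p_EDR p_TO1 p_STA p_ST4 p_ST5 p_SM5 p_TYP p_ST6 p_LCC p_TRS p_CVR p_LBL p_PTC p_INC
    p_CNT p_BUD p_SZE p_NBT p_AL2 p_WGT p_PRT p_EMP p_ARI p_TE4 p_TER p_AVG p_CLM p_BAR p_MTG p_KPT
    p_TRM p_IND p_UPP p_LOK

end Frag.S4
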